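import Mathlib
import Pool.Agent.Work.MP_56168e_lc.Defs
import Pool.Agent.Work.MP_56168e_lc.Defs2
import Pool.Agent.Work.MP_56168e_lc.RlF

set_option autoImplicit false

/-!
# DNFs whose long terms are almost disjoint.  Definitions (FIXED, do not change).

`Des T A l` : any two distinct terms of A share at most l variables.
`Ext U P` : the partial assignment P extends U.   `ext T A U` : the terms of A extending U.
`dd T A U` : conditional expected number of satisfied terms of A which extend U, given U.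
`mass T A` : expected number of satisfied terms of A.   `mv T A v` : the same for the terms
containing the variable v.
`rf σ T`, `al σ T A` : the family restricted by σ (`al` = the terms not contradicted by σ).
`St T A r Λ` : dd T A U ≤ Λ for every partial assignment U with more than r variables.
`WF s w η ε` : densities of bias ≤ ε fool within η the DNFs with terms of width ≤ w indexed in Fin s.
-/

namespace Pool.Agent.Work.MP_56168e_lc.AD

open Finset Pool.Agent.Work.MP_56168e_lc

variable {n s : ℕ}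

def Des (T : Fin s → PA n) (A : Finset (Fin s)) (l : ℕ) : Prop :=
  ∀ i ∈ A, ∀ j ∈ A, i ≠ j → (dom (T i) ∩ dom (T j)).card ≤ l

def Ext (U P : PA n) : Prop := ∀ v b, U v = some b → P v = some b

open Classical in
noncomputable def ext (T : Fin s → PA n) (A : Finset (Fin s)) (U : PA n) : Finset (Fin s) :=
  A.filter (fun i => Ext U (T i))

noncomputable def dd (T : Fin s → PA n) (A : Finset (Fin s)) (U : PA n) : ℝ :=
  ∑ i ∈ ext T A U, pw (rt U (T i))

noncomputable def mass (T : Fin s → PA n) (A : Finset (Fin s)) : ℝ := ∑ i ∈ A, pw (T i)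

noncomputable def mv (T : Fin s → PA n) (A : Finset (Fin s)) (v : Fin n) : ℝ :=
  ∑ i ∈ A.filter (fun i => v ∈ dom (T i)), pw (T i)

def rf (σ : PA n) (T : Fin s → PA n) : Fin s → PA n := fun i => rt σ (T i)

open Classical in
noncomputable def al (σ : PA n) (T : Fin s → PA n) (A : Finset (Fin s)) : Finset (Fin s) :=
  A.filter (fun i => ¬ Fal (T i) σ)

/-- restriction of a partial assignment to the variables of V -/
def rs (V : Finset (Fin n)) (P : PA n) : PA n := fun v => if v ∈ V then P v else none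

/-- union of two partial assignments, U has priority -/
def un (U P : PA n) : PA n := fun v => if U v = none then P v else U v

def St (T : Fin s → PA n) (A : Finset (Fin s)) (r : ℕ) (Λ : ℝ) : Prop :=
  ∀ U : PA n, r < (dom U).card → dd T A U ≤ Λ

def WF (s w : ℕ) (η ε : ℝ) : Prop :=
  ∀ (n : ℕ) (T : Fin s → PA n) (B : Finset (Fin s)) (φ : Cube n → ℝ),
    (∀ i ∈ B, (dom (T i)).card ≤ w) → Dens ε φ → |pe φ (nz T B) - ex (nz T B)| ≤ η

/-- the DNF of the terms of B and A is false -/
noncomputable def two (T : Fin s → PA n) (B A : Finset (Fin s)) (x : Cube n) : ℝ :=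
  nz T B x * nz T A x

/-- the ratio of the thresholds -/
noncomputable def cF (l : ℕ) (δ : ℝ) : ℝ := 2 ^ (l + 6) / δ

/-- the growth of the thresholds in one round -/
noncomputable def GG (l M : ℕ) (δ : ℝ) : ℝ := cF l δ + 2 ^ (l * M)

/-- the bound for the factorial moments at the end -/
noncomputable def KK (l M : ℕ) (δ : ℝ) : ℝ := 2 ^ l * (cF l δ * GG l M δ ^ l) + 1

/-- the parameters: s terms, l common variables, W maximal width, w short width, wb minimal width,
M number of disjoint heavy sets, R order of Bonferroni, δ error, δ1 error of a certificate,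
η, ε1 for the short terms, ε0 bias -/
structure Pm (s l W w wb M R : ℕ) (δ δ1 η ε1 ε0 : ℝ) : Prop where
  hs : 1 ≤ s
  hR : 1 ≤ R
  hδ : 0 < δ
  hδ1 : 0 < δ1
  hδ11 : δ1 ≤ 1
  hδ12 : δ1 ≤ δ / 16
  hM : (1 - (1 / 2) ^ l) ^ M + M * δ1 ≤ δ / 16
  hRf : 2 * (KK l M δ1 ^ R / R.factorial) ≤ δ / 16
  hη0 : 0 ≤ η
  hη : η * Real.exp (KK l M δ1) ≤ δ / 16
  hε1 : ε1 ≤ 1
  hWF : WF s w η ε1
  hε0 : 0 ≤ ε0
  h1 : ((R : ℝ) + 1) * ((s : ℝ) ^ R * ε0) ≤ δ / 16
  h2 : 2 * ε0 * 2 ^ (R * W) ≤ ε1
  h3 : 32 * ε0 * 2 ^ l * (s : ℝ) ^ 2 ≤ δ1 / 2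
  h4 : ε0 * 2 ^ M ≤ δ / 16
  h5 : 2 ^ (l * M) * ε0 ≤ δ / (16 * (l + 1))
  h6 : 2 * ε0 * 2 ^ (l * M) ≤ 1
  h7 : (2 * (W : ℝ) ^ 2 * cF l δ1) ^ (l + 1) ≤ 2 ^ wb / 2
  h8 : ((R * W : ℕ) : ℝ) ^ (l + 1) * 2 ^ (R * l) / 2 ^ wb ≤ 1

end Pool.Agent.Work.MP_56168e_lc.AD
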