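import Mathlib
import Pool.Agent.Work.MP_56168e_lc.AD.Defs

set_option autoImplicit false

/-!
The constants.  PROOF.  M with (1-(1/2)^l)^M ≤ δ/32 and M ≥ 1 (exists_pow_lt_of_lt_one, 0 ≤ 1-(1/2)^l < 1), δ1 = δ/(32 M)
(so δ1 ≤ δ/16), KK > 0 is then fixed; R with KK^R/R! ≤ δ/32 (FloorSemiring.tendsto_pow_div_factorial_atTop
or Real.summable_pow_div_factorial) and R ≥ 1; η = min 1 (δ/16 / exp KK).
-/

namespace Pool.Agent.Work.MP_56168e_lc.AD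

open Finset Pool.Agent.Work.MP_56168e_lc

variable {n s : ℕ}

theorem num_a (l : ℕ) {δ : ℝ} (hδ : 0 < δ) (hδ1 : δ ≤ 1) : ∃ (M R : ℕ) (δ1 η : ℝ), 1 ≤ M ∧ 1 ≤ R ∧
    0 < δ1 ∧ δ1 ≤ 1 ∧ δ1 ≤ δ / 16 ∧ (1 - (1 / 2) ^ l) ^ M + M * δ1 ≤ δ / 16 ∧
    2 * (KK l M δ1 ^ R / R.factorial) ≤ δ / 16 ∧ 0 < η ∧ η ≤ 1 ∧
    η * Real.exp (KK l M δ1) ≤ δ / 16 := by
  have ha0 : (0 : ℝ) ≤ 1 - (1 / 2) ^ l := by
    have : ((1 : ℝ) / 2) ^ l ≤ 1 := pow_le_one₀ (by norm_num) (by norm_num)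
    linarith
  have ha1 : (1 : ℝ) - (1 / 2) ^ l < 1 := by
    have : (0 : ℝ) < (1 / 2) ^ l := by positivity
    linarith
  obtain ⟨M0, hM0⟩ := exists_pow_lt_of_lt_one (show (0 : ℝ) < δ / 32 by positivity) ha1
  set M : ℕ := M0 + 1 with hMdef
  have hM1 : 1 ≤ M := by omega
  have hMle : (1 - (1 / 2 : ℝ) ^ l) ^ M ≤ δ / 32 := by
    calc (1 - (1 / 2 : ℝ) ^ l) ^ M ≤ (1 - (1 / 2 : ℝ) ^ l) ^ M0 :=
          pow_le_pow_of_le_one ha0 ha1.le (by omega)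
      _ ≤ δ / 32 := hM0.le
  have hMr : (1 : ℝ) ≤ (M : ℝ) := by exact_mod_cast hM1
  have hMp : (0 : ℝ) < (M : ℝ) := by linarith
  set δ1 : ℝ := δ / (32 * M) with hδ1def
  have hδ1p : 0 < δ1 := by positivity
  have hδ1e : M * δ1 = δ / 32 := by
    rw [hδ1def]
    field_simp
  have hδ1le : δ1 ≤ δ / 32 := by
    have : 1 * δ1 ≤ M * δ1 := mul_le_mul_of_nonneg_right hMr hδ1p.le
    linarith
  have hKp : 0 < Real.exp (KK l M δ1) := Real.exp_pos _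
  have ht := FloorSemiring.tendsto_pow_div_factorial_atTop (KK l M δ1)
  have hev := ht.eventually (gt_mem_nhds (show (0 : ℝ) < δ / 32 by positivity))
  obtain ⟨R0, hR0⟩ := Filter.eventually_atTop.1 hev
  refine ⟨M, max R0 1, δ1, min 1 (δ / 16 / Real.exp (KK l M δ1)), hM1, le_max_right _ _, hδ1p,
    by linarith, by linarith, by linarith, ?_, ?_, min_le_left _ _, ?_⟩
  · have := hR0 (max R0 1) (le_max_left _ _)
    linarith
  · exact lt_min one_pos (by positivity)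
  · calc min 1 (δ / 16 / Real.exp (KK l M δ1)) * Real.exp (KK l M δ1)
        ≤ (δ / 16 / Real.exp (KK l M δ1)) * Real.exp (KK l M δ1) :=
          mul_le_mul_of_nonneg_right (min_le_right _ _) hKp.le
      _ = δ / 16 := by field_simp

end Pool.Agent.Work.MP_56168e_lc.AD
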