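import Mathlib
import Pool.Agent.Work.MP_56168e_lc.AD.Defs

set_option autoImplicit false

/-!
The growth of w(s) = log s / (log log s)^3.  PROOF.  With x = log s, y = log x = log log s (x ≥ exp 1 large): y^3 ≤ sqrt x for large x
(isLittleO_log_rpow type, or Real.add_one_le_exp with y = 7 * (y/7): y^3 ≤ c exp(y/2)), so x/y^3 ≥ sqrt x = exp(y/2), which is
larger than (2 l + 4 + k) y / log 2 + c for y large.  It is enough to prove: for all a c there is x0 such that
for x ≥ x0: c * x^a ≤ 2^(x/(log x)^3 - c) (real powers), and x/(log x)^3 ≥ c.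
-/

namespace Pool.Agent.Work.MP_56168e_lc.AD

open Finset Pool.Agent.Work.MP_56168e_lc

variable {n s : ℕ}

theorem num_gr (a : ℕ) (c : ℝ) (hc : 0 < c) : ∃ x0 : ℝ, ∀ x : ℝ, x0 ≤ x →
    c ≤ x / Real.log x ^ 3 ∧
      c * x ^ a ≤ Real.exp (Real.log 2 * (x / Real.log x ^ 3 - c)) ∧
      x / Real.log x ^ 3 + 2 ≤ x ^ 2 ∧ 1 ≤ Real.log x := by
  have hl2 : 0 < Real.log 2 := Real.log_pos (by norm_num)
  have e1 : ∀ᶠ x : ℝ in Filter.atTop, Real.log x ^ 3 ≤ Real.sqrt x := by
    have h := (isLittleO_log_rpow_rpow_atTop (3 : ℝ) (show (0 : ℝ) < 1 / 2 by norm_num)).bound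
      (show (0 : ℝ) < 1 by norm_num)
    filter_upwards [h, Filter.eventually_ge_atTop 1] with x hx hx1
    have h0 : 0 ≤ Real.log x := Real.log_nonneg hx1
    rw [one_mul, Real.norm_of_nonneg (Real.rpow_nonneg h0 _),
      Real.norm_of_nonneg (Real.rpow_nonneg (by linarith) _)] at hx
    rw [Real.sqrt_eq_rpow]
    refine le_trans (le_of_eq ?_) hx
    rw [← Real.rpow_natCast]
    norm_num
  have e2 : ∀ᶠ u : ℝ in Filter.atTop, u ^ (2 * a) * Real.exp (-u) ≤
      Real.log 2 ^ (2 * a) * Real.exp (-(Real.log 2 * c)) / c := by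
    have h := Real.tendsto_pow_mul_exp_neg_atTop_nhds_zero (2 * a)
    exact (h.eventually (ge_mem_nhds (by positivity)))
  have ht : Filter.Tendsto (fun x : ℝ => Real.log 2 * Real.sqrt x) Filter.atTop Filter.atTop :=
    Filter.Tendsto.const_mul_atTop hl2 Real.tendsto_sqrt_atTop
  have e3 := ht.eventually e2
  have e4 : ∀ᶠ x : ℝ in Filter.atTop, c ≤ Real.sqrt x :=
    Real.tendsto_sqrt_atTop.eventually_ge_atTop c
  have e5 : ∀ᶠ x : ℝ in Filter.atTop, 1 ≤ Real.log x :=
    Real.tendsto_log_atTop.eventually_ge_atTop 1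
  have e6 : ∀ᶠ x : ℝ in Filter.atTop, 2 ≤ x := Filter.eventually_ge_atTop 2
  obtain ⟨x0, hx0⟩ := Filter.eventually_atTop.1
    (e1.and (e3.and (e4.and (e5.and e6))))
  refine ⟨x0, fun x hx => ?_⟩
  obtain ⟨h1, h3, h4, h5, h6⟩ := hx0 x hx
  have hx0' : 0 ≤ x := by linarith
  have hlp : 0 < Real.log x ^ 3 := by positivity
  have hl1 : 1 ≤ Real.log x ^ 3 := one_le_pow₀ h5
  have hsq : Real.sqrt x * Real.sqrt x = x := Real.mul_self_sqrt hx0'
  have hs0 : 0 ≤ Real.sqrt x := Real.sqrt_nonneg x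
  have h7 : Real.sqrt x ≤ x / Real.log x ^ 3 := by
    rw [le_div_iff₀ hlp]
    calc Real.sqrt x * Real.log x ^ 3 ≤ Real.sqrt x * Real.sqrt x :=
          mul_le_mul_of_nonneg_left h1 hs0
      _ = x := hsq
  refine ⟨h4.trans h7, ?_, ?_, h5⟩
  · have h8 : c * x ^ a ≤ Real.exp (Real.log 2 * (Real.sqrt x - c)) := by
      have e : (Real.log 2 * Real.sqrt x) ^ (2 * a) = Real.log 2 ^ (2 * a) * x ^ a := by
        rw [mul_pow, pow_mul (Real.sqrt x), Real.sq_sqrt hx0']
      rw [e] at h3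
      have hp : 0 < Real.log 2 ^ (2 * a) := by positivity
      have h9 : x ^ a * Real.exp (-(Real.log 2 * Real.sqrt x)) ≤
          Real.exp (-(Real.log 2 * c)) / c := by
        have h10 : Real.log 2 ^ (2 * a) * (x ^ a * Real.exp (-(Real.log 2 * Real.sqrt x))) ≤
            Real.log 2 ^ (2 * a) * (Real.exp (-(Real.log 2 * c)) / c) := by
          rw [← mul_assoc, mul_div_assoc'] 
          exact h3
        exact le_of_mul_le_mul_left h10 hp
      rw [le_div_iff₀ hc] at h9
      have e11 : Real.exp (Real.log 2 * (Real.sqrt x - c)) =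
          Real.exp (-(Real.log 2 * c)) * Real.exp (Real.log 2 * Real.sqrt x) := by
        rw [← Real.exp_add]
        congr 1
        ring
      rw [e11]
      have h12 := mul_le_mul_of_nonneg_right h9 (Real.exp_pos (Real.log 2 * Real.sqrt x)).le
      refine le_trans (le_of_eq ?_) h12
      have e13 : Real.exp (-(Real.log 2 * Real.sqrt x)) * Real.exp (Real.log 2 * Real.sqrt x) = 1 := by
        rw [← Real.exp_add, neg_add_cancel, Real.exp_zero]
      calc c * x ^ a = c * x ^ a * (Real.exp (-(Real.log 2 * Real.sqrt x)) *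
            Real.exp (Real.log 2 * Real.sqrt x)) := by rw [e13, mul_one]
        _ = _ := by ring
    refine h8.trans (Real.exp_le_exp.2 ?_)
    exact mul_le_mul_of_nonneg_left (by linarith) hl2.le
  · have h8 : x / Real.log x ^ 3 ≤ x := div_le_self hx0' hl1
    nlinarith

end Pool.Agent.Work.MP_56168e_lc.AD
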