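import Mathlib
import Pool.Agent.Work.MP_56168e_lc.AD.Defs
import Pool.Agent.Work.MP_56168e_lc.AD.NumGr
set_option autoImplicit false

/-!
The choice of w and wb.  PROOF.  L = log s, w = ⌊L/(log L)^3⌋₊, wb = w + 1 - (l + l*(l*M)) (natural subtraction, the
inequality wb + .. ≤ w + 1 holds as soon as w + 1 ≥ l + l*(l*M)).  num_gr (x = L, a = 2*(l+1), c large):
w ≥ 1, w + 1 ≥ c; w + 2 ≤ L/(log L)^3 + 2 ≤ L^2, so log (w+2) ≤ 2 log L and w (log(w+2))^3 ≤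
(L/(log L)^3) * 8 (log L)^3 = 8 L.  h7, h8: W ≤ 3 L, so the left sides are ≤ constant * L^(2(l+1)), and
2^wb = exp(log 2 * wb) ≥ exp(log 2 (L/(log L)^3 - l - l*l*M)).
-/

namespace Pool.Agent.Work.MP_56168e_lc.AD

open Finset Pool.Agent.Work.MP_56168e_lc

variable {n s : ℕ}

private theorem numb1_pow (w : ℕ) : Real.exp (Real.log 2 * w) = 2 ^ w := by
  rw [mul_comm, Real.exp_nat_mul, Real.exp_log (by norm_num : (0 : ℝ) < 2)]

private theorem numb1_core (l M R : ℕ) {δ1 : ℝ} (hδ1' : 0 < δ1) {c L : ℝ}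
    (hc : c = 2 * (18 * cF l δ1) ^ (l + 1) + (3 * (R : ℝ)) ^ (l + 1) * 2 ^ (R * l) +
      (l + l * (l * M) : ℕ) + 1)
    (h1 : c ≤ L / Real.log L ^ 3)
    (h2 : c * L ^ (2 * (l + 1)) ≤ Real.exp (Real.log 2 * (L / Real.log L ^ 3 - c)))
    (h3 : L / Real.log L ^ 3 + 2 ≤ L ^ 2) (h4 : 1 ≤ Real.log L) (h0 : 0 < L) {W : ℕ}
    (hW : (W : ℝ) ≤ 3 * L) : ∃ (w wb : ℕ), 1 ≤ w ∧
      (w : ℝ) ≤ L / Real.log L ^ 3 ∧ L / Real.log L ^ 3 < w + 1 ∧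
      wb + l + l * (l * M) ≤ w + 1 ∧ w * Real.log (w + 2) ^ 3 ≤ 8 * L ∧
      (2 * (W : ℝ) ^ 2 * cF l δ1) ^ (l + 1) ≤ 2 ^ wb / 2 ∧
      ((R * W : ℕ) : ℝ) ^ (l + 1) * 2 ^ (R * l) / 2 ^ wb ≤ 1 := by
  have hcF : 0 < cF l δ1 := by
    unfold cF
    positivity
  have hL1 : 1 ≤ L := by
    by_contra h
    push Not at h
    have := Real.log_nonpos h0.le h.le
    linarith
  obtain ⟨x, hx⟩ : ∃ x : ℝ, x = L / Real.log L ^ 3 := ⟨_, rfl⟩
  obtain ⟨K, hK⟩ : ∃ K : ℕ, K = l + l * (l * M) := ⟨_, rfl⟩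
  rw [← hx] at h1 h2 h3 ⊢
  rw [← hK] at hc
  have hA : 0 < 2 * (18 * cF l δ1) ^ (l + 1) := by positivity
  have hB : 0 ≤ (3 * (R : ℝ)) ^ (l + 1) * 2 ^ (R * l) := by positivity
  have hK0 : (0 : ℝ) ≤ K := Nat.cast_nonneg K
  have hc1 : 1 ≤ c := by linarith
  have hx1 : 1 ≤ x := hc1.trans h1
  have hw1 : ((⌊x⌋₊ : ℕ) : ℝ) ≤ x := Nat.floor_le (by linarith)
  have hw2 : x < (⌊x⌋₊ : ℕ) + 1 := Nat.lt_floor_add_one x
  obtain ⟨w, hw⟩ : ∃ w : ℕ, w = ⌊x⌋₊ := ⟨_, rfl⟩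
  rw [← hw] at hw1 hw2
  have hw0 : 1 ≤ w := by
    rw [hw]
    exact Nat.le_floor (by exact_mod_cast hx1)
  have hKw : K ≤ w + 1 := by
    have h5 : (K : ℝ) < w + 1 := by linarith
    have h6 : (K : ℝ) < ((w + 1 : ℕ) : ℝ) := by
      push_cast
      exact h5
    exact_mod_cast h6.le
  have hwb : ((w + 1 - K : ℕ) : ℝ) = w + 1 - K := by
    rw [Nat.cast_sub hKw]
    push_cast
    ring
  have hpw : c * L ^ (2 * (l + 1)) ≤ 2 ^ (w + 1 - K) := by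
    refine h2.trans ?_
    rw [← numb1_pow, Real.exp_le_exp, hwb]
    refine mul_le_mul_of_nonneg_left ?_ (Real.log_nonneg (by norm_num))
    linarith
  have hLp : 0 < L ^ (2 * (l + 1)) := by positivity
  refine ⟨w, w + 1 - K, hw0, hw1, hw2, ?_, ?_, ?_, ?_⟩
  · rw [add_assoc, ← hK]
    exact (Nat.sub_add_cancel hKw).le
  · have hlw : Real.log (w + 2) ≤ 2 * Real.log L := by
      have h5 : (w : ℝ) + 2 ≤ L ^ 2 := by linarith
      have h6 := Real.log_le_log (by positivity) h5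
      rwa [Real.log_pow, Nat.cast_ofNat] at h6
    have hlw0 : 0 ≤ Real.log (w + 2) := Real.log_nonneg (by
      have : (0 : ℝ) ≤ w := Nat.cast_nonneg w
      linarith)
    have h5 : Real.log (w + 2) ^ 3 ≤ (2 * Real.log L) ^ 3 := pow_le_pow_left₀ hlw0 hlw 3
    calc (w : ℝ) * Real.log (w + 2) ^ 3 ≤ x * (2 * Real.log L) ^ 3 :=
          mul_le_mul hw1 h5 (by positivity) (by linarith)
      _ = 8 * L := by
          rw [hx]
          have : Real.log L ≠ 0 := by linarith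
          field_simp
          norm_num
  · have h5 : 2 * (W : ℝ) ^ 2 * cF l δ1 ≤ 18 * cF l δ1 * L ^ 2 := by
      have h6 : (W : ℝ) ^ 2 ≤ (3 * L) ^ 2 := pow_le_pow_left₀ (Nat.cast_nonneg W) hW 2
      nlinarith
    have h6 : (2 * (W : ℝ) ^ 2 * cF l δ1) ^ (l + 1) ≤ (18 * cF l δ1) ^ (l + 1) *
        L ^ (2 * (l + 1)) := by
      rw [pow_mul, ← mul_pow]
      exact pow_le_pow_left₀ (by positivity) h5 _
    have h7 : 2 * (18 * cF l δ1) ^ (l + 1) * L ^ (2 * (l + 1)) ≤ c * L ^ (2 * (l + 1)) :=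
      mul_le_mul_of_nonneg_right (by linarith) hLp.le
    linarith
  · have h5 : ((R * W : ℕ) : ℝ) ≤ 3 * (R : ℝ) * L := by
      push_cast
      have hR : (0 : ℝ) ≤ R := Nat.cast_nonneg R
      nlinarith
    have h6 : ((R * W : ℕ) : ℝ) ^ (l + 1) ≤ (3 * (R : ℝ)) ^ (l + 1) * L ^ (2 * (l + 1)) := by
      refine (pow_le_pow_left₀ (Nat.cast_nonneg _) h5 _).trans ?_
      rw [mul_pow]
      refine mul_le_mul_of_nonneg_left ?_ (by positivity)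
      exact pow_le_pow_right₀ hL1 (by omega)
    rw [div_le_one (by positivity)]
    have h7 : ((R * W : ℕ) : ℝ) ^ (l + 1) * 2 ^ (R * l) ≤
        (3 * (R : ℝ)) ^ (l + 1) * 2 ^ (R * l) * L ^ (2 * (l + 1)) := by
      have := mul_le_mul_of_nonneg_right h6 (by positivity : (0 : ℝ) ≤ 2 ^ (R * l))
      linarith
    have h8 : (3 * (R : ℝ)) ^ (l + 1) * 2 ^ (R * l) * L ^ (2 * (l + 1)) ≤
        c * L ^ (2 * (l + 1)) := mul_le_mul_of_nonneg_right (by linarith) hLp.le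
    linarith

theorem num_b1 (l M R : ℕ) {δ1 : ℝ} (hδ1' : 0 < δ1) : ∃ s0 : ℕ, 3 ≤ s0 ∧ ∀ s W : ℕ, s0 ≤ s →
    (W : ℝ) ≤ 3 * Real.log s → ∃ (w wb : ℕ), 1 ≤ w ∧
      (w : ℝ) ≤ Real.log s / Real.log (Real.log s) ^ 3 ∧
      Real.log s / Real.log (Real.log s) ^ 3 < w + 1 ∧
      wb + l + l * (l * M) ≤ w + 1 ∧ w * Real.log (w + 2) ^ 3 ≤ 8 * Real.log s ∧
      (2 * (W : ℝ) ^ 2 * cF l δ1) ^ (l + 1) ≤ 2 ^ wb / 2 ∧
      ((R * W : ℕ) : ℝ) ^ (l + 1) * 2 ^ (R * l) / 2 ^ wb ≤ 1 := by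
  have hcF : 0 < cF l δ1 := by
    unfold cF
    positivity
  obtain ⟨c, hc⟩ : ∃ c : ℝ, c = 2 * (18 * cF l δ1) ^ (l + 1) +
    (3 * (R : ℝ)) ^ (l + 1) * 2 ^ (R * l) + (l + l * (l * M) : ℕ) + 1 := ⟨_, rfl⟩
  have hc0 : 0 < c := by
    rw [hc]
    positivity
  obtain ⟨x0, hx0⟩ := num_gr (2 * (l + 1)) c hc0
  refine ⟨max 3 ⌈Real.exp x0⌉₊, le_max_left _ _, fun s W hs hW => ?_⟩
  have hs3 : 3 ≤ s := (le_max_left _ _).trans hs
  have hsx : Real.exp x0 ≤ s :=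
    (Nat.le_ceil _).trans (by exact_mod_cast (le_max_right 3 ⌈Real.exp x0⌉₊).trans hs)
  have hs0 : (0 : ℝ) < s := by
    have : 0 < s := by omega
    exact_mod_cast this
  have hL : x0 ≤ Real.log s := by
    rwa [Real.le_log_iff_exp_le hs0]
  have hL0 : 0 < Real.log s := Real.log_pos (by
    have : 1 < s := by omega
    exact_mod_cast this)
  obtain ⟨h1, h2, h3, h4⟩ := hx0 (Real.log s) hL
  exact numb1_core l M R hδ1' hc h1 h2 h3 h4 hL0 hW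

end Pool.Agent.Work.MP_56168e_lc.AD
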