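import Mathlib
import Pool.Agent.Work.MP_56168e_lc.AD.Defs

set_option autoImplicit false

/-!
The choice of the biases.  PROOF.  L = log s, ε1 = exp(-(10 C1 L)), ε0 = exp(-((10 C1 + R + 5) L)), C = 10 C1 + R + 5 + A + 2.
s^R = exp(R L), 2^(R W) = (2^W)^R ≤ (32/δ)^R exp(R L), s = exp L.  Every inequality reduces to
constant * exp(-L) ≤ constant, true for s ≥ s0.  Last part: 2^h = exp(h log 2) ≤ exp(A L) (log 2 ≤ 1),
ε ≤ s^(-C) = exp(-C L), so ε 2^h ≤ exp(-(10 C1 + R + 5 + 2) L) and s ε ≤ exp(-6 L).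
-/

namespace Pool.Agent.Work.MP_56168e_lc.AD

open Finset Pool.Agent.Work.MP_56168e_lc

variable {n s : ℕ}

/-- constants times exp (-L) are small for large s -/
private lemma small_exp (c k : ℝ) (hk : 0 < k) : ∃ s0 : ℕ, 3 ≤ s0 ∧ ∀ s : ℕ, s0 ≤ s →
    c * Real.exp (-(Real.log s)) ≤ k := by
  refine ⟨max 3 ⌈|c| / k⌉₊, le_max_left _ _, ?_⟩
  intro s hs
  have h3 : 3 ≤ s := (le_max_left _ _).trans hs
  have hs0 : (0 : ℝ) < s := by
    have : 0 < s := by omega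
    exact_mod_cast this
  have h1 : |c| / k ≤ s := by
    refine (Nat.le_ceil _).trans ?_
    exact_mod_cast (le_max_right _ _).trans hs
  rw [Real.exp_neg, Real.exp_log hs0, ← div_eq_mul_inv, div_le_iff₀ hs0]
  rw [div_le_iff₀ hk] at h1
  linarith [le_abs_self c]

theorem num_b2 (l M R : ℕ) {δ δ1 A C1 : ℝ} (hδ : 0 < δ) (hδ1 : δ ≤ 1) (hδ1' : 0 < δ1) (hA : 0 ≤ A)
    (hC1 : 0 < C1) : ∃ C : ℝ, 0 < C ∧ ∃ s0 : ℕ, 3 ≤ s0 ∧ ∀ s W : ℕ, s0 ≤ s →
    (2 : ℝ) ^ W ≤ 32 * s / δ → ∃ ε0 : ℝ, 0 ≤ ε0 ∧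
      ((R : ℝ) + 1) * ((s : ℝ) ^ R * ε0) ≤ δ / 16 ∧
      2 * ε0 * 2 ^ (R * W) ≤ Real.exp (-(10 * C1 * Real.log s)) ∧
      32 * ε0 * 2 ^ l * (s : ℝ) ^ 2 ≤ δ1 / 2 ∧ ε0 * 2 ^ M ≤ δ / 16 ∧
      2 ^ (l * M) * ε0 ≤ δ / (16 * (l + 1)) ∧ 2 * ε0 * 2 ^ (l * M) ≤ 1 ∧
      ∀ (ε : ℝ) (h : ℕ), 0 ≤ ε → ε ≤ (s : ℝ) ^ (-C) → (h : ℝ) ≤ A * Real.log s →
        2 * ε * 2 ^ h ≤ ε0 / (2 * 2 ^ (l * M)) ^ l ∧ 2 ^ h * ε ≤ δ / 32 ∧ s * ε ≤ δ / 32 := by
  obtain ⟨C, hCe⟩ : ∃ C : ℝ, C = 10 * C1 + R + 5 + A + 2 := ⟨_, rfl⟩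
  have hR0 : (0 : ℝ) ≤ R := Nat.cast_nonneg R
  obtain ⟨a1, b1, c1⟩ := small_exp ((R : ℝ) + 1) (δ / 16) (by positivity)
  obtain ⟨a2, b2, c2⟩ := small_exp (2 * (32 / δ) ^ R) 1 one_pos
  obtain ⟨a3, b3, c3⟩ := small_exp (32 * 2 ^ l) (δ1 / 2) (by positivity)
  obtain ⟨a4, b4, c4⟩ := small_exp (2 ^ M) (δ / 16) (by positivity)
  obtain ⟨a5, b5, c5⟩ := small_exp (2 ^ (l * M)) (δ / (16 * (l + 1))) (by positivity)
  obtain ⟨a6, b6, c6⟩ := small_exp (2 * 2 ^ (l * M)) 1 one_pos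
  obtain ⟨a7, b7, c7⟩ := small_exp (2 * (2 * 2 ^ (l * M)) ^ l) 1 one_pos
  obtain ⟨a8, b8, c8⟩ := small_exp 1 (δ / 32) (by positivity)
  refine ⟨C, by rw [hCe]; positivity, a1 + a2 + a3 + a4 + a5 + a6 + a7 + a8, by omega, ?_⟩
  intro s W hs hW
  have d1 := c1 s (by omega)
  have d2 := c2 s (by omega)
  have d3 := c3 s (by omega)
  have d4 := c4 s (by omega)
  have d5 := c5 s (by omega)
  have d6 := c6 s (by omega)
  have d7 := c7 s (by omega)
  have d8 := c8 s (by omega)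
  have hs3 : (3 : ℝ) ≤ s := by
    have : 3 ≤ s := by omega
    exact_mod_cast this
  have hs0 : (0 : ℝ) < s := by linarith
  obtain ⟨L, hL⟩ : ∃ L, L = Real.log s := ⟨_, rfl⟩
  have hLpos : 0 < L := by rw [hL]; exact Real.log_pos (by linarith)
  have hsL : (s : ℝ) = Real.exp L := by rw [hL, Real.exp_log hs0]
  rw [← hL] at d1 d2 d3 d4 d5 d6 d7 d8 ⊢
  have hsR : ∀ k : ℕ, (s : ℝ) ^ k = Real.exp (k * L) := by
    intro k
    rw [hsL, ← Real.exp_nat_mul]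
  obtain ⟨B, hB⟩ : ∃ B : ℝ, B = 10 * C1 + R + 5 := ⟨_, rfl⟩
  have hB5 : 5 ≤ B := by rw [hB]; nlinarith
  have hp0 : ∀ x : ℝ, 0 < Real.exp x := Real.exp_pos
  -- exp (-(B L)) ≤ exp (-L)
  have g1 : Real.exp (-(B * L)) ≤ Real.exp (-L) := Real.exp_le_exp.2 (by nlinarith)
  refine ⟨Real.exp (-(B * L)), (hp0 _).le, ?_, ?_, ?_, ?_, ?_, ?_, ?_⟩
  · have e : (s : ℝ) ^ R * Real.exp (-(B * L)) ≤ Real.exp (-L) := by
      rw [hsR, ← Real.exp_add]
      refine Real.exp_le_exp.2 ?_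
      rw [hB]
      have : 0 < C1 * L := by positivity
      nlinarith
    calc ((R : ℝ) + 1) * ((s : ℝ) ^ R * Real.exp (-(B * L))) ≤ (R + 1) * Real.exp (-L) :=
          mul_le_mul_of_nonneg_left e (by positivity)
      _ ≤ δ / 16 := d1
  · have e1 : (2 : ℝ) ^ (R * W) ≤ (32 / δ) ^ R * Real.exp (R * L) := by
      rw [mul_comm R W, pow_mul, ← hsR, ← mul_pow]
      refine pow_le_pow_left₀ (by positivity) (hW.trans (le_of_eq ?_)) R
      ring
    have e2 : Real.exp (-(B * L)) * Real.exp (R * L) ≤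
        Real.exp (-(10 * C1 * L)) * Real.exp (-L) := by
      rw [← Real.exp_add, ← Real.exp_add]
      refine Real.exp_le_exp.2 ?_
      rw [hB]
      nlinarith
    calc 2 * Real.exp (-(B * L)) * 2 ^ (R * W)
        ≤ 2 * Real.exp (-(B * L)) * ((32 / δ) ^ R * Real.exp (R * L)) :=
          mul_le_mul_of_nonneg_left e1 (by positivity)
      _ = 2 * (32 / δ) ^ R * (Real.exp (-(B * L)) * Real.exp (R * L)) := by ring
      _ ≤ 2 * (32 / δ) ^ R * (Real.exp (-(10 * C1 * L)) * Real.exp (-L)) :=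
          mul_le_mul_of_nonneg_left e2 (by positivity)
      _ = Real.exp (-(10 * C1 * L)) * (2 * (32 / δ) ^ R * Real.exp (-L)) := by ring
      _ ≤ Real.exp (-(10 * C1 * L)) * 1 := mul_le_mul_of_nonneg_left d2 (hp0 _).le
      _ = _ := mul_one _
  · have e : Real.exp (-(B * L)) * (s : ℝ) ^ 2 ≤ Real.exp (-L) := by
      rw [hsR, ← Real.exp_add]
      refine Real.exp_le_exp.2 ?_
      push_cast
      nlinarith
    calc 32 * Real.exp (-(B * L)) * 2 ^ l * (s : ℝ) ^ 2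
        = 32 * 2 ^ l * (Real.exp (-(B * L)) * (s : ℝ) ^ 2) := by ring
      _ ≤ 32 * 2 ^ l * Real.exp (-L) := mul_le_mul_of_nonneg_left e (by positivity)
      _ ≤ δ1 / 2 := d3
  · calc Real.exp (-(B * L)) * 2 ^ M ≤ Real.exp (-L) * 2 ^ M :=
          mul_le_mul_of_nonneg_right g1 (by positivity)
      _ = 2 ^ M * Real.exp (-L) := mul_comm _ _
      _ ≤ δ / 16 := d4
  · exact (mul_le_mul_of_nonneg_left g1 (by positivity)).trans d5
  · calc 2 * Real.exp (-(B * L)) * 2 ^ (l * M) = 2 * 2 ^ (l * M) * Real.exp (-(B * L)) := by ring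
      _ ≤ 2 * 2 ^ (l * M) * Real.exp (-L) := mul_le_mul_of_nonneg_left g1 (by positivity)
      _ ≤ 1 := d6
  · intro ε h hε0 hε hh
    have hsC : (s : ℝ) ^ (-C) = Real.exp (-(C * L)) := by
      rw [Real.rpow_def_of_pos hs0, ← hL]
      congr 1
      ring
    rw [hsC] at hε
    have hlog2 : Real.log 2 ≤ 1 := by
      have := Real.log_two_lt_d9
      linarith
    have hlog0 : 0 < Real.log 2 := Real.log_pos (by norm_num)
    have h2h : (2 : ℝ) ^ h ≤ Real.exp (A * L) := by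
      have e : (2 : ℝ) ^ h = Real.exp (h * Real.log 2) := by
        rw [Real.exp_nat_mul, Real.exp_log (by norm_num)]
      rw [e]
      refine Real.exp_le_exp.2 ?_
      have h0 : (0 : ℝ) ≤ h := Nat.cast_nonneg h
      nlinarith
    have hprod : ε * 2 ^ h ≤ Real.exp (-(B * L)) * (Real.exp (-L) * Real.exp (-L)) := by
      calc ε * 2 ^ h ≤ Real.exp (-(C * L)) * Real.exp (A * L) :=
            mul_le_mul hε h2h (by positivity) (hp0 _).le
        _ = Real.exp (-(B * L)) * (Real.exp (-L) * Real.exp (-L)) := by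
            rw [← Real.exp_add, ← Real.exp_add, ← Real.exp_add]
            congr 1
            rw [hCe, hB]
            ring
    have hL1 : Real.exp (-L) ≤ 1 := by
      rw [Real.exp_le_one_iff]
      linarith
    have hB1 : Real.exp (-(B * L)) ≤ 1 := g1.trans hL1
    refine ⟨?_, ?_, ?_⟩
    · rw [le_div_iff₀ (by positivity)]
      calc 2 * ε * 2 ^ h * (2 * 2 ^ (l * M)) ^ l = 2 * (2 * 2 ^ (l * M)) ^ l * (ε * 2 ^ h) := by ring
        _ ≤ 2 * (2 * 2 ^ (l * M)) ^ l * (Real.exp (-(B * L)) * (Real.exp (-L) * Real.exp (-L))) :=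
            mul_le_mul_of_nonneg_left hprod (by positivity)
        _ = (2 * (2 * 2 ^ (l * M)) ^ l * Real.exp (-L)) * (Real.exp (-(B * L)) * Real.exp (-L)) := by
            ring
        _ ≤ 1 * (Real.exp (-(B * L)) * 1) := by
            refine mul_le_mul d7 ?_ (by positivity) zero_le_one
            exact mul_le_mul_of_nonneg_left hL1 (hp0 _).le
        _ = _ := by ring
    · rw [mul_comm]
      refine hprod.trans ?_
      calc Real.exp (-(B * L)) * (Real.exp (-L) * Real.exp (-L)) ≤ 1 * (1 * Real.exp (-L)) := by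
            refine mul_le_mul hB1 ?_ (by positivity) zero_le_one
            exact mul_le_mul_of_nonneg_right hL1 (hp0 _).le
        _ ≤ δ / 32 := by linarith
    · calc (s : ℝ) * ε ≤ Real.exp L * Real.exp (-(C * L)) := by
            rw [hsL]
            exact mul_le_mul_of_nonneg_left hε (hp0 _).le
        _ ≤ Real.exp (-L) := by
            rw [← Real.exp_add]
            refine Real.exp_le_exp.2 ?_
            have : 2 ≤ C := by rw [hCe]; nlinarith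
            nlinarith
        _ ≤ δ / 32 := by linarith

end Pool.Agent.Work.MP_56168e_lc.AD
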