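import Mathlib
import Pool.Agent.Work.MP_56168e_lc.AD.Defs

set_option autoImplicit false

/-!
The choice of W.  PROOF.  W = ⌈log2 (16 s/δ)⌉: s (1/2)^W ≤ δ/16, 2^W ≤ 2 * 16 s/δ, W log 2 ≤ log (32 s/δ) =
log s + log (32/δ) ≤ 2 log s for s ≥ 32/δ, so W ≤ 3 log s.
-/

namespace Pool.Agent.Work.MP_56168e_lc.AD

open Finset Pool.Agent.Work.MP_56168e_lc

variable {n s : ℕ}

theorem num_W {δ : ℝ} (hδ : 0 < δ) (hδ1 : δ ≤ 1) : ∃ s0 : ℕ, ∀ s : ℕ, s0 ≤ s → ∃ W : ℕ, 1 ≤ W ∧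
    (s : ℝ) * (1 / 2) ^ W ≤ δ / 16 ∧ (2 : ℝ) ^ W ≤ 32 * s / δ ∧ (W : ℝ) ≤ 3 * Real.log s := by
  obtain ⟨s0, hs0⟩ := exists_nat_ge (32 / δ)
  refine ⟨s0, fun s hs => ?_⟩
  have h1 : 32 / δ ≤ (s : ℝ) := hs0.trans (by exact_mod_cast hs)
  have h2 : (32 : ℝ) ≤ 32 / δ := by
    rw [le_div_iff₀ hδ]
    linarith
  have hs1 : (32 : ℝ) ≤ s := h2.trans h1
  have hspos : (0 : ℝ) < s := by linarith
  obtain ⟨n, hn1, hn2⟩ := exists_nat_pow_near (x := 16 * (s : ℝ) / δ) (y := 2)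
    (by rw [le_div_iff₀ hδ]; linarith) one_lt_two
  have hx : (0 : ℝ) < 16 * (s : ℝ) / δ := by positivity
  have h3 : (2 : ℝ) ^ (n + 1) ≤ 32 * s / δ := by
    rw [pow_succ]
    calc (2 : ℝ) ^ n * 2 ≤ 16 * (s : ℝ) / δ * 2 := by linarith
      _ = 32 * s / δ := by ring
  refine ⟨n + 1, by omega, ?_, h3, ?_⟩
  · rw [one_div, inv_pow]
    have h4 : ((2 : ℝ) ^ (n + 1))⁻¹ ≤ (16 * (s : ℝ) / δ)⁻¹ := by
      exact inv_anti₀ hx hn2.le
    calc (s : ℝ) * ((2 : ℝ) ^ (n + 1))⁻¹ ≤ s * (16 * (s : ℝ) / δ)⁻¹ :=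
          mul_le_mul_of_nonneg_left h4 hspos.le
      _ = δ / 16 := by
          field_simp
  · have h5 : ((n + 1 : ℕ) : ℝ) * Real.log 2 ≤ 2 * Real.log s := by
      have h6 := Real.log_le_log (by positivity) h3
      rw [Real.log_pow] at h6
      have h7 : Real.log (32 * s / δ) = Real.log s + Real.log (32 / δ) := by
        rw [← Real.log_mul hspos.ne' (by positivity)]
        congr 1
        ring
      have h8 := Real.log_le_log (by positivity) h1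
      linarith
    have h9 := Real.log_two_gt_d9
    have h10 : (0 : ℝ) ≤ ((n + 1 : ℕ) : ℝ) := Nat.cast_nonneg _
    have h11 : ((n + 1 : ℕ) : ℝ) * (2 / 3) ≤ ((n + 1 : ℕ) : ℝ) * Real.log 2 :=
      mul_le_mul_of_nonneg_left (by linarith) h10
    linarith

end Pool.Agent.Work.MP_56168e_lc.AD
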