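import Mathlib
import Pool.Agent.Work.MP_56168e_lc.AD.Defs
import Pool.Agent.Work.MP_56168e_lc.AD.NumB1
import Pool.Agent.Work.MP_56168e_lc.AD.NumB2
import Pool.Agent.Work.MP_56168e_lc.AD.NumW
set_option autoImplicit false

/-!
All parameters for large s.
-/

namespace Pool.Agent.Work.MP_56168e_lc.AD

open Finset Pool.Agent.Work.MP_56168e_lc

variable {n s : ℕ}

theorem num_b (l M R : ℕ) {δ δ1 A C1 : ℝ} (hδ : 0 < δ) (hδ1 : δ ≤ 1) (hδ1' : 0 < δ1) (hA : 0 ≤ A)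
    (hC1 : 0 < C1) : ∃ C : ℝ, 0 < C ∧ ∃ s0 : ℕ, 3 ≤ s0 ∧ ∀ s : ℕ, s0 ≤ s →
    ∃ (W w wb : ℕ) (ε0 ε1 : ℝ), 1 ≤ w ∧
      (w : ℝ) ≤ Real.log s / Real.log (Real.log s) ^ 3 ∧
      Real.log s / Real.log (Real.log s) ^ 3 < w + 1 ∧
      wb + l + l * (l * M) ≤ w + 1 ∧ 0 ≤ ε0 ∧ 0 ≤ ε1 ∧ ε1 ≤ 1 ∧
      ε1 ≤ Real.exp (-(C1 * (Real.log (s + 1) + w * Real.log (w + 2) ^ 3))) ∧
      ((R : ℝ) + 1) * ((s : ℝ) ^ R * ε0) ≤ δ / 16 ∧ 2 * ε0 * 2 ^ (R * W) ≤ ε1 ∧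
      32 * ε0 * 2 ^ l * (s : ℝ) ^ 2 ≤ δ1 / 2 ∧ ε0 * 2 ^ M ≤ δ / 16 ∧
      2 ^ (l * M) * ε0 ≤ δ / (16 * (l + 1)) ∧ 2 * ε0 * 2 ^ (l * M) ≤ 1 ∧
      (2 * (W : ℝ) ^ 2 * cF l δ1) ^ (l + 1) ≤ 2 ^ wb / 2 ∧
      ((R * W : ℕ) : ℝ) ^ (l + 1) * 2 ^ (R * l) / 2 ^ wb ≤ 1 ∧
      (s : ℝ) * (1 / 2) ^ W ≤ δ / 16 ∧
      ∀ (ε : ℝ) (h : ℕ), 0 ≤ ε → ε ≤ (s : ℝ) ^ (-C) → (h : ℝ) ≤ A * Real.log s →
        2 * ε * 2 ^ h ≤ ε0 / (2 * 2 ^ (l * M)) ^ l ∧ 2 ^ h * ε ≤ δ / 32 ∧ s * ε ≤ δ / 32 := by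
  obtain ⟨s1, hs1, H1⟩ := num_b1 l M R hδ1'
  obtain ⟨C, hC, s2, hs2, H2⟩ := num_b2 l M R hδ hδ1 hδ1' hA hC1
  obtain ⟨s3, H3⟩ := num_W hδ hδ1
  refine ⟨C, hC, max (max s1 s2) s3, ?_, ?_⟩
  · omega
  intro s hs
  have h1 : s1 ≤ s := by omega
  have h2 : s2 ≤ s := by omega
  have h3 : s3 ≤ s := by omega
  obtain ⟨W, hW1, hW2, hW3, hW4⟩ := H3 s h3
  obtain ⟨w, wb, a1, a2, a3, a4, a5, a6, a7⟩ := H1 s W h1 hW4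
  obtain ⟨ε0, b1, b2, b3, b4, b5, b6, b7, b8⟩ := H2 s W h2 hW3
  have hs3 : (3 : ℝ) ≤ s := by
    have : 3 ≤ s := by omega
    exact_mod_cast this
  have hL : 0 < Real.log s := Real.log_pos (by linarith)
  have hlog : Real.log (s + 1) ≤ 2 * Real.log s := by
    have : Real.log ((s : ℝ) + 1) ≤ Real.log ((s : ℝ) ^ 2) :=
      Real.log_le_log (by linarith) (by nlinarith)
    rwa [Real.log_pow, Nat.cast_ofNat] at this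
  refine ⟨W, w, wb, ε0, Real.exp (-(10 * C1 * Real.log s)), a1, a2, a3, a4, b1,
    (Real.exp_pos _).le, ?_, ?_, b2, b3, b4, b5, b6, b7, a6, a7, hW2, b8⟩
  · rw [Real.exp_le_one_iff]
    have : 0 < 10 * C1 * Real.log s := by positivity
    linarith
  · apply Real.exp_le_exp.2
    have : C1 * (Real.log (s + 1) + w * Real.log (w + 2) ^ 3) ≤ C1 * (10 * Real.log s) :=
      mul_le_mul_of_nonneg_left (by linarith) hC1.le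
    linarith

end Pool.Agent.Work.MP_56168e_lc.AD
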