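import Mathlib
import Pool.Agent.Work.MP_56168e_lc.AD.Defs
import Pool.Agent.Work.MP_56168e_lc.OS.Ker
set_option autoImplicit false

/-!
Numbers for the short terms.  PROOF.  Q = ⌈57600/η⌉, a0 W = log2 W + 1 (OS/Ker or OS/Defs), so
ρ ≤ c (log (W+2)) with c = c(η); log ((13 W)^(ρ^2 W))^2 = 2 ρ^2 W log (13 W) ≤ c' W (log (W+2))^3
(log 13 ≤ 3 log (W+2) as W ≥ 1), log (s+1)^2 = 2 log (s+1), log (64/η) ≤ c'' W (log(W+2))^3 as W ≥ 1.
C = the sum of the constants.
-/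

namespace Pool.Agent.Work.MP_56168e_lc.AD

open Finset Pool.Agent.Work.MP_56168e_lc

variable {n s : ℕ}

open Pool.Agent.Work.MP_56168e_lc.OS in
private theorem wNum_L {W : ℕ} (hW : 1 ≤ W) : 1 ≤ Real.log ((W : ℝ) + 2) ∧
    (a0 W : ℝ) ≤ 3 * Real.log ((W : ℝ) + 2) ∧
    Real.log (13 * (W : ℝ)) ≤ 4 * Real.log ((W : ℝ) + 2) := by
  have hW1 : (1 : ℝ) ≤ W := by exact_mod_cast hW
  have h1 : 1 ≤ Real.log ((W : ℝ) + 2) := by
    rw [Real.le_log_iff_exp_le (by linarith)]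
    have := Real.exp_one_lt_d9
    linarith
  have hlog : Real.log (W : ℝ) ≤ Real.log ((W : ℝ) + 2) :=
    Real.log_le_log (by linarith) (by linarith)
  refine ⟨h1, ?_, ?_⟩
  · have h2 : (2 : ℝ) ^ (Nat.log 2 W) ≤ W := by
      exact_mod_cast Nat.pow_log_le_self 2 (by omega)
    have h3 := Real.log_le_log (by positivity) h2
    rw [Real.log_pow] at h3
    have h4 := Real.log_two_gt_d9
    have h5 : (0 : ℝ) ≤ (Nat.log 2 W : ℝ) := Nat.cast_nonneg _
    have h6 : (Nat.log 2 W : ℝ) ≤ 2 * Real.log ((W : ℝ) + 2) := by nlinarith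
    unfold a0
    push_cast
    linarith
  · rw [Real.log_mul (by norm_num) (by linarith)]
    have h2 : Real.log 13 ≤ 3 * Real.log ((W : ℝ) + 2) := by
      have h3 : (13 : ℝ) ≤ ((W : ℝ) + 2) ^ 3 := by
        have h4 : (3 : ℝ) ^ 3 ≤ ((W : ℝ) + 2) ^ 3 :=
          pow_le_pow_left₀ (by norm_num) (by linarith) 3
        linarith
      have h4 := Real.log_le_log (by norm_num) h3
      rw [Real.log_pow] at h4
      exact_mod_cast h4
    linarith

open Pool.Agent.Work.MP_56168e_lc.OS in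
theorem wnum {η : ℝ} (hη : 0 < η) (hη1 : η ≤ 1) : ∃ Q : ℕ, 1 ≤ Q ∧ 57600 / (Q : ℝ) ≤ η ∧
    ∃ C : ℝ, 0 < C ∧ ∀ (s W : ℕ) (ε : ℝ), 1 ≤ W → 0 ≤ ε →
      ε ≤ Real.exp (-(C * (Real.log (s + 1) + W * Real.log (W + 2) ^ 3))) →
      ((s : ℝ) + 1) ^ 2 *
        (ε * ((13 * (W : ℝ)) ^ ((8 * Q + 2 ^ 14 * a0 W) ^ 2 * W)) ^ 2) ≤ η / 64 := by
  obtain ⟨Q, hQ⟩ := exists_nat_ge (57600 / η)
  have hQ0 : (0 : ℝ) < Q := lt_of_lt_of_le (by positivity) hQ
  have hQ1 : 1 ≤ Q := by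
    have h1 : 0 < Q := by exact_mod_cast hQ0
    omega
  have hlη : 0 ≤ Real.log (64 / η) := by
    apply Real.log_nonneg
    rw [le_div_iff₀ hη]
    linarith
  refine ⟨Q, hQ1, ?_, 2 + 8 * (8 * Q + 49152) ^ 2 + Real.log (64 / η), by positivity, ?_⟩
  · rw [div_le_iff₀ hQ0]
    rw [div_le_iff₀ hη] at hQ
    linarith
  · intro s W ε hW hε hε2
    obtain ⟨hL1, ha, h13⟩ := wNum_L hW
    set L := Real.log ((W : ℝ) + 2) with hL
    have hW1 : (1 : ℝ) ≤ W := by exact_mod_cast hW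
    set N := (8 * Q + 2 ^ 14 * a0 W) ^ 2 * W with hN
    have h13' : (1 : ℝ) ≤ 13 * (W : ℝ) := by linarith
    have hX : ((13 * (W : ℝ)) ^ N) ^ 2 = Real.exp (2 * (N : ℝ) * Real.log (13 * (W : ℝ))) := by
      have h1 : 2 * (N : ℝ) * Real.log (13 * (W : ℝ)) =
          ((2 * N : ℕ) : ℝ) * Real.log (13 * (W : ℝ)) := by
        push_cast
        ring
      rw [h1, Real.exp_nat_mul, Real.exp_log (by linarith), ← pow_mul, mul_comm N 2]
    have hρ : (8 * (Q : ℝ) + 2 ^ 14 * (a0 W : ℝ)) ≤ (8 * Q + 49152) * L := by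
      have h1 : 8 * (Q : ℝ) ≤ 8 * Q * L := le_mul_of_one_le_right (by positivity) hL1
      have h2 : (2 : ℝ) ^ 14 * (a0 W : ℝ) ≤ 49152 * L := by
        norm_num
        linarith
      linarith
    have hNb : (N : ℝ) ≤ ((8 * Q + 49152) * L) ^ 2 * W := by
      rw [hN]
      push_cast
      refine mul_le_mul_of_nonneg_right ?_ (by linarith)
      have h1 := pow_le_pow_left₀ (by positivity) hρ 2
      norm_num at h1 ⊢
      exact h1
    have hlog13 : 0 ≤ Real.log (13 * (W : ℝ)) := Real.log_nonneg h13'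
    have hexp : 2 * (N : ℝ) * Real.log (13 * (W : ℝ)) ≤
        8 * (8 * Q + 49152) ^ 2 * (W * L ^ 3) := by
      have h1 : (N : ℝ) * Real.log (13 * (W : ℝ)) ≤
          (((8 * Q + 49152) * L) ^ 2 * W) * (4 * L) :=
        mul_le_mul hNb h13 hlog13 (by positivity)
      calc 2 * (N : ℝ) * Real.log (13 * (W : ℝ)) =
            2 * ((N : ℝ) * Real.log (13 * (W : ℝ))) := by ring
        _ ≤ 2 * ((((8 * Q + 49152) * L) ^ 2 * W) * (4 * L)) := by linarith
        _ = 8 * (8 * Q + 49152) ^ 2 * (W * L ^ 3) := by ring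
    have hWL : 1 ≤ (W : ℝ) * L ^ 3 := one_le_mul_of_one_le_of_one_le hW1 (one_le_pow₀ hL1)
    have hs : ((s : ℝ) + 1) ^ 2 = Real.exp (2 * Real.log ((s : ℝ) + 1)) := by
      have h1 : 2 * Real.log ((s : ℝ) + 1) = ((2 : ℕ) : ℝ) * Real.log ((s : ℝ) + 1) := by
        push_cast
        ring
      rw [h1, Real.exp_nat_mul, Real.exp_log (by positivity)]
    have hls : 0 ≤ Real.log ((s : ℝ) + 1) := by
      apply Real.log_nonneg
      have : (0 : ℝ) ≤ s := Nat.cast_nonneg s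
      linarith
    have hη64 : η / 64 = Real.exp (-Real.log (64 / η)) := by
      rw [Real.exp_neg, Real.exp_log (by positivity), inv_div]
    rw [hX, hs, hη64]
    calc Real.exp (2 * Real.log ((s : ℝ) + 1)) *
          (ε * Real.exp (2 * (N : ℝ) * Real.log (13 * (W : ℝ)))) ≤
        Real.exp (2 * Real.log ((s : ℝ) + 1)) *
          (Real.exp (-((2 + 8 * (8 * Q + 49152) ^ 2 + Real.log (64 / η)) *
            (Real.log ((s : ℝ) + 1) + W * L ^ 3))) *
            Real.exp (8 * (8 * Q + 49152) ^ 2 * (W * L ^ 3))) := by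
          refine mul_le_mul_of_nonneg_left ?_ (Real.exp_pos _).le
          exact mul_le_mul hε2 (Real.exp_le_exp.2 hexp) (Real.exp_pos _).le (Real.exp_pos _).le
      _ = Real.exp (2 * Real.log ((s : ℝ) + 1) +
          (-((2 + 8 * (8 * Q + 49152) ^ 2 + Real.log (64 / η)) *
            (Real.log ((s : ℝ) + 1) + W * L ^ 3)) + 8 * (8 * Q + 49152) ^ 2 * (W * L ^ 3))) := by
          rw [Real.exp_add, Real.exp_add]
      _ ≤ Real.exp (-Real.log (64 / η)) := by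
          apply Real.exp_le_exp.2
          have h1 : Real.log (64 / η) ≤ Real.log (64 / η) * (W * L ^ 3) :=
            le_mul_of_one_le_right hlη hWL
          have h2 : 0 ≤ (8 * (8 * (Q : ℝ) + 49152) ^ 2 + Real.log (64 / η)) *
              Real.log ((s : ℝ) + 1) := by positivity
          nlinarith

end Pool.Agent.Work.MP_56168e_lc.AD
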