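import Mathlib
import Pool.Agent.Work.MP_56168e_lc.AD.Defs
import Pool.Agent.Work.MP_56168e_lc.AD.WBoth
import Pool.Agent.Work.MP_56168e_lc.AD.WNum
set_option autoImplicit false

/-!
Short terms.  PROOF.  wnum, wboth.  For B ⊆ Fin s let T' : Fin B.card → PA n enumerate the terms of B
(B.orderEmbOfFin or B.equivFin); nz T B = 1 - dn T'; B.card ≤ s, so the condition hΓ for B.card follows
from the one for s (monotone in s).
-/

namespace Pool.Agent.Work.MP_56168e_lc.AD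

open Finset Pool.Agent.Work.MP_56168e_lc

variable {n s : ℕ}

theorem wfool {η : ℝ} (hη : 0 < η) (hη1 : η ≤ 1) : ∃ C : ℝ, 0 < C ∧ ∀ (s w : ℕ) (ε : ℝ), 1 ≤ w →
    0 ≤ ε → ε ≤ Real.exp (-(C * (Real.log (s + 1) + w * Real.log (w + 2) ^ 3))) → WF s w η ε := by
  obtain ⟨Q, hQ1, hQ, C, hC, hnum⟩ := wnum hη hη1
  refine ⟨C, hC, fun s w ε hw hε hεC => ?_⟩
  intro n T B φ hB hφ
  classical
  let T' : Fin B.card → PA n := fun k => T (B.equivFin.symm k).1
  have hc : B.card ≤ s := by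
    have h := Finset.card_le_univ B
    rwa [Fintype.card_fin] at h
  have hW : ∀ k, (dom (T' k)).card ≤ w := fun k => hB _ (B.equivFin.symm k).2
  have hΓ : ((B.card : ℝ) + 1) ^ 2 * (ε * ((13 * (w : ℝ)) ^
      ((8 * Q + 2 ^ 14 * Pool.Agent.Work.MP_56168e_lc.OS.a0 w) ^ 2 * w)) ^ 2) ≤ η / 64 := by
    refine le_trans (mul_le_mul_of_nonneg_right ?_ (mul_nonneg hε (sq_nonneg _)))
      (hnum s w ε hw hε hεC)
    have h1 : (B.card : ℝ) ≤ s := by exact_mod_cast hc
    exact pow_le_pow_left₀ (by positivity) (by linarith) 2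
  have h1 := wboth T' hw hQ1 hW hη hη1 hQ rfl hε hΓ hφ
  have h2 : ∀ x, nz T B x = 1 - Pool.Agent.Work.MP_56168e_lc.OS.dn T' x := by
    intro x
    have key : (∃ i ∈ B, Sat (T i) x) ↔ ∃ k, Sat (T' k) x := by
      constructor
      · rintro ⟨i, hi, h⟩
        refine ⟨B.equivFin ⟨i, hi⟩, ?_⟩
        show Sat (T (B.equivFin.symm (B.equivFin ⟨i, hi⟩)).1) x
        rw [Equiv.symm_apply_apply]
        exact h
      · rintro ⟨k, h⟩
        exact ⟨_, (B.equivFin.symm k).2, h⟩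
    unfold nz Pool.Agent.Work.MP_56168e_lc.OS.dn
    by_cases h : ∃ i ∈ B, Sat (T i) x
    · rw [if_pos h, if_pos (key.1 h)]
      norm_num
    · rw [if_neg h, if_neg fun h' => h (key.2 h')]
      norm_num
  have h3 : nz T B = fun x => 1 - Pool.Agent.Work.MP_56168e_lc.OS.dn T' x := funext h2
  rw [h3, pe_sub, ex_sub, pe_const hφ, ex_const]
  have h4 : 1 - pe φ (fun x => Pool.Agent.Work.MP_56168e_lc.OS.dn T' x) -
      (1 - ex (fun x => Pool.Agent.Work.MP_56168e_lc.OS.dn T' x)) =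
      -(pe φ (Pool.Agent.Work.MP_56168e_lc.OS.dn T') -
        ex (Pool.Agent.Work.MP_56168e_lc.OS.dn T')) := by ring
  rw [h4, abs_neg]
  linarith

end Pool.Agent.Work.MP_56168e_lc.AD
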