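import Mathlib
import Pool.Agent.Work.MP_56168e_lc.AD.Defs

set_option autoImplicit false

/-!
Restriction of a family by σ.  PROOF.  nz_rf: Sat (T i) (ow σ x) iff not Fal (T i) σ and
Sat (rt σ (T i)) x (sat_ow_iff in RlF), unfold nz.  dom (rt σ (T i)) = dom (T i) \ dom σ (dom_rt in RlF);
cardinalities.  des_rf: the intersection of the two domains only gets smaller.
nz_link: if some i in ext T A U has Sat (rt U (T i)) x then T i is satisfied by ow U x (T i agrees with
U on dom U because it extends U), so if the left side is 1 then so is the right side.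
des_link: as des_rf.  dd_mono: sub-sum of nonnegative numbers.
-/

namespace Pool.Agent.Work.MP_56168e_lc.AD

open Finset Pool.Agent.Work.MP_56168e_lc

variable {n s : ℕ}

theorem nz_rf (σ : PA n) (T : Fin s → PA n) (A : Finset (Fin s)) (x : Cube n) :
    nz T A (ow σ x) = nz (rf σ T) (al σ T A) x := by
  classical
  have key : (∃ i ∈ A, Sat (T i) (ow σ x)) ↔ ∃ i ∈ al σ T A, Sat (rf σ T i) x := by
    constructor
    · rintro ⟨i, hi, h⟩
      obtain ⟨h1, h2⟩ := (sat_ow_iff σ (T i) x).1 h
      exact ⟨i, Finset.mem_filter.2 ⟨hi, h1⟩, h2⟩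
    · rintro ⟨i, hi, h⟩
      obtain ⟨h1, h2⟩ := Finset.mem_filter.1 hi
      exact ⟨i, h1, (sat_ow_iff σ (T i) x).2 ⟨h2, h⟩⟩
  unfold nz
  by_cases h : ∃ i ∈ A, Sat (T i) (ow σ x)
  · rw [if_pos h, if_pos (key.1 h)]
  · rw [if_neg h, if_neg fun h' => h (key.2 h')]

theorem two_rf (σ : PA n) (T : Fin s → PA n) (B A : Finset (Fin s)) (x : Cube n) :
    two T B A (ow σ x) = two (rf σ T) (al σ T B) (al σ T A) x := by
  unfold two
  rw [nz_rf, nz_rf]

theorem dom_rf_le (σ : PA n) (T : Fin s → PA n) (i : Fin s) :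
    (dom (rf σ T i)).card ≤ (dom (T i)).card := by
  unfold rf
  rw [dom_rt]
  exact Finset.card_le_card Finset.sdiff_subset

theorem le_dom_rf (σ : PA n) (T : Fin s → PA n) (i : Fin s) :
    (dom (T i)).card ≤ (dom (rf σ T i)).card + (dom σ).card := by
  unfold rf
  rw [dom_rt]
  exact Finset.card_le_card_sdiff_add_card

theorem des_rf {T : Fin s → PA n} {A : Finset (Fin s)} {l : ℕ} (h : Des T A l) (σ : PA n) :
    Des (rf σ T) (al σ T A) l := by
  classical
  intro i hi j hj hij
  refine (Finset.card_le_card ?_).trans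
    (h i (Finset.mem_filter.1 hi).1 j (Finset.mem_filter.1 hj).1 hij)
  unfold rf
  rw [dom_rt, dom_rt]
  exact Finset.inter_subset_inter Finset.sdiff_subset Finset.sdiff_subset

theorem des_link {T : Fin s → PA n} {A : Finset (Fin s)} {l : ℕ} (h : Des T A l) (U : PA n) :
    Des (rf U T) (ext T A U) l := by
  classical
  intro i hi j hj hij
  refine (Finset.card_le_card ?_).trans
    (h i (Finset.mem_filter.1 hi).1 j (Finset.mem_filter.1 hj).1 hij)
  unfold rf
  rw [dom_rt, dom_rt]
  exact Finset.inter_subset_inter Finset.sdiff_subset Finset.sdiff_subset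

theorem nz_link (T : Fin s → PA n) (A : Finset (Fin s)) (U : PA n) (x : Cube n) :
    nz T A (ow U x) ≤ nz (rf U T) (ext T A U) x := by
  classical
  by_cases h : ∃ i ∈ ext T A U, Sat (rf U T i) x
  · obtain ⟨i, hi, hs⟩ := h
    obtain ⟨hiA, hiE⟩ := Finset.mem_filter.1 hi
    have hF : ¬ Fal (T i) U := by
      rintro ⟨v, b, b', h1, h2, h3⟩
      have h4 := hiE v b' h2
      rw [h1] at h4
      exact h3 (Option.some.inj h4)
    have h5 : ∃ i ∈ A, Sat (T i) (ow U x) := ⟨i, hiA, (sat_ow_iff U (T i) x).2 ⟨hF, hs⟩⟩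
    have h6 : nz T A (ow U x) = 0 := by
      unfold nz
      rw [if_pos h5]
    rw [h6]
    exact nz_nonneg _ _ _
  · have h6 : nz (rf U T) (ext T A U) x = 1 := by
      unfold nz
      rw [if_neg h]
    rw [h6]
    exact nz_le_one _ _ _

theorem des_mono {T : Fin s → PA n} {A A' : Finset (Fin s)} {l : ℕ} (h : Des T A l)
    (hA : A' ⊆ A) : Des T A' l := by
  exact fun i hi j hj hij => h i (hA hi) j (hA hj) hij

theorem dd_mono (T : Fin s → PA n) {A A' : Finset (Fin s)} (hA : A' ⊆ A) (U : PA n) :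
    dd T A' U ≤ dd T A U := by
  classical
  unfold dd ext
  exact Finset.sum_le_sum_of_subset_of_nonneg (Finset.filter_subset_filter _ hA)
    fun i _ _ => (pw_pos _).le

end Pool.Agent.Work.MP_56168e_lc.AD
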