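import Mathlib
import Pool.Agent.Work.MP_56168e_lc.AD.Defs
import Pool.Agent.Work.MP_56168e_lc.AD.Res
import Pool.Agent.Work.MP_56168e_lc.Cond
import Pool.Agent.Work.MP_56168e_lc.TiF
set_option autoImplicit false

/-!
Conditioning on the variables of V.  PROOF.  Exactly as lowH in Work/MP_56168e_lc/LowH.lean (copy its
private lemmas aP, dom_aP, sat_aP, ti_aP_symm, ex_comm, split_pe): split over the assignments σ = aP V y;
cond gives φ' with Dens (2 ε 2^|V|) φ' (mono to ε'), pe φ (ti σ * two T B A) = pe φ (ti σ) *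
pe φ' (two (rf σ T) (al σ T B) (al σ T A)) (two_rf), the same for ex with pw σ = (1/2)^|V|,
|pe φ (ti σ) - pw σ| ≤ ε, 0 ≤ two ≤ 1.  Sum over the 2^|V| assignments: ≤ E + 2^|V| ε.
-/

namespace Pool.Agent.Work.MP_56168e_lc.AD

open Finset Pool.Agent.Work.MP_56168e_lc

variable {n s : ℕ}

/-- the assignment of the variables of `H` given by `y` -/
private def aP (H : Finset (Fin n)) (y : Cube n) : PA n := fun i => if i ∈ H then some (y i) else none

private lemma dom_aP (H : Finset (Fin n)) (y : Cube n) : dom (aP H y) = H := by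
  ext i
  rw [mem_dom]
  unfold aP
  by_cases h : i ∈ H <;> simp [h]

private lemma sat_aP (H : Finset (Fin n)) (x y : Cube n) :
    Sat (aP H y) x ↔ ∀ i ∈ H, x i = y i := by
  unfold Sat aP
  constructor
  · intro h i hi
    exact h i (y i) (by simp [hi])
  · intro h i b hb
    by_cases hi : i ∈ H
    · simp only [hi, if_true, Option.some.injEq] at hb
      rw [h i hi, hb]
    · simp [hi] at hb

private lemma ti_aP_symm (H : Finset (Fin n)) (x y : Cube n) :
    ti (aP H y) x = ti (aP H x) y := by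
  unfold ti
  have : Sat (aP H y) x ↔ Sat (aP H x) y := by
    rw [sat_aP, sat_aP]
    exact ⟨fun h i hi => (h i hi).symm, fun h i hi => (h i hi).symm⟩
  by_cases h : Sat (aP H y) x
  · rw [if_pos h, if_pos (this.mp h)]
  · rw [if_neg h, if_neg fun h' => h (this.mpr h')]

private lemma ex_comm (F : Cube n → Cube n → ℝ) :
    ex (fun y => ex (fun x => F x y)) = ex (fun x => ex (fun y => F x y)) := by
  unfold ex
  rw [← sum_div, ← sum_div, sum_comm]

private lemma split_pe (φ g : Cube n → ℝ) (H : Finset (Fin n)) :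
    pe φ g = 2 ^ H.card * ex (fun y => pe φ (fun x => ti (aP H y) x * g x)) := by
  unfold pe
  rw [ex_comm (fun x y => φ x * (ti (aP H y) x * g x)), ← ex_smul]
  refine ex_congr fun x => ?_
  have h1 : ex (fun y => φ x * (ti (aP H y) x * g x)) = (φ x * g x) * pw (aP H x) := by
    rw [← ex_ti, ← ex_smul]
    refine ex_congr fun y => ?_
    rw [ti_aP_symm]
    ring
  rw [h1]
  unfold pw
  rw [dom_aP]
  have h2 : (2 : ℝ) ^ H.card * (1 / 2) ^ H.card = 1 := by
    rw [← mul_pow]
    norm_num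
  calc φ x * g x = (φ x * g x) * ((2 : ℝ) ^ H.card * (1 / 2) ^ H.card) := by rw [h2, mul_one]
    _ = _ := by ring

private lemma two_nn (T : Fin s → PA n) (B A : Finset (Fin s)) (x : Cube n) : 0 ≤ two T B A x :=
  mul_nonneg (nz_nonneg _ _ _) (nz_nonneg _ _ _)

private lemma two_le (T : Fin s → PA n) (B A : Finset (Fin s)) (x : Cube n) : two T B A x ≤ 1 := by
  have h := mul_le_mul (nz_le_one T B x) (nz_le_one T A x) (nz_nonneg _ _ _) zero_le_one
  rwa [one_mul] at h

theorem cond_v (T : Fin s → PA n) (B A : Finset (Fin s)) (V : Finset (Fin n)) {ε ε' E : ℝ}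
    (hε : 0 ≤ ε) (hε' : 2 * ε * 2 ^ V.card ≤ ε') (hε'1 : ε' ≤ 1) (hE : 0 ≤ E)
    (H : ∀ σ : PA n, dom σ = V → ∀ ψ : Cube n → ℝ, Dens ε' ψ →
      |pe ψ (two (rf σ T) (al σ T B) (al σ T A)) - ex (two (rf σ T) (al σ T B) (al σ T A))| ≤ E)
    {φ : Cube n → ℝ} (hφ : Dens ε φ) :
    |pe φ (two T B A) - ex (two T B A)| ≤ E + 2 ^ V.card * ε := by
  classical
  have hpw : ∀ y : Cube n, pw (aP V y) = (1 / 2) ^ V.card := by
    intro y
    unfold pw
    rw [dom_aP]
  have h2pos : (0 : ℝ) < 2 ^ V.card := by positivity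
  have h12 : (2 : ℝ) ^ V.card * (1 / 2) ^ V.card = 1 := by
    rw [← mul_pow]
    norm_num
  have hε2 : ∀ y : Cube n, 2 * ε ≤ pw (aP V y) := by
    intro y
    rw [hpw]
    have h1 : (2 * ε) * 2 ^ V.card ≤ 1 := hε'.trans hε'1
    have h3 : (1 / 2 : ℝ) ^ V.card = 1 / 2 ^ V.card := by rw [one_div, inv_pow, one_div]
    rw [h3, le_div_iff₀ h2pos]
    exact h1
  -- each assignment
  have hone : ∀ y : Cube n,
      |pe φ (fun x => ti (aP V y) x * two T B A x) - ex (fun x => ti (aP V y) x * two T B A x)|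
        ≤ ε + (1 / 2) ^ V.card * E := by
    intro y
    obtain ⟨φ', hφ', hc⟩ := cond hφ hε (aP V y) (hε2 y)
    rw [dom_aP] at hφ'
    have e1 : (fun x => two T B A (ow (aP V y) x)) =
        two (rf (aP V y) T) (al (aP V y) T B) (al (aP V y) T A) :=
      funext (two_rf (aP V y) T B A)
    rw [hc, ex_ti_mul, e1, hpw]
    have h1 := H (aP V y) (dom_aP V y) φ' (hφ'.mono hε')
    have h3 := fool hφ hε (ti (aP V y))
    rw [ex_ti, hpw] at h3
    have h4 : ε * nrm (ti (aP V y)) ≤ ε := by
      have := mul_le_mul_of_nonneg_left (nrm_ti (aP V y)) hε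
      linarith
    have h5 := h3.trans h4
    have ha0 : 0 ≤ pe φ' (two (rf (aP V y) T) (al (aP V y) T B) (al (aP V y) T A)) :=
      pe_nonneg hφ' fun x => two_nn _ _ _ x
    have ha1 : pe φ' (two (rf (aP V y) T) (al (aP V y) T B) (al (aP V y) T A)) ≤ 1 := by
      have := pe_mono hφ' (g := two (rf (aP V y) T) (al (aP V y) T B) (al (aP V y) T A))
        (h := fun _ => 1) fun x => two_le _ _ _ x
      rwa [pe_const hφ'] at this
    generalize pe φ' (two (rf (aP V y) T) (al (aP V y) T B) (al (aP V y) T A)) = a at h1 ha0 ha1 ⊢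
    generalize ex (two (rf (aP V y) T) (al (aP V y) T B) (al (aP V y) T A)) = b at h1 ⊢
    generalize pe φ (ti (aP V y)) = u at h5 ⊢
    have e2 : u * a - (1 / 2) ^ V.card * b
        = (u - (1 / 2) ^ V.card) * a + (1 / 2) ^ V.card * (a - b) := by ring
    rw [e2]
    refine (abs_add_le _ _).trans ?_
    rw [abs_mul, abs_mul, abs_of_nonneg ha0,
      abs_of_nonneg (by positivity : (0 : ℝ) ≤ (1 / 2) ^ V.card)]
    have h6 : |u - (1 / 2) ^ V.card| * a ≤ ε * 1 :=
      mul_le_mul h5 ha1 ha0 hε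
    have h7 : (1 / 2 : ℝ) ^ V.card * |a - b| ≤ (1 / 2) ^ V.card * E :=
      mul_le_mul_of_nonneg_left h1 (by positivity)
    linarith
  have e3 : pe φ (two T B A) - ex (two T B A)
      = 2 ^ V.card * ex (fun y => pe φ (fun x => ti (aP V y) x * two T B A x)
        - ex (fun x => ti (aP V y) x * two T B A x)) := by
    have h1 := split_pe φ (two T B A) V
    have h2 := split_pe (fun _ => 1) (two T B A) V
    simp only [pe_one] at h2
    rw [h1, h2, ex_sub]
    ring
  rw [e3, abs_mul, abs_of_pos h2pos]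
  have h8 : |ex (fun y => pe φ (fun x => ti (aP V y) x * two T B A x)
        - ex (fun x => ti (aP V y) x * two T B A x))| ≤ ε + (1 / 2) ^ V.card * E := by
    rw [abs_le]
    constructor
    · have := ex_mono (g := fun _ : Cube n => -(ε + (1 / 2) ^ V.card * E))
        (h := fun y => pe φ (fun x => ti (aP V y) x * two T B A x)
        - ex (fun x => ti (aP V y) x * two T B A x)) fun y => (abs_le.mp (hone y)).1
      rwa [ex_const] at this
    · have := ex_mono (h := fun _ : Cube n => (ε + (1 / 2) ^ V.card * E))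
        (g := fun y => pe φ (fun x => ti (aP V y) x * two T B A x)
        - ex (fun x => ti (aP V y) x * two T B A x)) fun y => (abs_le.mp (hone y)).2
      rwa [ex_const] at this
  have _ := hE
  calc (2 : ℝ) ^ V.card * _ ≤ 2 ^ V.card * (ε + (1 / 2) ^ V.card * E) :=
        mul_le_mul_of_nonneg_left h8 h2pos.le
    _ = ((2 : ℝ) ^ V.card * (1 / 2) ^ V.card) * E + 2 ^ V.card * ε := by ring
    _ = E + 2 ^ V.card * ε := by rw [h12, one_mul]

end Pool.Agent.Work.MP_56168e_lc.AD
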