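import Mathlib
import Pool.Agent.Work.MP_56168e_lc.AD.Defs

set_option autoImplicit false

/-!
PROOF.  dd_le_one: if two different i, j in A both extend U then dom U is contained in
dom (T i) ∩ dom (T j), so (dom U).card ≤ l.  Hence ext T A U has at most one element and dd is 0 or one
value pw ≤ 1 (pw_le_one).  dd_empty: for the empty partial assignment ext T A _ = A and rt _ P = P.
sub_mass: remove elements of A one by one while the mass stays at least K (induction on A, or take a
subset A' of minimal cardinality with K ≤ mass T A'; if mass T A' > K + 1, remove any element, its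
weight is ≤ 1; A' is nonempty then because mass > 0).
-/

namespace Pool.Agent.Work.MP_56168e_lc.AD

open Finset Pool.Agent.Work.MP_56168e_lc

variable {n s : ℕ}

private theorem do_pw_pos (P : PA n) : 0 < pw P := by
  unfold pw
  positivity

private theorem do_pw_le (P : PA n) : pw P ≤ 1 := by
  unfold pw
  exact pow_le_one₀ (by norm_num) (by norm_num)

private theorem do_dom_sub {U P : PA n} (h : Ext U P) : dom U ⊆ dom P := by
  intro v hv
  have h1 : U v ≠ none := (Finset.mem_filter.1 hv).2
  obtain ⟨b, hb⟩ := Option.ne_none_iff_exists'.1 h1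
  refine Finset.mem_filter.2 ⟨Finset.mem_univ _, ?_⟩
  rw [h v b hb]
  exact Option.some_ne_none b

theorem dd_nonneg (T : Fin s → PA n) (A : Finset (Fin s)) (U : PA n) : 0 ≤ dd T A U := by
  exact Finset.sum_nonneg fun i _ => (do_pw_pos _).le

theorem mass_nonneg (T : Fin s → PA n) (A : Finset (Fin s)) : 0 ≤ mass T A := by
  exact Finset.sum_nonneg fun i _ => (do_pw_pos _).le

theorem mass_mono (T : Fin s → PA n) {A A' : Finset (Fin s)} (h : A' ⊆ A) :
    mass T A' ≤ mass T A := by
  exact Finset.sum_le_sum_of_subset_of_nonneg h fun i _ _ => (do_pw_pos _).le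

theorem dd_le_one {T : Fin s → PA n} {A : Finset (Fin s)} {l : ℕ} (h : Des T A l) {U : PA n}
    (hU : l < (dom U).card) : dd T A U ≤ 1 := by
  have hc : (ext T A U).card ≤ 1 := by
    rw [Finset.card_le_one]
    intro i hi j hj
    by_contra hij
    have h1 : i ∈ A ∧ Ext U (T i) := by
      classical
      unfold ext at hi
      exact Finset.mem_filter.1 hi
    have h2 : j ∈ A ∧ Ext U (T j) := by
      classical
      unfold ext at hj
      exact Finset.mem_filter.1 hj
    have h3 := h i h1.1 j h2.1 hij
    have h4 : dom U ⊆ dom (T i) ∩ dom (T j) :=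
      Finset.subset_inter (do_dom_sub h1.2) (do_dom_sub h2.2)
    have h5 := Finset.card_le_card h4
    omega
  unfold dd
  calc ∑ i ∈ ext T A U, pw (rt U (T i)) ≤ ∑ i ∈ ext T A U, (1 : ℝ) :=
        Finset.sum_le_sum fun i _ => do_pw_le _
    _ = ((ext T A U).card : ℝ) := by simp
    _ ≤ 1 := by exact_mod_cast hc

theorem dd_empty (T : Fin s → PA n) (A : Finset (Fin s)) : dd T A (fun _ => none) = mass T A := by
  have h1 : ext T A (fun _ => none) = A := by
    classical
    unfold ext
    refine Finset.filter_true_of_mem fun i _ => ?_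
    intro v b hb
    exact absurd hb (by simp)
  unfold dd mass
  rw [h1]
  refine Finset.sum_congr rfl fun i _ => ?_
  have h2 : rt (fun _ => none) (T i) = T i := by
    funext v
    simp [rt]
  rw [h2]

theorem sub_mass (T : Fin s → PA n) (A : Finset (Fin s)) {K : ℝ} (hK : 0 ≤ K)
    (h : K ≤ mass T A) : ∃ A' ⊆ A, K ≤ mass T A' ∧ mass T A' ≤ K + 1 := by
  classical
  induction A using Finset.induction_on with
  | empty =>
    refine ⟨∅, Finset.Subset.refl _, h, ?_⟩
    have h1 : mass T ∅ = 0 := by simp [mass]
    rw [h1]
    linarith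
  | insert a A ha ih =>
    by_cases hA : K ≤ mass T A
    · obtain ⟨A', h1, h2, h3⟩ := ih hA
      exact ⟨A', h1.trans (Finset.subset_insert a A), h2, h3⟩
    · refine ⟨insert a A, Finset.Subset.refl _, h, ?_⟩
      have h1 : mass T (insert a A) = pw (T a) + mass T A := by
        unfold mass
        rw [Finset.sum_insert ha]
      rw [h1]
      have h2 := do_pw_le (T a)
      push Not at hA
      linarith

end Pool.Agent.Work.MP_56168e_lc.AD
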