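import Mathlib
import Pool.Agent.Work.MP_56168e_lc.AD.Defs

set_option autoImplicit false

/-!
The heaviness after conditioning.  PROOF.  Let U have r - 1 < |dom U|, i.e. r ≤ |dom U|.  If dom U meets V
then no rt σ (T i) extends U (it is none on V = dom σ) and the sum is empty.  Otherwise, for
i in ext (rf σ T) (al σ T A) U put V' = dom (T i) ∩ V; as T i does not contradict σ, T i agrees with σ on
V', so T i extends U' = un U (rs V' σ), and rt U (rt σ (T i)) = rt U' (T i) up to the variables: their
domains are both dom (T i) \ dom U \ V, so the weights pw are equal.  Group the i by V' ⊆ V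
(sum_fiberwise over V.powerset): the group of V' contributes at most dd T A (un U (rs V' σ)).
V' empty: un U (rs ∅ σ) = U: at most K (if |dom U| = r by hV, if |dom U| > r by hst and Λ ≤ K).
V' nonempty: the domain dom U ∪ V' (disjoint union) has more than r elements: at most Λ (hst).
Total ≤ K + 2^|V| Λ.
-/

namespace Pool.Agent.Work.MP_56168e_lc.AD

open Finset Pool.Agent.Work.MP_56168e_lc

variable {n s : ℕ}

private lemma mem_ext_dc {T : Fin s → PA n} {A : Finset (Fin s)} {U : PA n} {i : Fin s} :
    i ∈ ext T A U ↔ i ∈ A ∧ Ext U (T i) := by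
  classical
  unfold ext
  rw [Finset.mem_filter]

private lemma mem_al_dc {T : Fin s → PA n} {A : Finset (Fin s)} {σ : PA n} {i : Fin s} :
    i ∈ al σ T A ↔ i ∈ A ∧ ¬ Fal (T i) σ := by
  classical
  unfold al
  rw [Finset.mem_filter]

private lemma dom_un_rs_dc {U σ : PA n} {V' : Finset (Fin n)} (h : V' ⊆ dom σ) :
    dom (un U (rs V' σ)) = dom U ∪ V' := by
  ext v
  rw [mem_union, mem_dom, mem_dom]
  unfold un rs
  by_cases hU : U v = none
  · rw [if_pos hU]
    by_cases hv : v ∈ V'
    · rw [if_pos hv]
      have := (mem_dom σ v).1 (h hv)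
      simp [hv, this]
    · rw [if_neg hv]
      simp [hU, hv]
  · rw [if_neg hU]
    simp [hU]

private lemma un_empty_dc (U σ : PA n) : un U (rs ∅ σ) = U := by
  funext v
  unfold un rs
  by_cases hU : U v = none
  · rw [if_pos hU, hU]
    simp
  · rw [if_neg hU]

theorem dd_cond {T : Fin s → PA n} {A : Finset (Fin s)} {r : ℕ} {Λ K : ℝ} (hΛ : 0 ≤ Λ)
    (hK : Λ ≤ K) (hr : 1 ≤ r) (hst : St T A r Λ) (V : Finset (Fin n))
    (hV : ∀ U : PA n, (dom U).card = r → Disjoint (dom U) V → dd T A U ≤ K) {σ : PA n}
    (hσ : dom σ = V) : St (rf σ T) (al σ T A) (r - 1) (K + 2 ^ V.card * Λ) := by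
  classical
  intro U hU
  have hrU : r ≤ (dom U).card := by omega
  have hK0 : 0 ≤ K := hΛ.trans hK
  by_cases hdis : Disjoint (dom U) V
  swap
  · have hemp : ext (rf σ T) (al σ T A) U = ∅ := by
      rw [Finset.eq_empty_iff_forall_notMem]
      intro i hi
      rw [mem_ext_dc] at hi
      rw [Finset.not_disjoint_iff] at hdis
      obtain ⟨v, hv1, hv2⟩ := hdis
      rw [mem_dom] at hv1
      obtain ⟨b, hb⟩ := Option.ne_none_iff_exists'.1 hv1
      have h1 := hi.2 v b hb
      have h2 : σ v ≠ none := (mem_dom σ v).1 (by rw [hσ]; exact hv2)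
      unfold rf rt at h1
      rw [if_neg h2] at h1
      exact absurd h1 (by simp)
    unfold dd
    rw [hemp, Finset.sum_empty]
    positivity
  have hmaps : ∀ i ∈ ext (rf σ T) (al σ T A) U, dom (T i) ∩ V ∈ V.powerset := by
    intro i _
    exact Finset.mem_powerset.2 Finset.inter_subset_right
  have hgroup : ∀ V' ∈ V.powerset,
      ∑ i ∈ (ext (rf σ T) (al σ T A) U).filter (fun i => dom (T i) ∩ V = V'),
        pw (rt U (rf σ T i)) ≤ (if V' = ∅ then K else Λ) := by
    intro V' hV'
    have hVs : V' ⊆ dom σ := by rw [hσ]; exact Finset.mem_powerset.1 hV'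
    have h1 : ∑ i ∈ (ext (rf σ T) (al σ T A) U).filter (fun i => dom (T i) ∩ V = V'),
        pw (rt U (rf σ T i)) ≤ dd T A (un U (rs V' σ)) := by
      have h2 : ∀ i ∈ (ext (rf σ T) (al σ T A) U).filter (fun i => dom (T i) ∩ V = V'),
          pw (rt U (rf σ T i)) = pw (rt (un U (rs V' σ)) (T i)) := by
        intro i hi
        rw [Finset.mem_filter] at hi
        unfold pw
        congr 2
        unfold rf
        rw [dom_rt, dom_rt, dom_rt, dom_un_rs_dc hVs, hσ, ← hi.2]
        ext v
        simp only [Finset.mem_sdiff, Finset.mem_union, Finset.mem_inter]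
        tauto
      rw [Finset.sum_congr rfl h2]
      unfold dd
      refine Finset.sum_le_sum_of_subset_of_nonneg ?_ (fun i _ _ => (pw_pos _).le)
      intro i hi
      rw [Finset.mem_filter, mem_ext_dc, mem_al_dc] at hi
      obtain ⟨⟨⟨hiA, hiF⟩, hiE⟩, hiV⟩ := hi
      rw [mem_ext_dc]
      refine ⟨hiA, ?_⟩
      intro v b hvb
      unfold un at hvb
      by_cases hUv : U v = none
      · rw [if_pos hUv] at hvb
        unfold rs at hvb
        by_cases hv : v ∈ V'
        · rw [if_pos hv] at hvb
          rw [← hiV, Finset.mem_inter, mem_dom] at hv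
          obtain ⟨b', hb'⟩ := Option.ne_none_iff_exists'.1 hv.1
          rw [hb']
          by_contra hne
          apply hiF
          refine ⟨v, b', b, hb', hvb, ?_⟩
          intro hbb
          exact hne (by rw [hbb])
        · rw [if_neg hv] at hvb
          exact absurd hvb (by simp)
      · rw [if_neg hUv] at hvb
        have h3 := hiE v b hvb
        unfold rf rt at h3
        by_cases hs : σ v = none
        · rw [if_pos hs] at h3
          exact h3
        · rw [if_neg hs] at h3
          exact absurd h3 (by simp)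
    refine h1.trans ?_
    by_cases hemp : V' = ∅
    · rw [if_pos hemp, hemp, un_empty_dc]
      rcases Nat.lt_or_ge r (dom U).card with h3 | h3
      · exact (hst U h3).trans hK
      · exact hV U (le_antisymm h3 hrU) hdis
    · rw [if_neg hemp]
      apply hst
      rw [dom_un_rs_dc hVs, Finset.card_union_of_disjoint
        (hdis.mono_right (by rw [← hσ]; exact hVs))]
      have h4 : 0 < V'.card := Finset.card_pos.2 (Finset.nonempty_iff_ne_empty.2 hemp)
      omega
  have hsum : dd (rf σ T) (al σ T A) U ≤ ∑ V' ∈ V.powerset, (if V' = ∅ then K else Λ) := by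
    unfold dd
    rw [← Finset.sum_fiberwise_of_maps_to hmaps]
    exact Finset.sum_le_sum hgroup
  refine hsum.trans ?_
  rw [← Finset.insert_erase (Finset.empty_mem_powerset V), Finset.sum_insert
    (Finset.notMem_erase _ _), if_pos rfl]
  have h5 : ∑ V' ∈ V.powerset.erase ∅, (if V' = ∅ then K else Λ) =
      ∑ _V' ∈ V.powerset.erase ∅, Λ := by
    refine Finset.sum_congr rfl (fun V' hV' => ?_)
    rw [if_neg (Finset.ne_of_mem_erase hV')]
  rw [h5, Finset.sum_const, nsmul_eq_mul]
  have h6 : ((V.powerset.erase ∅).card : ℝ) ≤ 2 ^ V.card := by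
    have h7 : (V.powerset.erase ∅).card ≤ 2 ^ V.card := by
      rw [← Finset.card_powerset]
      exact Finset.card_le_card (Finset.erase_subset _ _)
    exact_mod_cast h7
  have h8 := mul_le_mul_of_nonneg_right h6 hΛ
  linarith

end Pool.Agent.Work.MP_56168e_lc.AD
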