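import Mathlib
import Pool.Agent.Work.MP_56168e_lc.AD.Defs

set_option autoImplicit false

/-!
PROOF.  Take G ⊆ F pairwise disjoint (domains) of maximal cardinality.  If G.card ≥ M take a subset of
cardinality M.  Otherwise V = the union of the dom P, P in G: |V| ≤ r G.card ≤ r M, and every P in F meets
V: if P in G because dom P is nonempty (r ≥ 1), otherwise by maximality (insert P G would be larger).
-/

namespace Pool.Agent.Work.MP_56168e_lc.AD

open Finset Pool.Agent.Work.MP_56168e_lc

variable {n s : ℕ}

theorem hit (F : Finset (PA n)) (r M : ℕ) (hr : 1 ≤ r) (hF : ∀ P ∈ F, (dom P).card = r) :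
    (∃ G ⊆ F, G.card = M ∧ ∀ P ∈ G, ∀ Q ∈ G, P ≠ Q → Disjoint (dom P) (dom Q)) ∨
      ∃ V : Finset (Fin n), V.card ≤ r * M ∧ ∀ P ∈ F, ¬ Disjoint (dom P) V := by
  classical
  set S : Finset (Finset (PA n)) :=
    F.powerset.filter fun G => ∀ P ∈ G, ∀ Q ∈ G, P ≠ Q → Disjoint (dom P) (dom Q) with hS
  have hne : S.Nonempty := ⟨∅, by simp [hS]⟩
  obtain ⟨G, hG, hmax⟩ := S.exists_max_image card hne
  rw [hS, mem_filter, mem_powerset] at hG
  obtain ⟨hGF, hGd⟩ := hG
  by_cases hM : M ≤ G.card
  · obtain ⟨G', hG', hc⟩ := exists_subset_card_eq hM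
    exact Or.inl ⟨G', hG'.trans hGF, hc, fun P hP Q hQ => hGd P (hG' hP) Q (hG' hQ)⟩
  · refine Or.inr ⟨G.biUnion dom, ?_, ?_⟩
    · have h1 : (G.biUnion dom).card ≤ G.card * r :=
        card_biUnion_le_card_mul _ _ _ fun P hP => (hF P (hGF hP)).le
      calc (G.biUnion dom).card ≤ G.card * r := h1
        _ ≤ M * r := Nat.mul_le_mul_right _ (not_le.1 hM).le
        _ = r * M := Nat.mul_comm _ _
    · intro P hP hdis
      rw [disjoint_biUnion_right] at hdis
      have hPG : P ∉ G := by
        intro h
        have h1 := hdis P h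
        rw [disjoint_self_iff_empty] at h1
        have h2 := hF P hP
        rw [h1, card_empty] at h2
        omega
      have h1 : insert P G ∈ S := by
        rw [hS, mem_filter, mem_powerset]
        refine ⟨insert_subset hP hGF, ?_⟩
        intro Q hQ R hR hQR
        rcases mem_insert.1 hQ with rfl | hQ'
        · rcases mem_insert.1 hR with rfl | hR'
          · exact absurd rfl hQR
          · exact hdis R hR'
        · rcases mem_insert.1 hR with rfl | hR'
          · exact (hdis Q hQ').symm
          · exact hGd Q hQ' R hR' hQR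
      have h2 := hmax _ h1
      rw [card_insert_of_notMem hPG] at h2
      omega

end Pool.Agent.Work.MP_56168e_lc.AD
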