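import Mathlib
import Pool.Agent.Work.MP_56168e_lc.AD.Defs

set_option autoImplicit false

/-!
PROOF.  For i in A with l < (dom (T i) ∩ D).card choose V i ⊆ dom (T i) ∩ D with (V i).card = l + 1
(Finset.exists_subset_card_eq).  V is injective on these i: if V i = V j with i ≠ j then V i is
contained in dom (T i) ∩ dom (T j), so l + 1 ≤ l.  So their number is at most
(D.powersetCard (l+1)).card = D.card.choose (l+1) ≤ D.card ^ (l+1) (Nat.choose_le_pow or
Nat.choose_le_pow_div).
-/

namespace Pool.Agent.Work.MP_56168e_lc.AD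

open Finset Pool.Agent.Work.MP_56168e_lc

variable {n s : ℕ}

theorem bad_card {T : Fin s → PA n} {A : Finset (Fin s)} {l : ℕ} (h : Des T A l)
    (D : Finset (Fin n)) :
    (A.filter (fun i => l < (dom (T i) ∩ D).card)).card ≤ D.card ^ (l + 1) := by
  classical
  have hex : ∀ i : Fin s, ∃ V : Finset (Fin n), l < (dom (T i) ∩ D).card →
      V ⊆ dom (T i) ∩ D ∧ V.card = l + 1 := by
    intro i
    by_cases hi : l < (dom (T i) ∩ D).card
    · obtain ⟨V, hV, hc⟩ := Finset.exists_subset_card_eq (Nat.succ_le_of_lt hi)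
      exact ⟨V, fun _ => ⟨hV, hc⟩⟩
    · exact ⟨∅, fun h => absurd h hi⟩
  choose V hV using hex
  have h1 : (A.filter (fun i => l < (dom (T i) ∩ D).card)).card ≤
      (D.powersetCard (l + 1)).card := by
    refine Finset.card_le_card_of_injOn V ?_ ?_
    · intro i hi
      have hi' := (Finset.mem_filter.1 (Finset.mem_coe.1 hi)).2
      obtain ⟨a1, a2⟩ := hV i hi'
      exact Finset.mem_coe.2 (Finset.mem_powersetCard.2
        ⟨a1.trans Finset.inter_subset_right, a2⟩)
    · intro i hi j hj hij
      have hi' := Finset.mem_filter.1 (Finset.mem_coe.1 hi)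
      have hj' := Finset.mem_filter.1 (Finset.mem_coe.1 hj)
      by_contra hne
      obtain ⟨a1, a2⟩ := hV i hi'.2
      obtain ⟨b1, b2⟩ := hV j hj'.2
      have h2 : V i ⊆ dom (T i) ∩ dom (T j) := by
        intro x hx
        refine Finset.mem_inter.2 ⟨(Finset.mem_inter.1 (a1 hx)).1, ?_⟩
        rw [hij] at hx
        exact (Finset.mem_inter.1 (b1 hx)).1
      have h3 := Finset.card_le_card h2
      have h4 := h i hi'.1 j hj'.1 hne
      omega
  rw [Finset.card_powersetCard] at h1
  exact h1.trans (Nat.choose_le_pow _ _)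

end Pool.Agent.Work.MP_56168e_lc.AD
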