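import Mathlib
import Pool.Agent.Work.MP_56168e_lc.AD.Defs
import Pool.Agent.Work.MP_56168e_lc.TiF
set_option autoImplicit false

/-!
One pair of terms.  PROOF.  ex_ti_ti: ex_ti_mul (TiF) with g = ti (T j); ti (T j) (ow (T i) x) is
ti (rt (T i) (T j)) x if not Fal (T j) (T i), otherwise 0 (sat_ow_iff); ex_ti; |dom (rt (T i) (T j))| =
|dom (T j) \ dom (T i)|.  So ex (ti_i ti_j) = 0 if Fal (T j) (T i) and = pw (T i) * pw (rt (T i) (T j))
otherwise.
pair_le: D = dom (T i) ∩ dom (T j), |D| ≤ l, pw (rt (T i) (T j)) = 2^|D| pw (T j).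
(0) D empty: the first summand.  (a) some v in D is outside H: ex ≤ 2^l pw pw, which is one of the
summands of the second sum (all summands are nonnegative).  (b) D nonempty and D ⊆ H: if Fal then
ex = 0; otherwise V = D is in the index set of the third sum, T j extends rs D (T i) (they agree on D
as there is no contradiction), dom (rs D (T i)) = D and pw (rt (rs D (T i)) (T j)) = (1/2)^|dom (T j) \ D|
= pw (rt (T i) (T j)).
-/

namespace Pool.Agent.Work.MP_56168e_lc.AD

open Finset Pool.Agent.Work.MP_56168e_lc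

variable {n s : ℕ}

open Classical in
theorem ex_ti_ti (P Q : PA n) :
    ex (fun x => ti P x * ti Q x) = if Fal Q P then 0 else pw P * pw (rt P Q) := by
  rw [ex_ti_mul]
  have h : ∀ x : Cube n, ti Q (ow P x) = if Fal Q P then 0 else ti (rt P Q) x := by
    intro x
    unfold ti
    by_cases hF : Fal Q P
    · rw [if_pos hF, if_neg]
      intro h
      exact ((sat_ow_iff P Q x).mp h).1 hF
    · rw [if_neg hF]
      by_cases hs : Sat (rt P Q) x
      · rw [if_pos hs, if_pos]
        exact (sat_ow_iff P Q x).mpr ⟨hF, hs⟩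
      · rw [if_neg hs, if_neg]
        intro h
        exact hs ((sat_ow_iff P Q x).mp h).2
  rw [ex_congr h]
  by_cases hF : Fal Q P
  · simp only [if_pos hF]
    rw [ex_const, mul_zero]
  · simp only [if_neg hF]
    rw [show (fun x : Cube n => ti (rt P Q) x) = ti (rt P Q) from rfl, ex_ti]

theorem pw_rt (P Q : PA n) : pw (rt P Q) = 2 ^ (dom P ∩ dom Q).card * pw Q := by
  unfold pw
  rw [dom_rt]
  have h : (dom Q \ dom P).card + (dom P ∩ dom Q).card = (dom Q).card := by
    rw [inter_comm]
    exact card_sdiff_add_card_inter _ _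
  rw [← h, pow_add, mul_comm, mul_assoc, ← mul_pow]
  norm_num

/-- the domain of a restriction -/
private theorem dom_rs_pa (V : Finset (Fin n)) (P : PA n) : dom (rs V P) = V ∩ dom P := by
  ext i
  rw [mem_inter, mem_dom, mem_dom]
  unfold rs
  by_cases h : i ∈ V
  · simp [h]
  · simp [h]

open Classical in
theorem pair_le {T : Fin s → PA n} {A : Finset (Fin s)} {l : ℕ} (h : Des T A l)
    (H : Finset (Fin n)) {i j : Fin s} (hi : i ∈ A) (hj : j ∈ A) (hij : i ≠ j) :
    ex (fun x => ti (T i) x * ti (T j) x) ≤ pw (T i) * pw (T j)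
      + 2 ^ l * ∑ v ∈ Hᶜ, (if v ∈ dom (T i) ∧ v ∈ dom (T j) then pw (T i) * pw (T j) else 0)
      + ∑ V ∈ (dom (T i) ∩ H).powerset.erase ∅,
          (if Ext (rs V (T i)) (T j) then pw (T i) * pw (rt (rs V (T i)) (T j)) else 0) := by
  have hpi := pw_pos (T i)
  have hpj := pw_pos (T j)
  have hpp : 0 < pw (T i) * pw (T j) := mul_pos hpi hpj
  have hl := h i hi j hj hij
  have hS2 : 0 ≤ ∑ v ∈ Hᶜ, (if v ∈ dom (T i) ∧ v ∈ dom (T j) then pw (T i) * pw (T j) else 0) :=
    sum_nonneg fun v _ => by split_ifs <;> [exact hpp.le; exact le_rfl]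
  have hS3n : ∀ V ∈ (dom (T i) ∩ H).powerset.erase ∅,
      0 ≤ (if Ext (rs V (T i)) (T j) then pw (T i) * pw (rt (rs V (T i)) (T j)) else 0) := by
    intro V _
    split_ifs
    · exact (mul_pos hpi (pw_pos _)).le
    · exact le_rfl
  have hS3 : 0 ≤ ∑ V ∈ (dom (T i) ∩ H).powerset.erase ∅,
      (if Ext (rs V (T i)) (T j) then pw (T i) * pw (rt (rs V (T i)) (T j)) else 0) :=
    sum_nonneg hS3n
  have h2l : (0 : ℝ) < 2 ^ l := by positivity
  rw [ex_ti_ti]
  by_cases hF : Fal (T j) (T i)
  · rw [if_pos hF]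
    have := mul_nonneg h2l.le hS2
    linarith
  rw [if_neg hF]
  by_cases hD : dom (T i) ∩ dom (T j) = ∅
  · rw [pw_rt, hD, card_empty, pow_zero, one_mul]
    have := mul_nonneg h2l.le hS2
    linarith
  by_cases hH : dom (T i) ∩ dom (T j) ⊆ H
  · -- third sum
    set D := dom (T i) ∩ dom (T j) with hDdef
    have hDm : D ∈ (dom (T i) ∩ H).powerset.erase ∅ := by
      rw [mem_erase, mem_powerset]
      exact ⟨hD, subset_inter inter_subset_left hH⟩
    have hle := single_le_sum hS3n hDm
    have hExt : Ext (rs D (T i)) (T j) := by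
      intro v b hv
      unfold rs at hv
      by_cases hvD : v ∈ D
      · rw [if_pos hvD] at hv
        have hvj : T j v ≠ none := (mem_dom _ _).1 (mem_inter.1 hvD).2
        obtain ⟨b', hb'⟩ := Option.ne_none_iff_exists'.1 hvj
        by_contra hne
        apply hF
        refine ⟨v, b', b, hb', hv, fun hbb => hne ?_⟩
        rw [hb', hbb]
      · rw [if_neg hvD] at hv
        exact absurd hv (by simp)
    have hpw : pw (rt (rs D (T i)) (T j)) = pw (rt (T i) (T j)) := by
      rw [pw_rt, pw_rt, dom_rs_pa]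
      congr 3
      ext v
      simp only [hDdef, mem_inter]
      tauto
    rw [if_pos hExt, hpw] at hle
    have := mul_nonneg h2l.le hS2
    linarith
  · obtain ⟨v, hvD, hvH⟩ := not_subset.1 hH
    have hle : pw (T i) * pw (T j) ≤
        ∑ v ∈ Hᶜ, (if v ∈ dom (T i) ∧ v ∈ dom (T j) then pw (T i) * pw (T j) else 0) := by
      have := single_le_sum (s := Hᶜ)
        (f := fun v => if v ∈ dom (T i) ∧ v ∈ dom (T j) then pw (T i) * pw (T j) else 0)
        (fun v _ => by
          split_ifs
          · exact hpp.le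
          · exact le_rfl) (mem_compl.2 hvH)
      rw [if_pos (mem_inter.1 hvD)] at this
      exact this
    have h1 : pw (T i) * pw (rt (T i) (T j)) ≤ 2 ^ l * (pw (T i) * pw (T j)) := by
      rw [pw_rt]
      have : (2 : ℝ) ^ (dom (T i) ∩ dom (T j)).card ≤ 2 ^ l :=
        pow_le_pow_right₀ (by norm_num) hl
      calc pw (T i) * (2 ^ (dom (T i) ∩ dom (T j)).card * pw (T j))
          = 2 ^ (dom (T i) ∩ dom (T j)).card * (pw (T i) * pw (T j)) := by ring
        _ ≤ 2 ^ l * (pw (T i) * pw (T j)) := mul_le_mul_of_nonneg_right this hpp.le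
    have h2 := mul_le_mul_of_nonneg_left hle h2l.le
    linarith

end Pool.Agent.Work.MP_56168e_lc.AD
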