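import Mathlib
import Pool.Agent.Work.MP_56168e_lc.AD.Defs
import Pool.Agent.Work.MP_56168e_lc.AD.PairA
set_option autoImplicit false

/-!
Sum over the pairs.  PROOF.  Diagonal: ti^2 = ti, ex_ti: sum = mass.  Off the diagonal use pair_le and
sum over all j in X (all terms of the bound are nonnegative):
(0) sum of pw pw ≤ mass^2;
(a) exchanging the sums, sum over v in Hᶜ of (sum over i with v in dom (T i) of pw)^2 = mv^2;
(b) for fixed i and V: sum over j of (if Ext (rs V (T i)) (T j) then pw (T i) pw (rt ..) else 0)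
= pw (T i) * dd T X (rs V (T i)) ≤ pw (T i) * Λ, as dom (rs V (T i)) = V is nonempty (V ⊆ dom (T i));
the number of V is at most 2^l.
-/

namespace Pool.Agent.Work.MP_56168e_lc.AD

open Finset Pool.Agent.Work.MP_56168e_lc

variable {n s : ℕ}

private theorem dom_rs_pb (V : Finset (Fin n)) (P : PA n) : dom (rs V P) = V ∩ dom P := by
  ext i
  rw [mem_inter, mem_dom, mem_dom]
  unfold rs
  by_cases h : i ∈ V
  · simp [h]
  · simp [h]

theorem sum_pair {T : Fin s → PA n} {X : Finset (Fin s)} {l : ℕ} (h : Des T X l)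
    (H : Finset (Fin n)) (hH : ∀ i ∈ X, (dom (T i) ∩ H).card ≤ l) {Λ : ℝ} (hΛ : 0 ≤ Λ)
    (hdd : ∀ U : PA n, (dom U).Nonempty → dd T X U ≤ Λ) :
    ∑ i ∈ X, ∑ j ∈ X, ex (fun x => ti (T i) x * ti (T j) x)
      ≤ mass T X ^ 2 + mass T X + 2 ^ l * ∑ v ∈ Hᶜ, mv T X v ^ 2 + 2 ^ l * Λ * mass T X := by
  classical
  -- pointwise bound
  have key : ∀ i ∈ X, ∀ j ∈ X, ex (fun x => ti (T i) x * ti (T j) x) ≤
      (if i = j then pw (T i) else 0) + (pw (T i) * pw (T j)
      + 2 ^ l * ∑ v ∈ Hᶜ, (if v ∈ dom (T i) ∧ v ∈ dom (T j) then pw (T i) * pw (T j) else 0)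
      + ∑ V ∈ (dom (T i) ∩ H).powerset.erase ∅,
          (if Ext (rs V (T i)) (T j) then pw (T i) * pw (rt (rs V (T i)) (T j)) else 0)) := by
    intro i hi j hj
    by_cases hij : i = j
    · subst hij
      rw [if_pos rfl]
      have e : ex (fun x => ti (T i) x * ti (T i) x) = pw (T i) := by
        rw [ex_congr (fun x => ti_sq (T i) x)]
        exact ex_ti _
      rw [e]
      have h1 : 0 ≤ pw (T i) * pw (T i) := (mul_pos (pw_pos _) (pw_pos _)).le
      have h2 : 0 ≤ ∑ v ∈ Hᶜ, (if v ∈ dom (T i) ∧ v ∈ dom (T i) then pw (T i) * pw (T i) else 0) :=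
        sum_nonneg fun v _ => by split_ifs <;> [exact h1; exact le_rfl]
      have h3 : 0 ≤ ∑ V ∈ (dom (T i) ∩ H).powerset.erase ∅,
          (if Ext (rs V (T i)) (T i) then pw (T i) * pw (rt (rs V (T i)) (T i)) else 0) :=
        sum_nonneg fun v _ => by
          split_ifs <;> [exact (mul_pos (pw_pos _) (pw_pos _)).le; exact le_rfl]
      have h4 : (0 : ℝ) ≤ 2 ^ l := by positivity
      have := mul_nonneg h4 h2
      linarith
    · rw [if_neg hij, zero_add]
      exact pair_le h H hi hj hij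
  refine (sum_le_sum fun i hi => sum_le_sum fun j hj => key i hi j hj).trans ?_
  simp only [sum_add_distrib]
  -- the four sums
  have e0 : ∑ i ∈ X, ∑ j ∈ X, (if i = j then pw (T i) else 0) = mass T X := by
    unfold mass
    refine sum_congr rfl fun i hi => ?_
    rw [sum_ite_eq, if_pos hi]
  have e1 : ∑ i ∈ X, ∑ j ∈ X, pw (T i) * pw (T j) = mass T X ^ 2 := by
    unfold mass
    rw [sq, sum_mul_sum]
  have e2 : ∑ i ∈ X, ∑ j ∈ X, (2 : ℝ) ^ l * ∑ v ∈ Hᶜ,
      (if v ∈ dom (T i) ∧ v ∈ dom (T j) then pw (T i) * pw (T j) else 0)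
      = 2 ^ l * ∑ v ∈ Hᶜ, mv T X v ^ 2 := by
    simp only [← mul_sum]
    congr 1
    have hin : ∀ i ∈ X, ∑ j ∈ X, ∑ v ∈ Hᶜ,
        (if v ∈ dom (T i) ∧ v ∈ dom (T j) then pw (T i) * pw (T j) else 0)
        = ∑ v ∈ Hᶜ, ∑ j ∈ X,
          (if v ∈ dom (T i) ∧ v ∈ dom (T j) then pw (T i) * pw (T j) else 0) :=
      fun i _ => sum_comm
    rw [sum_congr rfl hin, sum_comm]
    refine sum_congr rfl fun v _ => ?_
    unfold mv
    rw [sq, sum_filter, sum_mul_sum]
    refine sum_congr rfl fun i _ => sum_congr rfl fun j _ => ?_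
    by_cases h1 : v ∈ dom (T i) <;> by_cases h2 : v ∈ dom (T j) <;> simp [h1, h2]
  have e3 : ∑ i ∈ X, ∑ j ∈ X, ∑ V ∈ (dom (T i) ∩ H).powerset.erase ∅,
      (if Ext (rs V (T i)) (T j) then pw (T i) * pw (rt (rs V (T i)) (T j)) else 0)
      ≤ 2 ^ l * Λ * mass T X := by
    unfold mass
    rw [mul_sum]
    refine sum_le_sum fun i hi => ?_
    rw [sum_comm]
    have hb : ∀ V ∈ (dom (T i) ∩ H).powerset.erase ∅, ∑ j ∈ X,
        (if Ext (rs V (T i)) (T j) then pw (T i) * pw (rt (rs V (T i)) (T j)) else 0)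
        ≤ pw (T i) * Λ := by
      intro V hV
      rw [mem_erase, mem_powerset] at hV
      have e : ∑ j ∈ X,
          (if Ext (rs V (T i)) (T j) then pw (T i) * pw (rt (rs V (T i)) (T j)) else 0)
          = pw (T i) * dd T X (rs V (T i)) := by
        unfold dd ext
        rw [mul_sum, sum_filter]
      rw [e]
      refine mul_le_mul_of_nonneg_left (hdd _ ?_) (pw_pos _).le
      rw [dom_rs_pb]
      obtain ⟨v, hv⟩ := nonempty_iff_ne_empty.2 hV.1
      exact ⟨v, mem_inter.2 ⟨hv, (mem_inter.1 (hV.2 hv)).1⟩⟩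
    have hc : (((dom (T i) ∩ H).powerset.erase ∅).card : ℝ) ≤ 2 ^ l := by
      have h1 : ((dom (T i) ∩ H).powerset.erase ∅).card ≤ 2 ^ l := by
        refine (card_le_card (erase_subset _ _)).trans ?_
        rw [card_powerset]
        exact Nat.pow_le_pow_right (by norm_num) (hH i hi)
      exact_mod_cast h1
    calc ∑ V ∈ (dom (T i) ∩ H).powerset.erase ∅, ∑ j ∈ X,
        (if Ext (rs V (T i)) (T j) then pw (T i) * pw (rt (rs V (T i)) (T j)) else 0)
        ≤ ∑ V ∈ (dom (T i) ∩ H).powerset.erase ∅, pw (T i) * Λ := sum_le_sum hb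
      _ = (((dom (T i) ∩ H).powerset.erase ∅).card : ℝ) * (pw (T i) * Λ) := by
          rw [sum_const, nsmul_eq_mul]
      _ ≤ 2 ^ l * (pw (T i) * Λ) :=
          mul_le_mul_of_nonneg_right hc (mul_nonneg (pw_pos _).le hΛ)
      _ = 2 ^ l * Λ * pw (T i) := by ring
  rw [e0, e1, e2]
  linarith

end Pool.Agent.Work.MP_56168e_lc.AD
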