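import Mathlib
import Pool.Agent.Work.MP_56168e_lc.AD.Defs
import Pool.Agent.Work.MP_56168e_lc.SecM
set_option autoImplicit false

/-!
Second moment.  PROOF.  Exactly as second_moment in Work/MP_56168e_lc/SecM.lean (copy and adapt): with
Z = sum of ti (T i) over X and μ = mass T X: μ^2 nz T X ≤ (Z - μ)^2 pointwise,
ex ((Z-μ)^2) = ∑∑ ex (ti ti) - μ^2, nrm ((Z-μ)^2) ≤ 4 |X|^2, fool.
-/

namespace Pool.Agent.Work.MP_56168e_lc.AD

open Finset Pool.Agent.Work.MP_56168e_lc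

variable {n s : ℕ}

theorem sec_mom (T : Fin s → PA n) (X : Finset (Fin s)) {ε : ℝ} (hε : 0 ≤ ε)
    {φ : Cube n → ℝ} (hφ : Dens ε φ) :
    pe φ (nz T X) * mass T X ^ 2
      ≤ (∑ i ∈ X, ∑ j ∈ X, ex (fun x => ti (T i) x * ti (T j) x)) - mass T X ^ 2
        + 4 * ε * (X.card : ℝ) ^ 2 := by
  classical
  obtain ⟨μ, hμ⟩ : ∃ μ : ℝ, μ = mass T X := ⟨_, rfl⟩
  rw [← hμ]
  set Z : Cube n → ℝ := fun x => ∑ i ∈ X, ti (T i) x with hZ
  have hp0 : ∀ i : Fin s, 0 ≤ pw (T i) := fun i => (pw_pos (T i)).le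
  have hμ0 : 0 ≤ μ := by
    rw [hμ]
    exact sum_nonneg fun i _ => hp0 i
  have hμB : μ ≤ X.card := by
    have h0 : μ ≤ ∑ i ∈ X, (1 : ℝ) := by
      rw [hμ]
      exact sum_le_sum fun i _ => pw_le_one (T i)
    rw [sum_const, nsmul_eq_mul, mul_one] at h0
    exact h0
  have h1 : ∀ x, μ ^ 2 * nz T X x ≤ (Z x - μ) ^ 2 := by
    intro x
    by_cases h : ∃ i ∈ X, Sat (T i) x
    · have h0 : nz T X x = 0 := by
        unfold nz
        rw [if_pos h]
      rw [h0, mul_zero]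
      exact sq_nonneg _
    · have e1 : nz T X x = 1 := by
        unfold nz
        rw [if_neg h]
      have e2 : Z x = 0 := by
        rw [hZ]
        refine sum_eq_zero fun i hi => ?_
        unfold ti
        rw [if_neg fun hs => h ⟨i, hi, hs⟩]
      rw [e1, e2]
      exact le_of_eq (by ring)
  have h2 : pe φ (nz T X) * μ ^ 2 ≤ pe φ (fun x => (Z x - μ) ^ 2) := by
    have h0 := pe_mono hφ h1
    rw [pe_smul] at h0
    linarith
  have h3 := (abs_le.mp (fool hφ hε (fun x => (Z x - μ) ^ 2))).2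
  have h4 : nrm (fun x => (Z x - μ) ^ 2) ≤ 4 * (X.card : ℝ) ^ 2 := by
    have h5 : nrm (fun x => Z x - μ) ≤ 2 * X.card := by
      have h6 := nrm_sub_le Z (fun _ => μ)
      have h7 : nrm Z ≤ X.card := by
        refine (nrm_sum_le X (fun i => ti (T i))).trans ?_
        refine (sum_le_sum (g := fun _ => (1 : ℝ)) fun i _ => nrm_ti (T i)).trans ?_
        rw [sum_const, nsmul_eq_mul, mul_one]
      rw [nrm_const, abs_of_nonneg hμ0] at h6
      linarith
    refine (nrm_sq_le (fun x => Z x - μ)).trans ?_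
    refine (pow_le_pow_left₀ (nrm_nonneg _) h5 2).trans (le_of_eq (by ring))
  have h5 : ex Z = μ := by
    rw [hZ, ex_sum, hμ]
    exact sum_congr rfl fun i _ => ex_ti (T i)
  have e1 : ex (fun x => Z x ^ 2)
      = ∑ i ∈ X, ∑ j ∈ X, ex (fun x => ti (T i) x * ti (T j) x) := by
    have h0 : ∀ x, Z x ^ 2 = ∑ i ∈ X, ∑ j ∈ X, ti (T i) x * ti (T j) x := by
      intro x
      rw [hZ, sq, sum_mul_sum]
    rw [ex_congr h0, ex_sum]
    refine sum_congr rfl fun i _ => ?_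
    rw [ex_sum]
  have h7 : ex (fun x => (Z x - μ) ^ 2) =
      (∑ i ∈ X, ∑ j ∈ X, ex (fun x => ti (T i) x * ti (T j) x)) - μ ^ 2 := by
    have e2 : ∀ x, (Z x - μ) ^ 2 = (Z x ^ 2 - (2 * μ) * Z x) + μ ^ 2 := fun x => by ring
    rw [ex_congr e2, ex_add (fun x => Z x ^ 2 - (2 * μ) * Z x) (fun _ => μ ^ 2),
      ex_sub (fun x => Z x ^ 2) (fun x => (2 * μ) * Z x), ex_smul, ex_const, h5, e1]
    ring
  rw [h7] at h3
  have h8 := mul_le_mul_of_nonneg_left h4 hε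
  linarith

end Pool.Agent.Work.MP_56168e_lc.AD
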