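import Mathlib
import Pool.Agent.Work.MP_56168e_lc.AD.Defs
import Pool.Agent.Work.MP_56168e_lc.AD.PairB
import Pool.Agent.Work.MP_56168e_lc.AD.Sec
import Pool.Agent.Work.MP_56168e_lc.AD.Bad
import Pool.Agent.Work.MP_56168e_lc.AD.DdOne
import Pool.Agent.Work.MP_56168e_lc.AD.Res
set_option autoImplicit false

/-!
The certificate.  PROOF.  c = cF l δ = 2^(l+6)/δ ≥ 64, K = c Λ ≥ 64.  sub_mass: A' ⊆ A with
K ≤ m' ≤ K + 1 ≤ 2K, m' = mass T A'.  H = {v : Λ < W * mv T A' v}.  Sum over v of mv T A' v =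
∑_{i in A'} |dom (T i)| pw (T i) ≤ W m'.  So |H| Λ ≤ W * W m' ≤ 2 W^2 c Λ, |H| ≤ 2 W^2 c (real numbers).
X = {i in A' : |dom (T i) ∩ H| ≤ l}; |A' \ X| ≤ |H|^(l+1) (bad_card) and every weight is ≤ 1/2^w1, so
mass T X ≥ m' - |H|^(l+1)/2^w1 ≥ m' - 1/2 ≥ m'/2.
For v not in H: W * mv v ≤ Λ, so if W > 0: ∑_{v ∉ H} (mv T X v)^2 ≤ ∑ mv T A' v * Λ / W ≤ Λ m'
(mv T X v ≤ mv T A' v); if W = 0 all domains are empty and the sum is 0.
sum_pair for X (dd T X U ≤ dd T A U ≤ Λ by dd_mono): S - mass(X)^2 ≤ m' + 2^l Λ m' + 2^l Λ m' ≤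
2^(l+2) Λ m' (as 1 ≤ Λ ≤ 2^(l+1) Λ).  sec_mom for X, nz T A ≤ nz T X (nz_anti), |X| ≤ s:
pe (nz T A) * m'^2/4 ≤ pe (nz T X) * mass(X)^2 ≤ 2^(l+2) Λ m' + 4 ε s^2, hence
pe (nz T A) ≤ 2^(l+4) Λ / m' + 16 ε s^2 / m'^2 ≤ 2^(l+4)/c + 16 ε s^2 = δ/4 + 16 ε s^2 ≤ δ.
-/

namespace Pool.Agent.Work.MP_56168e_lc.AD

open Finset Pool.Agent.Work.MP_56168e_lc

variable {n s : ℕ}

private theorem mv_nonneg_ct (T : Fin s → PA n) (A : Finset (Fin s)) (v : Fin n) :
    0 ≤ mv T A v := sum_nonneg fun i _ => (pw_pos (T i)).le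

private theorem mv_mono_ct (T : Fin s → PA n) {A A' : Finset (Fin s)} (h : A' ⊆ A) (v : Fin n) :
    mv T A' v ≤ mv T A v :=
  sum_le_sum_of_subset_of_nonneg (filter_subset_filter _ h) fun i _ _ => (pw_pos (T i)).le

private theorem sum_mv_ct (T : Fin s → PA n) (A : Finset (Fin s)) {W : ℕ}
    (hW : ∀ i ∈ A, (dom (T i)).card ≤ W) : ∑ v, mv T A v ≤ W * mass T A := by
  classical
  unfold mv mass
  have e : ∀ v : Fin n, ∑ i ∈ A.filter (fun i => v ∈ dom (T i)), pw (T i)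
      = ∑ i ∈ A, if v ∈ dom (T i) then pw (T i) else 0 := fun v => sum_filter _ _
  rw [sum_congr rfl (fun v _ => e v), sum_comm, mul_sum]
  refine sum_le_sum fun i hi => ?_
  rw [← sum_filter, sum_const, nsmul_eq_mul]
  refine mul_le_mul_of_nonneg_right ?_ (pw_pos _).le
  have : (univ.filter fun v => v ∈ dom (T i)) = dom (T i) := by
    ext v
    simp
  rw [this]
  exact_mod_cast hW i hi

theorem cert {T : Fin s → PA n} {A : Finset (Fin s)} {l W w1 : ℕ} {Λ δ ε : ℝ} (hdes : Des T A l)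
    (hW : ∀ i ∈ A, (dom (T i)).card ≤ W) (hw : ∀ i ∈ A, w1 ≤ (dom (T i)).card) (hΛ : 1 ≤ Λ)
    (hdd : ∀ U : PA n, (dom U).Nonempty → dd T A U ≤ Λ) (hδ : 0 < δ) (hδ1 : δ ≤ 1)
    (hmass : cF l δ * Λ ≤ mass T A)
    (hbig : (2 * (W : ℝ) ^ 2 * cF l δ) ^ (l + 1) ≤ 2 ^ w1 / 2) (hε : 0 ≤ ε)
    (hεs : 16 * ε * (s : ℝ) ^ 2 ≤ δ / 2) {φ : Cube n → ℝ} (hφ : Dens ε φ) :
    pe φ (nz T A) ≤ δ := by
  classical
  set c := cF l δ with hc
  have hc' : c * δ = 2 ^ (l + 6) := by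
    rw [hc]
    unfold cF
    exact div_mul_cancel₀ _ hδ.ne'
  have h2l : (1 : ℝ) ≤ 2 ^ l := one_le_pow₀ (by norm_num)
  have hc64 : 64 ≤ c := by
    have h1 : (64 : ℝ) ≤ 2 ^ (l + 6) := by
      rw [pow_add]
      nlinarith
    have hc0 : 0 < c := by
      rw [hc]
      unfold cF
      positivity
    nlinarith
  have hΛ0 : 0 < Λ := by linarith
  set K := c * Λ with hK
  have hK64 : 64 ≤ K := by
    rw [hK]
    nlinarith
  obtain ⟨A', hA', hm1, hm2⟩ := sub_mass T A (K := K) (by linarith) hmass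
  set m' := mass T A' with hm'
  -- the heavy variables
  set H : Finset (Fin n) := univ.filter fun v => Λ < W * mv T A' v with hH
  have hW' : ∀ i ∈ A', (dom (T i)).card ≤ W := fun i hi => hW i (hA' hi)
  have hsum := sum_mv_ct T A' hW'
  have hW0 : (0 : ℝ) ≤ W := Nat.cast_nonneg W
  have hHc : (H.card : ℝ) ≤ 2 * (W : ℝ) ^ 2 * c := by
    have h1 : (H.card : ℝ) * Λ ≤ W * (W * m') := by
      calc (H.card : ℝ) * Λ = ∑ v ∈ H, Λ := by rw [sum_const, nsmul_eq_mul]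
        _ ≤ ∑ v ∈ H, W * mv T A' v := sum_le_sum fun v hv => (mem_filter.1 hv).2.le
        _ ≤ ∑ v, W * mv T A' v :=
            sum_le_sum_of_subset_of_nonneg (subset_univ _) fun v _ _ =>
              mul_nonneg hW0 (mv_nonneg_ct _ _ _)
        _ = W * ∑ v, mv T A' v := by rw [mul_sum]
        _ ≤ W * (W * m') := mul_le_mul_of_nonneg_left hsum hW0
    have h2 : m' ≤ 2 * K := by linarith
    have h3 : (W : ℝ) * (W * m') ≤ (2 * (W : ℝ) ^ 2 * c) * Λ := by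
      have : (W : ℝ) * (W * m') ≤ W * (W * (2 * K)) :=
        mul_le_mul_of_nonneg_left (mul_le_mul_of_nonneg_left h2 hW0) hW0
      refine this.trans (le_of_eq ?_)
      rw [hK]
      ring
    exact le_of_mul_le_mul_right (h1.trans h3) hΛ0
  set X : Finset (Fin s) := A'.filter fun i => (dom (T i) ∩ H).card ≤ l with hX
  set Y : Finset (Fin s) := A'.filter fun i => l < (dom (T i) ∩ H).card with hY
  have hXA' : X ⊆ A' := filter_subset _ _
  have hXA : X ⊆ A := hXA'.trans hA'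
  have hYc : (Y.card : ℝ) ≤ 2 ^ w1 / 2 := by
    have h1 : Y.card ≤ H.card ^ (l + 1) := bad_card (des_mono hdes hA') H
    calc (Y.card : ℝ) ≤ (H.card : ℝ) ^ (l + 1) := by exact_mod_cast h1
      _ ≤ (2 * (W : ℝ) ^ 2 * c) ^ (l + 1) := pow_le_pow_left₀ (Nat.cast_nonneg _) hHc _
      _ ≤ _ := hbig
  have hYm : mass T Y ≤ 1 / 2 := by
    have h1 : mass T Y ≤ Y.card * (1 / 2 : ℝ) ^ w1 := by
      unfold mass
      rw [← nsmul_eq_mul, ← sum_const]
      refine sum_le_sum fun i hi => ?_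
      unfold pw
      exact pow_le_pow_of_le_one (by norm_num) (by norm_num) (hw i (hA' (filter_subset _ _ hi)))
    refine h1.trans ?_
    have h2 : (Y.card : ℝ) * (1 / 2 : ℝ) ^ w1 ≤ 2 ^ w1 / 2 * (1 / 2 : ℝ) ^ w1 :=
      mul_le_mul_of_nonneg_right hYc (by positivity)
    refine h2.trans (le_of_eq ?_)
    rw [div_mul_eq_mul_div, ← mul_pow]
    norm_num
  have hXY : mass T X + mass T Y = m' := by
    rw [hm']
    unfold mass
    rw [hX, hY, ← sum_filter_add_sum_filter_not A' (fun i => (dom (T i) ∩ H).card ≤ l)]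
    congr 1
    refine sum_congr ?_ fun _ _ => rfl
    ext i
    simp [not_le]
  have hmX : m' / 2 ≤ mass T X := by linarith
  have hmX' : mass T X ≤ m' := by
    have := mass_nonneg T Y
    linarith
  have hmX0 := mass_nonneg T X
  -- the light variables
  have hlight : ∑ v ∈ Hᶜ, mv T X v ^ 2 ≤ Λ * m' := by
    rcases Nat.eq_zero_or_pos W with hW1 | hW1
    · have h1 : ∀ v, mv T X v = 0 := by
        intro v
        unfold mv
        refine sum_eq_zero fun i hi => ?_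
        rw [mem_filter] at hi
        have h2 := hW i (hXA hi.1)
        rw [hW1, Nat.le_zero, card_eq_zero] at h2
        rw [h2] at hi
        exact absurd hi.2 (notMem_empty _)
      simp only [h1]
      have : (0 : ℝ) ≤ Λ * m' := mul_nonneg hΛ0.le (by linarith)
      simpa using this
    · have hWp : (0 : ℝ) < W := Nat.cast_pos.2 hW1
      have h1 : ∀ v ∈ Hᶜ, mv T X v ^ 2 ≤ Λ / W * mv T A' v := by
        intro v hv
        rw [mem_compl, hH, mem_filter, not_and, not_lt] at hv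
        have h2 := hv (mem_univ _)
        have h3 : mv T X v ≤ Λ / W := by
          rw [le_div_iff₀ hWp]
          have := mv_mono_ct T hXA' v
          nlinarith
        rw [sq]
        exact mul_le_mul h3 (mv_mono_ct T hXA' v) (mv_nonneg_ct _ _ _) (by positivity)
      calc ∑ v ∈ Hᶜ, mv T X v ^ 2 ≤ ∑ v ∈ Hᶜ, Λ / W * mv T A' v := sum_le_sum h1
        _ ≤ ∑ v, Λ / W * mv T A' v :=
            sum_le_sum_of_subset_of_nonneg (subset_univ _) fun v _ _ =>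
              mul_nonneg (by positivity) (mv_nonneg_ct _ _ _)
        _ = Λ / W * ∑ v, mv T A' v := by rw [mul_sum]
        _ ≤ Λ / W * (W * m') := mul_le_mul_of_nonneg_left hsum (by positivity)
        _ = Λ * m' := by
            field_simp
  have hpair := sum_pair (des_mono hdes hXA) H (fun i hi => (mem_filter.1 hi).2) hΛ0.le
    (fun U hU => (dd_mono T hXA U).trans (hdd U hU))
  have hsec := sec_mom T X hε hφ
  have hXs : (X.card : ℝ) ≤ s := by
    have := card_le_univ X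
    rw [Fintype.card_fin] at this
    exact_mod_cast this
  have hle : pe φ (nz T A) ≤ pe φ (nz T X) := pe_mono hφ fun x => nz_anti hXA x
  refine hle.trans ?_
  have hp0 : 0 ≤ pe φ (nz T X) := pe_nonneg hφ fun x => nz_nonneg T X x
  set p := pe φ (nz T X) with hp
  have hm0 : 64 ≤ m' := by linarith
  have hXs2 : 4 * ε * (X.card : ℝ) ^ 2 ≤ 4 * ε * (s : ℝ) ^ 2 := by
    have : (X.card : ℝ) ^ 2 ≤ (s : ℝ) ^ 2 := pow_le_pow_left₀ (Nat.cast_nonneg _) hXs 2
    exact mul_le_mul_of_nonneg_left this (by linarith)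
  have hΛl : Λ ≤ 2 ^ l * Λ := by nlinarith
  -- bound by `4 * 2 ^ l * Λ * m' + 4 ε s ^ 2`
  have hb : p * mass T X ^ 2 ≤ 4 * (2 ^ l * Λ) * m' + 4 * ε * (s : ℝ) ^ 2 := by
    have h1 : (2 : ℝ) ^ l * ∑ v ∈ Hᶜ, mv T X v ^ 2 ≤ (2 ^ l * Λ) * m' := by
      have := mul_le_mul_of_nonneg_left hlight (by linarith : (0 : ℝ) ≤ 2 ^ l)
      linarith
    have h2 : (2 : ℝ) ^ l * Λ * mass T X ≤ (2 ^ l * Λ) * m' :=
      mul_le_mul_of_nonneg_left hmX' (by linarith)
    have h3 : mass T X ≤ (2 ^ l * Λ) * m' := by nlinarith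
    have h4 : 0 ≤ (2 ^ l * Λ) * m' := by nlinarith
    linarith
  have hq : m' ^ 2 / 4 ≤ mass T X ^ 2 := by
    have := pow_le_pow_left₀ (by linarith : 0 ≤ m' / 2) hmX 2
    linarith [this, div_pow m' 2 2]
  have hb2 : p * (m' ^ 2 / 4) ≤ 4 * (2 ^ l * Λ) * m' + 4 * ε * (s : ℝ) ^ 2 :=
    (mul_le_mul_of_nonneg_left hq hp0).trans hb
  have h64 : 64 * (2 ^ l * Λ) ≤ δ * m' := by
    have h1 : 64 * (2 ^ l * Λ) = δ * K := by
      rw [hK, ← mul_assoc δ, mul_comm δ c, hc', pow_add]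
      norm_num
      ring
    rw [h1]
    exact mul_le_mul_of_nonneg_left hm1 hδ.le
  have hb3 : 4 * (2 ^ l * Λ) * m' ≤ δ * m' ^ 2 / 16 := by
    have := mul_le_mul_of_nonneg_right h64 (by linarith : 0 ≤ m')
    nlinarith
  have hb4 : 4 * ε * (s : ℝ) ^ 2 ≤ δ * m' ^ 2 / 8 := by
    have h1 : 4 * ε * (s : ℝ) ^ 2 ≤ δ / 8 := by linarith
    have h2 : (1 : ℝ) ≤ m' ^ 2 := by nlinarith
    have h3 : δ * 1 ≤ δ * m' ^ 2 := mul_le_mul_of_nonneg_left h2 hδ.le
    linarith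
  have hmm : 0 < m' ^ 2 := by positivity
  have hfin : p * (m' ^ 2) ≤ δ * m' ^ 2 := by nlinarith
  exact le_of_mul_le_mul_right hfin hmm

end Pool.Agent.Work.MP_56168e_lc.AD
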