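import Mathlib
import Pool.Agent.Work.MP_56168e_lc.AD.Defs

set_option autoImplicit false

/-!
PROOF.  If ext (rf U T) (ext T A U) P is empty the sum is 0 ≤ Λ.  Otherwise some rt U (T i) extends P,
so dom P is disjoint from dom U (rt U (T i) is none on dom U).  Put U' = un U P; dom U' = dom U ∪ dom P,
so (dom U).card < (dom U').card.  Every i in ext (rf U T) (ext T A U) P extends U' (on dom U because T i
extends U, on dom P because rt U (T i) extends P and rt U (T i) v = some b gives T i v = some b), and
rt P (rt U (T i)) = rt U' (T i).  So the sum is at most dd T A U' ≤ Λ.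
-/

namespace Pool.Agent.Work.MP_56168e_lc.AD

open Finset Pool.Agent.Work.MP_56168e_lc

variable {n s : ℕ}

theorem st_link {T : Fin s → PA n} {A : Finset (Fin s)} {Λ : ℝ} (hΛ : 0 ≤ Λ) {U : PA n}
    (h : St T A (dom U).card Λ) (P : PA n) (hP : (dom P).Nonempty) :
    dd (rf U T) (ext T A U) P ≤ Λ := by
  classical
  by_cases he : ext (rf U T) (ext T A U) P = ∅
  · unfold dd
    rw [he, Finset.sum_empty]
    exact hΛ
  · obtain ⟨i0, hi0⟩ := Finset.nonempty_iff_ne_empty.2 he
    have hE0 : Ext P (rf U T i0) := (Finset.mem_filter.1 hi0).2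
    have hdisj : ∀ v b, P v = some b → U v = none := by
      intro v b hv
      have h1 : rt U (T i0) v = some b := hE0 v b hv
      by_contra h2
      unfold rt at h1
      rw [if_neg h2] at h1
      exact absurd h1 (by simp)
    have hsub : ∀ i ∈ ext (rf U T) (ext T A U) P, i ∈ ext T A (un U P) := by
      intro i hi
      obtain ⟨hi1, hi2⟩ := Finset.mem_filter.1 hi
      obtain ⟨hi3, hi4⟩ := Finset.mem_filter.1 hi1
      refine Finset.mem_filter.2 ⟨hi3, ?_⟩
      intro v b hv
      unfold un at hv
      by_cases h1 : U v = none
      · rw [if_pos h1] at hv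
        have h2 : rt U (T i) v = some b := hi2 v b hv
        unfold rt at h2
        rw [if_pos h1] at h2
        exact h2
      · rw [if_neg h1] at hv
        exact hi4 v b hv
    have hrt : ∀ i, rt P (rf U T i) = rt (un U P) (T i) := by
      intro i
      funext v
      unfold rf rt un
      by_cases h1 : U v = none
      · rw [if_pos h1, if_pos h1]
      · rw [if_neg h1, if_neg h1, if_neg h1, ite_self]
    have hlt : (dom U).card < (dom (un U P)).card := by
      obtain ⟨v, hv⟩ := hP
      have hv' := (mem_dom P v).1 hv
      obtain ⟨b, hb⟩ := Option.ne_none_iff_exists'.1 hv'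
      have hUv := hdisj v b hb
      refine Finset.card_lt_card (Finset.ssubset_iff_subset_ne.2 ⟨?_, ?_⟩)
      · intro w hw
        rw [mem_dom] at hw ⊢
        unfold un
        rw [if_neg hw]
        exact hw
      · intro h1
        have h2 : v ∈ dom (un U P) := by
          rw [mem_dom]
          unfold un
          rw [if_pos hUv]
          exact hv'
        rw [← h1, mem_dom] at h2
        exact h2 hUv
    refine le_trans ?_ (h (un U P) hlt)
    unfold dd
    rw [Finset.sum_congr rfl fun i _ => by rw [hrt i]]
    exact Finset.sum_le_sum_of_subset_of_nonneg hsub fun i _ _ => (pw_pos _).le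

end Pool.Agent.Work.MP_56168e_lc.AD
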