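import Mathlib
import Pool.Agent.Work.MP_56168e_lc.AD.Defs
import Pool.Agent.Work.MP_56168e_lc.AD.Cert
import Pool.Agent.Work.MP_56168e_lc.AD.StLink
import Pool.Agent.Work.MP_56168e_lc.AD.Res
import Pool.Agent.Work.MP_56168e_lc.Cond
set_option autoImplicit false

/-!
The certificate for a heavy partial assignment U.  PROOF.  32 ε 2^l s^2 ≤ δ/2 ≤ 1/2 and s ≥ 1 give
2 ε ≤ (1/2)^l ≤ pw U.  cond (Cond.lean) gives φ' with Dens (2 ε 2^|dom U|) φ', mono to Dens (2 ε 2^l) φ'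
(Dens.mono in Defs2), and pe φ (ti U * nz T A) = pe φ (ti U) * pe φ' (fun x => nz T A (ow U x)) ≤
pe φ' (nz (rf U T) (ext T A U)) (nz_link, pe φ (ti U) ≤ 1).  Apply cert to the family rf U T, ext T A U:
des_link; widths ≤ W by dom_rf_le, ≥ w1 by le_dom_rf and |dom U| ≤ l; st_link;
mass (rf U T) (ext T A U) = dd T A U (by definition, rfl); 16 (2 ε 2^l) s^2 ≤ δ/2.
-/

namespace Pool.Agent.Work.MP_56168e_lc.AD

open Finset Pool.Agent.Work.MP_56168e_lc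

variable {n s : ℕ}

theorem link_cert {T : Fin s → PA n} {A : Finset (Fin s)} {l W w1 : ℕ} {Λ δ ε : ℝ} (hs : 1 ≤ s)
    (hdes : Des T A l) (hW : ∀ i ∈ A, (dom (T i)).card ≤ W)
    (hw : ∀ i ∈ A, w1 + l ≤ (dom (T i)).card) (hΛ : 1 ≤ Λ) {U : PA n} (hU : (dom U).card ≤ l)
    (hst : St T A (dom U).card Λ) (hδ : 0 < δ) (hδ1 : δ ≤ 1) (hmass : cF l δ * Λ ≤ dd T A U)
    (hbig : (2 * (W : ℝ) ^ 2 * cF l δ) ^ (l + 1) ≤ 2 ^ w1 / 2) (hε : 0 ≤ ε)
    (hεs : 32 * ε * 2 ^ l * (s : ℝ) ^ 2 ≤ δ / 2) {φ : Cube n → ℝ} (hφ : Dens ε φ) :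
    pe φ (fun x => ti U x * nz T A x) ≤ δ := by
  have hs1 : (1 : ℝ) ≤ (s : ℝ) ^ 2 := by
    have h1 : (1 : ℝ) ≤ s := by exact_mod_cast hs
    exact one_le_pow₀ h1
  have h2l : (0 : ℝ) < 2 ^ l := by positivity
  have h1 : 32 * ε * 2 ^ l ≤ 1 / 2 := by
    have h2 : 32 * ε * 2 ^ l * 1 ≤ 32 * ε * 2 ^ l * (s : ℝ) ^ 2 :=
      mul_le_mul_of_nonneg_left hs1 (by positivity)
    linarith
  have hpwU : 2 * ε ≤ pw U := by
    have h3 : ((1 : ℝ) / 2) ^ l ≤ pw U := by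
      unfold pw
      exact pow_le_pow_of_le_one (by norm_num) (by norm_num) hU
    refine le_trans ?_ h3
    rw [one_div, inv_pow, ← one_div, le_div_iff₀ h2l]
    linarith
  obtain ⟨φ', hφ', hpe⟩ := cond hφ hε U hpwU
  have hφ'' : Dens (2 * ε * 2 ^ l) φ' := by
    refine hφ'.mono ?_
    have h4 : (2 : ℝ) ^ (dom U).card ≤ 2 ^ l := pow_le_pow_right₀ (by norm_num) hU
    exact mul_le_mul_of_nonneg_left h4 (by positivity)
  have hc : pe φ' (nz (rf U T) (ext T A U)) ≤ δ := by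
    refine cert (des_link hdes U) (W := W) (w1 := w1) (Λ := Λ) ?_ ?_ hΛ ?_ hδ hδ1 hmass hbig
      (by positivity) ?_ hφ''
    · intro i hi
      exact (dom_rf_le U T i).trans (hW i (by classical exact (Finset.mem_filter.1 hi).1))
    · intro i hi
      have h5 := le_dom_rf U T i
      have h6 := hw i (by classical exact (Finset.mem_filter.1 hi).1)
      omega
    · exact fun P hP => st_link (by linarith) hst P hP
    · calc 16 * (2 * ε * 2 ^ l) * (s : ℝ) ^ 2 = 32 * ε * 2 ^ l * (s : ℝ) ^ 2 := by ring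
        _ ≤ δ / 2 := hεs
  have h7 : pe φ' (fun x => nz T A (ow U x)) ≤ δ :=
    (pe_mono hφ' fun x => nz_link T A U x).trans hc
  have h8 : 0 ≤ pe φ' (fun x => nz T A (ow U x)) := pe_nonneg hφ' fun x => nz_nonneg _ _ _
  have h9 : pe φ (ti U) ≤ 1 := by
    have h10 := pe_mono hφ (g := ti U) (h := fun _ => 1) fun x => ti_le_one U x
    rwa [pe_const hφ] at h10
  have h11 : 0 ≤ pe φ (ti U) := pe_nonneg hφ fun x => ti_nonneg U x
  have h12 := hpe (nz T A)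
  rw [h12]
  calc pe φ (ti U) * pe φ' (fun x => nz T A (ow U x))
      ≤ 1 * pe φ' (fun x => nz T A (ow U x)) := mul_le_mul_of_nonneg_right h9 h8
    _ ≤ δ := by linarith

end Pool.Agent.Work.MP_56168e_lc.AD
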