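import Mathlib
import Pool.Agent.Work.MP_56168e_lc.AD.Defs
import Pool.Agent.Work.MP_56168e_lc.IndF
import Pool.Agent.Work.MP_56168e_lc.TiF
import Pool.Agent.Work.MP_56168e_lc.Nrm
set_option autoImplicit false

/-!
Many disjoint heavy partial assignments.  PROOF.  Pointwise nz T A x ≤ ∏_{P in F} (1 - ti P x) +
∑_{P in F} ti P x * nz T A x (if some P is satisfied the sum is at least nz T A x, otherwise the product is 1
and nz ≤ 1).  pe φ of the product ≤ ex + ε nrm (fool); ex = ∏ (1 - pw P) ≤ (1 - (1/2)^l)^M by independence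
(ex_prod_indep in IndF with U P = (dom P)ᶜ or its exact hypotheses; see ProdTi/IndF), as
pw P = (1/2)^|dom P| ≥ (1/2)^l; nrm ≤ ∏ (1 + nrm (ti P)) ≤ 2^M (nrm_mul_le, nrm_sub_le, nrm_const,
nrm_ti, induction on F).
-/

namespace Pool.Agent.Work.MP_56168e_lc.AD

open Finset Pool.Agent.Work.MP_56168e_lc

variable {n s : ℕ}

private theorem many_pt {T : Fin s → PA n} {A : Finset (Fin s)} (F : Finset (PA n)) (x : Cube n) :
    nz T A x ≤ ∏ P ∈ F, (1 - ti P x) + ∑ P ∈ F, ti P x * nz T A x := by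
  have hz := nz_nonneg T A x
  have hs0 : ∀ P ∈ F, 0 ≤ ti P x * nz T A x := fun P _ => mul_nonneg (ti_nonneg P x) hz
  by_cases h : ∃ P ∈ F, Sat P x
  · obtain ⟨P, hP, hs⟩ := h
    have h1 : ti P x = 1 := by
      unfold ti
      rw [if_pos hs]
    have h2 := single_le_sum hs0 hP
    rw [h1, one_mul] at h2
    have h3 : 0 ≤ ∏ P ∈ F, (1 - ti P x) :=
      prod_nonneg fun Q _ => sub_nonneg.2 (ti_le_one Q x)
    linarith
  · have h1 : ∏ P ∈ F, (1 - ti P x) = 1 := by
      refine prod_eq_one fun P hP => ?_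
      have h2 : ti P x = 0 := by
        unfold ti
        rw [if_neg fun h3 => h ⟨P, hP, h3⟩]
      rw [h2, sub_zero]
    have h2 : 0 ≤ ∑ P ∈ F, ti P x * nz T A x := sum_nonneg hs0
    have h3 := nz_le_one T A x
    rw [h1]
    linarith

private theorem many_nrm (F : Finset (PA n)) :
    nrm (fun x => ∏ P ∈ F, (1 - ti P x)) ≤ 2 ^ F.card := by
  classical
  induction F using Finset.induction_on with
  | empty =>
    have h1 : (fun x : Cube n => ∏ P ∈ (∅ : Finset (PA n)), (1 - ti P x)) = fun _ => 1 := by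
      funext x
      simp
    rw [h1, nrm_const]
    simp
  | insert a F ha ih =>
    have h1 : (fun x : Cube n => ∏ P ∈ insert a F, (1 - ti P x)) =
        fun x => (1 - ti a x) * ∏ P ∈ F, (1 - ti P x) := by
      funext x
      rw [prod_insert ha]
    rw [h1, card_insert_of_notMem ha, pow_succ]
    refine (nrm_mul_le _ _).trans ?_
    have h2 : nrm (fun x : Cube n => 1 - ti a x) ≤ 2 := by
      refine (nrm_sub_le (fun _ => 1) (ti a)).trans ?_
      rw [nrm_const]
      have := nrm_ti a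
      rw [abs_one]
      linarith
    rw [mul_comm]
    exact mul_le_mul ih h2 (nrm_nonneg _) (by positivity)

private theorem many_ex {l : ℕ} (F : Finset (PA n))
    (hdisj : ∀ P ∈ F, ∀ Q ∈ F, P ≠ Q → Disjoint (dom P) (dom Q))
    (hl : ∀ P ∈ F, (dom P).card ≤ l) :
    ex (fun x => ∏ P ∈ F, (1 - ti P x)) ≤ (1 - (1 / 2) ^ l) ^ F.card := by
  classical
  rw [ex_prod_indep F (fun P x => 1 - ti P x) dom ?_ hdisj]
  · rw [← prod_const]
    refine prod_le_prod (fun P _ => ex_nonneg fun x => sub_nonneg.2 (ti_le_one P x))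
      fun P hP => ?_
    have h1 : ex (fun x : Cube n => 1 - ti P x) = 1 - pw P := by
      rw [ex_sub (fun _ => 1) (ti P), ex_const, ex_ti]
    rw [h1]
    have h2 : (1 / 2 : ℝ) ^ l ≤ pw P := by
      unfold pw
      exact pow_le_pow_of_le_one (by norm_num) (by norm_num) (hl P hP)
    linarith
  · intro P _ x y hxy
    have h1 := indep_ti P (U := (dom P)ᶜ) disjoint_compl_right x y hxy
    show 1 - ti P x = 1 - ti P y
    rw [h1]

theorem many {T : Fin s → PA n} {A : Finset (Fin s)} {l : ℕ} {δ ε : ℝ} (F : Finset (PA n))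
    (hdisj : ∀ P ∈ F, ∀ Q ∈ F, P ≠ Q → Disjoint (dom P) (dom Q))
    (hl : ∀ P ∈ F, (dom P).card ≤ l) (hε : 0 ≤ ε) {φ : Cube n → ℝ} (hφ : Dens ε φ)
    (h1 : ∀ P ∈ F, pe φ (fun x => ti P x * nz T A x) ≤ δ) :
    pe φ (nz T A) ≤ (1 - (1 / 2) ^ l) ^ F.card + ε * 2 ^ F.card + F.card * δ := by
  have h2 := pe_mono hφ (many_pt (T := T) (A := A) F)
  rw [pe_add φ (fun x => ∏ P ∈ F, (1 - ti P x)) (fun x => ∑ P ∈ F, ti P x * nz T A x),
    pe_sum φ F (fun P x => ti P x * nz T A x)] at h2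
  have h3 : ∑ P ∈ F, pe φ (fun x => ti P x * nz T A x) ≤ F.card * δ := by
    rw [← nsmul_eq_mul]
    exact sum_le_card_nsmul _ _ _ h1
  have h4 := (abs_le.1 (fool hφ hε (fun x => ∏ P ∈ F, (1 - ti P x)))).2
  have h5 := mul_le_mul_of_nonneg_left (many_nrm F) hε
  have h6 := many_ex F hdisj hl
  linarith

end Pool.Agent.Work.MP_56168e_lc.AD
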