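import Mathlib
import Pool.Agent.Work.MP_56168e_lc.AD.Defs
import Pool.Agent.Work.MP_56168e_lc.AD.LinkCert
import Pool.Agent.Work.MP_56168e_lc.AD.Many
import Pool.Agent.Work.MP_56168e_lc.AD.Hit
import Pool.Agent.Work.MP_56168e_lc.AD.CondV
import Pool.Agent.Work.MP_56168e_lc.AD.DdCond
set_option autoImplicit false

/-!
One round.  PROOF.  Λ = GG^(l-r) ≥ 1, F = the U : PA n with |dom U| = r and cF Λ ≤ dd T A U (a Finset filter of
univ).  hit F r M.
First case, G ⊆ F with M elements, pairwise disjoint domains: for P in G link_cert (Λ, w1 = wb, δ1; hst has the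
right form since |dom P| = r; 32 ε 2^l s^2 ≤ δ1/2 from h3 and ε ≤ ε0) gives pe φ (ti P * nz T A) ≤ δ1;
many (with l, δ1): pe φ (nz T A) ≤ (1-(1/2)^l)^M + ε 2^M + M δ1 ≤ δ/16 + δ/16 (hM, h4); the same for
the constant density 1; 0 ≤ two T B A ≤ nz T A, so the difference is ≤ δ/8.
Second case, V with |V| ≤ r M ≤ l M meeting the domain of every P in F: cond_v with ε' = 2 ε 2^(l M) ≤ 1 (h6).
For dom σ = V apply IH to rf σ T, al σ T B, al σ T A: des_rf; dom_rf_le; le_dom_rf; St from dd_cond with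
K = cF Λ (a U with |dom U| = r and dom U disjoint from V is not in F, so dd T A U < cF Λ), monotone in the
bound: cF Λ + 2^|V| Λ ≤ GG Λ = GG^(l-(r-1)).  Total E + 2^|V| ε ≤ E + δ/(16(l+1)) by h5.
-/

namespace Pool.Agent.Work.MP_56168e_lc.AD

open Finset Pool.Agent.Work.MP_56168e_lc

variable {n s : ℕ}

private lemma isp_cF {l : ℕ} {δ : ℝ} (h0 : 0 < δ) (h1 : δ ≤ 1) : 1 ≤ cF l δ := by
  rw [cF, le_div_iff₀ h0]
  have : (1 : ℝ) ≤ 2 ^ (l + 6) := one_le_pow₀ (by norm_num)
  linarith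

private lemma isp_GG {l M : ℕ} {δ : ℝ} (h0 : 0 < δ) (h1 : δ ≤ 1) : 1 ≤ GG l M δ := by
  have h2 := isp_cF (l := l) h0 h1
  have h3 : (1 : ℝ) ≤ 2 ^ (l * M) := one_le_pow₀ (by norm_num)
  rw [GG]
  linarith

open Classical in
private lemma isp_chi {S : Finset (Fin n)} (hS : S.Nonempty) : ex (chi S) = 0 := by
  obtain ⟨i, hi⟩ := hS
  have h1 : ∑ x : Cube n, chi S x = 0 := by
    refine Finset.sum_involution (fun x _ => Function.update x i (!(x i))) ?_ ?_ ?_ ?_
    · intro x _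
      have h2 : chi S (Function.update x i (!(x i))) = - chi S x := by
        rw [chi, chi, ← Finset.mul_prod_erase S _ hi, ← Finset.mul_prod_erase S _ hi]
        have h3 : ∏ j ∈ S.erase i, (if Function.update x i (!(x i)) j = true then (-1 : ℝ) else 1) =
            ∏ j ∈ S.erase i, (if x j = true then (-1 : ℝ) else 1) := by
          refine Finset.prod_congr rfl fun j hj => ?_
          rw [Function.update_of_ne (Finset.ne_of_mem_erase hj)]
        rw [h3, Function.update_self]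
        cases x i <;> simp
      rw [h2]
      ring
    · intro x _ _ h
      have h2 := congrFun h i
      rw [Function.update_self] at h2
      cases hx : x i <;> simp [hx] at h2
    · intro x _
      exact Finset.mem_univ _
    · intro x _
      simp
  rw [ex, h1, zero_div]

private lemma isp_one {ε : ℝ} (hε : 0 ≤ ε) : Dens ε (fun _ : Cube n => (1 : ℝ)) := by
  refine ⟨fun _ => zero_le_one, ex_const 1, fun S hS => ?_⟩
  have h1 : fc (fun _ : Cube n => (1 : ℝ)) S = 0 := by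
    rw [fc]
    simp only [one_mul]
    exact isp_chi hS
  rw [h1, abs_zero]
  exact hε

private lemma isp_pe_mono {ε : ℝ} {φ g h : Cube n → ℝ} (hφ : Dens ε φ) (H : ∀ x, g x ≤ h x) :
    pe φ g ≤ pe φ h := by
  unfold pe
  exact ex_mono fun x => mul_le_mul_of_nonneg_left (H x) (hφ.nonneg x)

private lemma isp_pe_nonneg {ε : ℝ} {φ g : Cube n → ℝ} (hφ : Dens ε φ) (H : ∀ x, 0 ≤ g x) :
    0 ≤ pe φ g := by
  unfold pe
  exact ex_nonneg fun x => mul_nonneg (hφ.nonneg x) (H x)

private lemma isp_nz0 (T : Fin s → PA n) (A : Finset (Fin s)) (x : Cube n) : 0 ≤ nz T A x := by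
  unfold nz
  split_ifs <;> norm_num

private lemma isp_nz1 (T : Fin s → PA n) (A : Finset (Fin s)) (x : Cube n) : nz T A x ≤ 1 := by
  unfold nz
  split_ifs <;> norm_num

private lemma isp_two0 (T : Fin s → PA n) (B A : Finset (Fin s)) (x : Cube n) :
    0 ≤ two T B A x := mul_nonneg (isp_nz0 T B x) (isp_nz0 T A x)

private lemma isp_two1 (T : Fin s → PA n) (B A : Finset (Fin s)) (x : Cube n) :
    two T B A x ≤ nz T A x := by
  have h := mul_le_mul_of_nonneg_right (isp_nz1 T B x) (isp_nz0 T A x)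
  rw [one_mul] at h
  exact h

theorem ind_step {l W w wb M R : ℕ} {δ δ1 η ε1 ε0 : ℝ} (hP : Pm s l W w wb M R δ δ1 η ε1 ε0)
    {r : ℕ} (hr : 1 ≤ r) (hrl : r ≤ l) {E ε : ℝ} (hε : 0 ≤ ε) (hεε : ε ≤ ε0) (hE : 0 ≤ E)
    (IH : ∀ (n : ℕ) (T : Fin s → PA n) (B A : Finset (Fin s)) (ψ : Cube n → ℝ), Des T A l →
      (∀ i ∈ A, (dom (T i)).card ≤ W) → (∀ i ∈ A, wb + l + (r - 1) * (l * M) ≤ (dom (T i)).card) →
      (∀ i ∈ B, (dom (T i)).card ≤ w) → St T A (r - 1) (GG l M δ1 ^ (l - (r - 1))) →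
      Dens (2 * ε * 2 ^ (l * M)) ψ → |pe ψ (two T B A) - ex (two T B A)| ≤ E)
    {T : Fin s → PA n} {B A : Finset (Fin s)} (hdes : Des T A l)
    (hW : ∀ i ∈ A, (dom (T i)).card ≤ W)
    (hw : ∀ i ∈ A, wb + l + r * (l * M) ≤ (dom (T i)).card)
    (hB : ∀ i ∈ B, (dom (T i)).card ≤ w) (hst : St T A r (GG l M δ1 ^ (l - r))) {φ : Cube n → ℝ}
    (hφ : Dens ε φ) :
    |pe φ (two T B A) - ex (two T B A)| ≤ max (δ / 8) (E + δ / (16 * (l + 1))) := by
  classical
  obtain ⟨Λ, hΛe⟩ : ∃ Λ, Λ = GG l M δ1 ^ (l - r) := ⟨_, rfl⟩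
  rw [← hΛe] at hst
  have hcF := isp_cF (l := l) hP.hδ1 hP.hδ11
  have hGG := isp_GG (l := l) (M := M) hP.hδ1 hP.hδ11
  have hΛ : 1 ≤ Λ := by
    rw [hΛe]
    exact one_le_pow₀ hGG
  obtain ⟨F, hF⟩ : ∃ F : Finset (PA n), ∀ U, U ∈ F ↔ (dom U).card = r ∧ cF l δ1 * Λ ≤ dd T A U :=
    ⟨univ.filter (fun U => (dom U).card = r ∧ cF l δ1 * Λ ≤ dd T A U), fun U => by simp⟩
  rcases hit F r M hr (fun P hP' => ((hF P).1 hP').1) with ⟨G, hGF, hGM, hdisj⟩ | ⟨V, hVc, hV⟩
  · refine le_trans ?_ (le_max_left _ _)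
    have key : ∀ ψ : Cube n → ℝ, Dens ε ψ → pe ψ (nz T A) ≤ δ / 8 := by
      intro ψ hψ
      have h1 : ∀ P ∈ G, pe ψ (fun x => ti P x * nz T A x) ≤ δ1 := by
        intro P hPG
        obtain ⟨hc, hm⟩ := (hF P).1 (hGF hPG)
        have hst' : St T A (dom P).card Λ := by rw [hc]; exact hst
        have hεs : 32 * ε * 2 ^ l * (s : ℝ) ^ 2 ≤ δ1 / 2 := by
          refine le_trans ?_ hP.h3
          have : (0 : ℝ) ≤ 2 ^ l * (s : ℝ) ^ 2 := by positivity
          nlinarith [mul_le_mul_of_nonneg_right hεε this]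
        exact link_cert (w1 := wb) hP.hs hdes hW
          (fun i hi => le_trans (Nat.le_add_right _ _) (hw i hi)) hΛ (by rw [hc]; exact hrl) hst'
          hP.hδ1 hP.hδ11 hm hP.h7 hε hεs hψ
      have h2 := many (T := T) (A := A) (l := l) G hdisj
        (fun P hPG => by rw [((hF P).1 (hGF hPG)).1]; exact hrl) hε hψ h1
      rw [hGM] at h2
      have h3 := hP.hM
      have h4 : ε * 2 ^ M ≤ δ / 16 :=
        (mul_le_mul_of_nonneg_right hεε (by positivity)).trans hP.h4
      linarith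
    have h1 := key φ hφ
    have h2 := key _ (isp_one hε)
    have h3 : ex (two T B A) ≤ δ / 8 := by
      refine le_trans (ex_mono (isp_two1 T B A)) ?_
      have h4 : pe (fun _ : Cube n => (1 : ℝ)) (nz T A) = ex (nz T A) := by
        unfold pe
        exact ex_congr fun x => one_mul _
      rw [← h4]
      exact h2
    have h4 : pe φ (two T B A) ≤ δ / 8 := (isp_pe_mono hφ (isp_two1 T B A)).trans h1
    have h5 : 0 ≤ pe φ (two T B A) := isp_pe_nonneg hφ (isp_two0 T B A)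
    have h6 : 0 ≤ ex (two T B A) := ex_nonneg (isp_two0 T B A)
    rw [abs_le]
    constructor <;> linarith
  · refine le_trans ?_ (le_max_right _ _)
    have hVl : V.card ≤ l * M := hVc.trans (Nat.mul_le_mul_right M hrl)
    have hpow : (2 : ℝ) ^ V.card ≤ 2 ^ (l * M) := pow_le_pow_right₀ (by norm_num) hVl
    have hε' : 2 * ε * 2 ^ V.card ≤ 2 * ε * 2 ^ (l * M) :=
      mul_le_mul_of_nonneg_left hpow (by linarith)
    have hε'1 : 2 * ε * 2 ^ (l * M) ≤ 1 := by
      refine le_trans ?_ hP.h6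
      exact mul_le_mul_of_nonneg_right (by linarith) (by positivity)
    have hH : ∀ σ : PA n, dom σ = V → ∀ ψ : Cube n → ℝ, Dens (2 * ε * 2 ^ (l * M)) ψ →
        |pe ψ (two (rf σ T) (al σ T B) (al σ T A)) - ex (two (rf σ T) (al σ T B) (al σ T A))| ≤
          E := by
      intro σ hσ ψ hψ
      have hmem : ∀ (C : Finset (Fin s)) (i : Fin s), i ∈ al σ T C → i ∈ C := by
        intro C i hi
        exact (mem_filter.1 hi).1
      refine IH n (rf σ T) (al σ T B) (al σ T A) ψ (des_rf hdes σ) ?_ ?_ ?_ ?_ hψ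
      · intro i hi
        exact (dom_rf_le σ T i).trans (hW i (hmem A i hi))
      · intro i hi
        have h1 := hw i (hmem A i hi)
        have h2 := le_dom_rf σ T i
        rw [hσ] at h2
        have h3 : r * (l * M) = (r - 1) * (l * M) + l * M := by
          obtain ⟨k, rfl⟩ : ∃ k, r = k + 1 := ⟨r - 1, by omega⟩
          rw [Nat.add_sub_cancel]
          ring
        omega
      · intro i hi
        exact (dom_rf_le σ T i).trans (hB i (hmem B i hi))
      · have hK : Λ ≤ cF l δ1 * Λ := by nlinarith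
        have h1 := dd_cond (σ := σ) (by linarith : (0 : ℝ) ≤ Λ) hK hr hst V (fun U hU hUV => by
          by_contra hcon
          push Not at hcon
          exact hV U ((hF U).2 ⟨hU, hcon.le⟩) hUV) hσ
        intro U hU
        refine (h1 U hU).trans ?_
        have h2 : l - (r - 1) = (l - r) + 1 := by omega
        rw [h2, pow_succ, ← hΛe]
        have h3 : GG l M δ1 = cF l δ1 + 2 ^ (l * M) := rfl
        rw [h3]
        nlinarith [mul_le_mul_of_nonneg_right hpow (by linarith : (0 : ℝ) ≤ Λ)]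
    have h1 := cond_v T B A V hε hε' hε'1 hE hH hφ
    refine h1.trans ?_
    have h2 : (2 : ℝ) ^ V.card * ε ≤ δ / (16 * (l + 1)) := by
      refine le_trans ?_ hP.h5
      calc (2 : ℝ) ^ V.card * ε ≤ 2 ^ (l * M) * ε := mul_le_mul_of_nonneg_right hpow hε
        _ ≤ 2 ^ (l * M) * ε0 := mul_le_mul_of_nonneg_left hεε (by positivity)
    linarith

end Pool.Agent.Work.MP_56168e_lc.AD
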