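import Mathlib
import Pool.Agent.Work.MP_56168e_lc.AD.Defs

set_option autoImplicit false

/-!
Product of term indicators.  PROOF.  If two of the terms contradict each other (Fal (T i) (T j), i, j in I) then
the product is 0 everywhere.  Otherwise put P v = T i v for any i in I with v in dom (T i) (choice), none if
there is no such i; then dom P is the union and Sat P x iff Sat (T i) x for all i in I.  (Or induction
on I, merging two partial assignments with un.)
-/

namespace Pool.Agent.Work.MP_56168e_lc.AD

open Finset Pool.Agent.Work.MP_56168e_lc

variable {n s : ℕ}

theorem merge (T : Fin s → PA n) (I : Finset (Fin s)) :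
    (∀ x, ∏ i ∈ I, ti (T i) x = 0) ∨
      ∃ P : PA n, dom P = I.biUnion (fun i => dom (T i)) ∧ ∀ x, ∏ i ∈ I, ti (T i) x = ti P x := by
  classical
  induction I using Finset.induction_on with
  | empty =>
    refine Or.inr ⟨fun _ => none, ?_, fun x => ?_⟩
    · ext i
      simp [dom]
    · rw [Finset.prod_empty, ti, if_pos]
      intro i b hb
      exact absurd hb (by simp)
  | insert a I ha ih =>
    rcases ih with ih | ⟨P, hP, hx⟩
    · left
      intro x
      rw [Finset.prod_insert ha, ih x, mul_zero]
    · by_cases hf : Fal (T a) P
      · left
        intro x
        rw [Finset.prod_insert ha, hx x]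
        obtain ⟨i, b, b', h1, h2, h3⟩ := hf
        by_cases hs : Sat (T a) x
        · have hn : ¬ Sat P x := by
            intro hp
            exact h3 ((hs i b h1).symm.trans (hp i b' h2))
          rw [ti, ti, if_neg hn, mul_zero]
        · rw [ti, if_neg hs, zero_mul]
      · right
        refine ⟨un (T a) P, ?_, fun x => ?_⟩
        · rw [Finset.biUnion_insert, ← hP]
          ext i
          simp only [dom, un, mem_filter, mem_univ, true_and, mem_union]
          by_cases h : T a i = none
          · simp [h]
          · simp [h]
        · rw [Finset.prod_insert ha, hx x]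
          have key : Sat (un (T a) P) x ↔ Sat (T a) x ∧ Sat P x := by
            constructor
            · intro h
              refine ⟨fun i b hb => h i b ?_, fun i b hb => ?_⟩
              · simp [un, hb]
              · by_cases h1 : T a i = none
                · exact h i b (by simp [un, h1, hb])
                · obtain ⟨c, hc⟩ := Option.ne_none_iff_exists'.1 h1
                  have h2 : x i = c := h i c (by simp [un, hc])
                  by_contra h3
                  exact hf ⟨i, c, b, hc, hb, fun h4 => h3 (h2.trans h4)⟩
            · rintro ⟨h1, h2⟩ i b hb
              by_cases h3 : T a i = none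
              · exact h2 i b (by simpa [un, h3] using hb)
              · exact h1 i b (by simpa [un, h3] using hb)
          by_cases h1 : Sat (T a) x <;> by_cases h2 : Sat P x
          · rw [ti, ti, ti, if_pos h1, if_pos h2, if_pos (key.2 ⟨h1, h2⟩), mul_one]
          · rw [ti, ti, ti, if_pos h1, if_neg h2, if_neg (fun h => h2 (key.1 h).2), mul_zero]
          · rw [ti, ti, ti, if_neg h1, if_pos h2, if_neg (fun h => h1 (key.1 h).1), zero_mul]
          · rw [ti, ti, ti, if_neg h1, if_neg h2, if_neg (fun h => h1 (key.1 h).1), zero_mul]

end Pool.Agent.Work.MP_56168e_lc.AD
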