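import Mathlib
import Pool.Agent.Work.MP_56168e_lc.AD.Defs
import Pool.Agent.Work.MP_56168e_lc.AD.Merge
import Pool.Agent.Work.MP_56168e_lc.AD.Res
import Pool.Agent.Work.MP_56168e_lc.Cond
import Pool.Agent.Work.MP_56168e_lc.TiF
set_option autoImplicit false

/-!
One set of terms.  PROOF.  As delta_I in Work/MP_56168e_lc/DeltaI.lean, simpler.  merge for I: if the product
vanishes everything is 0.  Otherwise P with |dom P| ≤ ∑ |dom (T i)| ≤ R W; 2 ε ≤ pw P from hεε (ε1 ≤ 1);
cond: φ' with Dens ε1 φ' (mono), pe φ (ti P * nz T B) = pe φ (ti P) * pe φ' (nz (rf P T) (al P T B))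
(nz_rf), ex likewise with pw P; the widths of rf P T are ≤ w; hWF gives the error η;
|pe φ (ti P) - pw P| ≤ ε; u a - p b = (u - p) a + p (a - b).
-/

namespace Pool.Agent.Work.MP_56168e_lc.AD

open Finset Pool.Agent.Work.MP_56168e_lc

variable {n s : ℕ}

theorem del_I (T : Fin s → PA n) (B I : Finset (Fin s)) {W w R : ℕ} {η ε ε1 : ℝ}
    (hW : ∀ i ∈ I, (dom (T i)).card ≤ W) (hB : ∀ i ∈ B, (dom (T i)).card ≤ w) (hI : I.card ≤ R)
    (hWF : WF s w η ε1) (hη : 0 ≤ η) (hε1 : ε1 ≤ 1) (hε : 0 ≤ ε)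
    (hεε : 2 * ε * 2 ^ (R * W) ≤ ε1) {φ : Cube n → ℝ} (hφ : Dens ε φ) :
    |pe φ (fun x => nz T B x * ∏ i ∈ I, ti (T i) x)
      - ex (fun x => nz T B x * ∏ i ∈ I, ti (T i) x)| ≤ ε + η * ex (fun x => ∏ i ∈ I, ti (T i) x) := by
  classical
  rcases merge T I with h0 | ⟨P, hPd, hPt⟩
  · have e1 : (fun x => nz T B x * ∏ i ∈ I, ti (T i) x) = fun _ => (0 : ℝ) := by
      funext x
      rw [h0 x, mul_zero]
    have e2 : (fun x => ∏ i ∈ I, ti (T i) x) = fun _ => (0 : ℝ) := funext h0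
    rw [e1, e2, pe_const hφ, ex_const, sub_zero, abs_zero, mul_zero, add_zero]
    exact hε
  · have hcard : (dom P).card ≤ R * W := by
      rw [hPd]
      refine card_biUnion_le.trans ?_
      refine (sum_le_card_nsmul I _ W hW).trans ?_
      rw [smul_eq_mul]
      exact Nat.mul_le_mul_right W hI
    have hpow : (2 : ℝ) ^ (dom P).card ≤ 2 ^ (R * W) :=
      pow_le_pow_right₀ (by norm_num) hcard
    have hb : 2 * ε * 2 ^ (dom P).card ≤ ε1 :=
      (mul_le_mul_of_nonneg_left hpow (by linarith)).trans hεε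
    have h2ε : 2 * ε ≤ pw P := by
      unfold pw
      have h3 : (1 / 2 : ℝ) ^ (dom P).card = 1 / 2 ^ (dom P).card := by
        rw [one_div, inv_pow, one_div]
      rw [h3, le_div_iff₀ (by positivity)]
      exact hb.trans hε1
    obtain ⟨φ', hφ', hc⟩ := cond hφ hε P h2ε
    have hφ1 := hφ'.mono hb
    have e0 : (fun x => nz T B x * ∏ i ∈ I, ti (T i) x) = fun x => ti P x * nz T B x := by
      funext x
      rw [hPt x, mul_comm]
    have e1 : (fun x => nz T B (ow P x)) = nz (rf P T) (al P T B) := by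
      funext x
      rw [nz_rf]
    have e2 : (fun x => ∏ i ∈ I, ti (T i) x) = ti P := funext hPt
    have h3 := hWF n (rf P T) (al P T B) φ' (fun i hi =>
      (dom_rf_le P T i).trans (hB i (Finset.mem_filter.1 hi).1)) hφ1
    rw [e0, hc, ex_ti_mul, e1, e2, ex_ti]
    set a := pe φ' (nz (rf P T) (al P T B)) with ha
    set b := ex (nz (rf P T) (al P T B)) with hb'
    set u := pe φ (ti P) with hu
    have ha0 : 0 ≤ a := pe_nonneg hφ' fun x => nz_nonneg _ _ x
    have ha1 : a ≤ 1 := by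
      have h4 := pe_mono hφ' (g := nz (rf P T) (al P T B)) (h := fun _ => 1)
        fun x => nz_le_one _ _ x
      rwa [pe_const hφ'] at h4
    have h5 : |u - pw P| ≤ ε := by
      have h6 := fool hφ hε (ti P)
      rw [ex_ti] at h6
      have h7 := mul_le_mul_of_nonneg_left (nrm_ti P) hε
      linarith
    have e4 : u * a - pw P * b = (u - pw P) * a + pw P * (a - b) := by ring
    rw [e4]
    refine (abs_add_le _ _).trans ?_
    rw [abs_mul, abs_mul, abs_of_nonneg ha0, abs_of_pos (pw_pos P)]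
    have h8 : |u - pw P| * a ≤ ε * 1 := mul_le_mul h5 ha1 ha0 hε
    have h9 := mul_le_mul_of_nonneg_left h3 (pw_pos P).le
    linarith

end Pool.Agent.Work.MP_56168e_lc.AD
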