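import Mathlib
import Pool.Agent.Work.MP_56168e_lc.AD.Defs
import Pool.Agent.Work.MP_56168e_lc.AD.PairA
import Pool.Agent.Work.MP_56168e_lc.AD.Bad
import Pool.Agent.Work.MP_56168e_lc.AD.Merge
set_option autoImplicit false

/-!
One more term.  PROOF.  merge for I.  If the product vanishes both sides are 0.  Otherwise with P:
∑_{i in A \ I} ex (ti P * ti (T i)) ≤ pw P * ∑_{i in A \ I} pw (rt P (T i)) (ex_ti_ti, PairA), and
pw (rt P (T i)) = 2^|dom P ∩ dom (T i)| pw (T i) (pw_rt).  |dom P ∩ dom (T i)| ≤ ∑_{a in I}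
|dom (T a) ∩ dom (T i)| ≤ |I| l ≤ R l.  If |dom (T i) ∩ dom P| ≤ l: at most 2^l pw (T i), the sum over these i
is at most 2^l mass T A.  The other i: at most |dom P|^(l+1) ≤ (R W)^(l+1) of them (bad_card), each
at most 2^(R l) / 2^w1.  ex (∏ ti) = ex (ti P) = pw P.
-/

namespace Pool.Agent.Work.MP_56168e_lc.AD

open Finset Pool.Agent.Work.MP_56168e_lc

variable {n s : ℕ}

private theorem step_ex_ti (P : PA n) : ex (fun x => ti P x) = pw P := by
  have h1 := ex_ti_mul P (fun _ => (1 : ℝ))
  have h2 : ex (fun _ : Cube n => (1 : ℝ)) = 1 := by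
    unfold ex
    rw [Finset.sum_const, Finset.card_univ]
    simp
  rw [h2, mul_one] at h1
  simpa only [mul_one] using h1

private theorem step_pw_nonneg (P : PA n) : 0 ≤ pw P := by
  unfold pw
  positivity

theorem one_more {T : Fin s → PA n} {A : Finset (Fin s)} {l W w1 R : ℕ} (hdes : Des T A l)
    (hW : ∀ i ∈ A, (dom (T i)).card ≤ W) (hw : ∀ i ∈ A, w1 ≤ (dom (T i)).card) {K : ℝ}
    (hK : 2 ^ l * mass T A + ((R * W : ℕ) : ℝ) ^ (l + 1) * 2 ^ (R * l) / 2 ^ w1 ≤ K)
    (I : Finset (Fin s)) (hI : I ⊆ A) (hIR : I.card ≤ R) :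
    ∑ i ∈ A \ I, ex (fun x => (∏ a ∈ I, ti (T a) x) * ti (T i) x)
      ≤ K * ex (fun x => ∏ a ∈ I, ti (T a) x) := by
  classical
  rcases merge T I with h0 | ⟨P, hP, hPx⟩
  · simp only [h0, zero_mul]
    have h1 : ex (fun _ : Cube n => (0 : ℝ)) = 0 := by
      unfold ex
      rw [Finset.sum_const_zero, zero_div]
    rw [h1, mul_zero, Finset.sum_const_zero]
  · simp only [hPx]
    rw [step_ex_ti]
    have hdomP : (dom P).card ≤ R * W := by
      rw [hP]
      refine (Finset.card_biUnion_le_card_mul I _ W fun i hi => hW i (hI hi)).trans ?_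
      exact Nat.mul_le_mul_right W hIR
    have hint : ∀ i ∈ A \ I, (dom P ∩ dom (T i)).card ≤ R * l := by
      intro i hi
      rw [Finset.mem_sdiff] at hi
      rw [hP, Finset.biUnion_inter]
      refine (Finset.card_biUnion_le_card_mul I _ l fun a ha => ?_).trans
        (Nat.mul_le_mul_right l hIR)
      exact hdes a (hI ha) i hi.1 (fun h => hi.2 (h ▸ ha))
    have hterm : ∀ i ∈ A \ I, ex (fun x => ti P x * ti (T i) x) ≤
        pw P * (2 ^ l * pw (T i) + if l < (dom (T i) ∩ dom P).card then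
          (2 : ℝ) ^ (R * l) / 2 ^ w1 else 0) := by
      intro i hi
      have h1 : ex (fun x => ti P x * ti (T i) x) ≤ pw P * pw (rt P (T i)) := by
        rw [ex_ti_ti]
        split_ifs
        · exact mul_nonneg (step_pw_nonneg _) (step_pw_nonneg _)
        · exact le_refl _
      refine h1.trans (mul_le_mul_of_nonneg_left ?_ (step_pw_nonneg _))
      rw [pw_rt]
      have hpi := step_pw_nonneg (T i)
      split_ifs with hl
      · have h2 : (2 : ℝ) ^ (dom P ∩ dom (T i)).card ≤ 2 ^ (R * l) :=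
          pow_le_pow_right₀ (by norm_num) (hint i hi)
        have h3 : pw (T i) ≤ 1 / 2 ^ w1 := by
          unfold pw
          rw [one_div, inv_pow, ← one_div]
          exact one_div_le_one_div_of_le (by positivity)
            (pow_le_pow_right₀ (by norm_num) (hw i (Finset.mem_sdiff.1 hi).1))
        have h4 : (2 : ℝ) ^ (dom P ∩ dom (T i)).card * pw (T i) ≤ 2 ^ (R * l) * (1 / 2 ^ w1) :=
          mul_le_mul h2 h3 hpi (by positivity)
        have h5 : (2 : ℝ) ^ (R * l) * (1 / 2 ^ w1) = 2 ^ (R * l) / 2 ^ w1 := by ring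
        have h6 : 0 ≤ (2 : ℝ) ^ l * pw (T i) := by positivity
        linarith
      · rw [add_zero]
        refine mul_le_mul_of_nonneg_right ?_ hpi
        refine pow_le_pow_right₀ (by norm_num) ?_
        rw [Finset.inter_comm]
        omega
    refine (Finset.sum_le_sum hterm).trans ?_
    rw [← Finset.mul_sum, mul_comm K]
    refine mul_le_mul_of_nonneg_left (le_trans ?_ hK) (step_pw_nonneg _)
    rw [Finset.sum_add_distrib, ← Finset.mul_sum]
    refine add_le_add ?_ ?_
    · unfold mass
      refine mul_le_mul_of_nonneg_left ?_ (by positivity)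
      exact Finset.sum_le_sum_of_subset_of_nonneg Finset.sdiff_subset
        fun i _ _ => step_pw_nonneg _
    · have h1 : ∑ i ∈ A \ I, (if l < (dom (T i) ∩ dom P).card then
          (2 : ℝ) ^ (R * l) / 2 ^ w1 else 0) ≤
          ∑ i ∈ A, (if l < (dom (T i) ∩ dom P).card then (2 : ℝ) ^ (R * l) / 2 ^ w1 else 0) := by
        refine Finset.sum_le_sum_of_subset_of_nonneg Finset.sdiff_subset fun i _ _ => ?_
        split_ifs
        · positivity
        · exact le_refl _
      refine h1.trans ?_
      rw [← Finset.sum_filter, Finset.sum_const, nsmul_eq_mul, mul_div_assoc]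
      refine mul_le_mul_of_nonneg_right ?_ (by positivity)
      have h2 := bad_card hdes (dom P)
      have h3 : (dom P).card ^ (l + 1) ≤ (R * W) ^ (l + 1) := Nat.pow_le_pow_left hdomP _
      exact_mod_cast h2.trans h3

end Pool.Agent.Work.MP_56168e_lc.AD
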