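import Mathlib
import Pool.Agent.Work.MP_56168e_lc.AD.Defs
import Pool.Agent.Work.MP_56168e_lc.AD.Step
set_option autoImplicit false

/-!
Factorial moments.  PROOF.  Induction on r.  (r+1) * ∑_{|J| = r+1} g J = ∑_{|I| = r} ∑_{i in A \ I}
g (insert i I) with g J = ex (∏_{J} ti) (pairs (J, i in J) correspond to pairs (I, i not in I):
Finset.sum_bij' or sum_sigma', or the known lemma Finset.sum_powersetCard_succ-like), the product over
insert i I is the product over I times ti (T i); one_more: the inner sum is at most K g I.  So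
(r+1) e_{r+1} ≤ K e_r ≤ K K^r / r!.  K ≥ 0 by hK.
-/

namespace Pool.Agent.Work.MP_56168e_lc.AD

open Finset Pool.Agent.Work.MP_56168e_lc

variable {n s : ℕ}

private theorem fm_dc {ι : Type*} [DecidableEq ι] (A : Finset ι) (g : Finset ι → ℝ) (r : ℕ) :
    ((r + 1 : ℕ) : ℝ) * ∑ J ∈ A.powersetCard (r + 1), g J =
      ∑ I ∈ A.powersetCard r, ∑ i ∈ A \ I, g (insert i I) := by
  have h1 : ((r + 1 : ℕ) : ℝ) * ∑ J ∈ A.powersetCard (r + 1), g J =
      ∑ J ∈ A.powersetCard (r + 1), ∑ _i ∈ J, g J := by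
    rw [mul_sum]
    refine sum_congr rfl fun J hJ => ?_
    rw [sum_const, (mem_powersetCard.1 hJ).2, nsmul_eq_mul]
  rw [h1, sum_sigma', sum_sigma']
  refine sum_bij' (fun p _ => ⟨p.1.erase p.2, p.2⟩) (fun p _ => ⟨insert p.2 p.1, p.2⟩)
    ?_ ?_ ?_ ?_ ?_
  · rintro ⟨J, i⟩ hp
    obtain ⟨hJ, hi⟩ := mem_sigma.1 hp
    obtain ⟨hJA, hJc⟩ := mem_powersetCard.1 hJ
    refine mem_sigma.2 ⟨mem_powersetCard.2 ⟨(erase_subset _ _).trans hJA, ?_⟩, ?_⟩
    · show (J.erase i).card = r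
      rw [card_erase_of_mem hi, hJc]
      rfl
    · show i ∈ A \ J.erase i
      exact mem_sdiff.2 ⟨hJA hi, notMem_erase _ _⟩
  · rintro ⟨I, i⟩ hp
    obtain ⟨hI, hi⟩ := mem_sigma.1 hp
    obtain ⟨hIA, hIc⟩ := mem_powersetCard.1 hI
    obtain ⟨hiA, hiI⟩ := mem_sdiff.1 hi
    refine mem_sigma.2 ⟨mem_powersetCard.2 ⟨insert_subset hiA hIA, ?_⟩, ?_⟩
    · show (insert i I).card = r + 1
      rw [card_insert_of_notMem hiI, hIc]
    · exact mem_insert_self _ _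
  · rintro ⟨J, i⟩ hp
    obtain ⟨hJ, hi⟩ := mem_sigma.1 hp
    show (⟨insert i (J.erase i), i⟩ : (_ : Finset ι) × ι) = ⟨J, i⟩
    rw [insert_erase hi]
  · rintro ⟨I, i⟩ hp
    obtain ⟨hI, hi⟩ := mem_sigma.1 hp
    obtain ⟨hiA, hiI⟩ := mem_sdiff.1 hi
    show (⟨(insert i I).erase i, i⟩ : (_ : Finset ι) × ι) = ⟨I, i⟩
    rw [erase_insert hiI]
  · rintro ⟨J, i⟩ hp
    obtain ⟨hJ, hi⟩ := mem_sigma.1 hp
    show g J = g (insert i (J.erase i))
    rw [insert_erase hi]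

theorem fact_mom {T : Fin s → PA n} {A : Finset (Fin s)} {l W w1 R : ℕ} (hdes : Des T A l)
    (hW : ∀ i ∈ A, (dom (T i)).card ≤ W) (hw : ∀ i ∈ A, w1 ≤ (dom (T i)).card) {K : ℝ}
    (hK : 2 ^ l * mass T A + ((R * W : ℕ) : ℝ) ^ (l + 1) * 2 ^ (R * l) / 2 ^ w1 ≤ K) :
    ∀ r ≤ R, ∑ I ∈ A.powersetCard r, ex (fun x => ∏ i ∈ I, ti (T i) x)
      ≤ K ^ r / (r.factorial : ℝ) := by
  have hK0 : 0 ≤ K := by
    have h1 : 0 ≤ mass T A := sum_nonneg fun i _ => (pw_pos (T i)).le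
    have h2 : (0 : ℝ) ≤ 2 ^ l * mass T A +
        ((R * W : ℕ) : ℝ) ^ (l + 1) * 2 ^ (R * l) / 2 ^ w1 := by positivity
    linarith
  intro r
  induction r with
  | zero =>
    intro _
    rw [powersetCard_zero, sum_singleton]
    simp [ex_const]
  | succ r ih =>
    intro hr
    have h1 := ih (by omega)
    have h2 := fm_dc A (fun I => ex (fun x => ∏ i ∈ I, ti (T i) x)) r
    have h3 : ∑ I ∈ A.powersetCard r, ∑ i ∈ A \ I,
        ex (fun x => ∏ j ∈ insert i I, ti (T j) x) ≤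
        ∑ I ∈ A.powersetCard r, K * ex (fun x => ∏ a ∈ I, ti (T a) x) := by
      refine sum_le_sum fun I hI => ?_
      obtain ⟨hIA, hIc⟩ := mem_powersetCard.1 hI
      have h4 := one_more hdes hW hw hK I hIA (by omega)
      refine le_trans (le_of_eq (sum_congr rfl fun i hi => ?_)) h4
      refine ex_congr fun x => ?_
      rw [prod_insert (mem_sdiff.1 hi).2, mul_comm]
    rw [← mul_sum] at h3
    have h5 : K * ∑ I ∈ A.powersetCard r, ex (fun x => ∏ a ∈ I, ti (T a) x) ≤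
        K * (K ^ r / (r.factorial : ℝ)) := mul_le_mul_of_nonneg_left h1 hK0
    have h6 : (0 : ℝ) < ((r + 1 : ℕ) : ℝ) := by positivity
    have h7 : ((r + 1 : ℕ) : ℝ) * ∑ J ∈ A.powersetCard (r + 1),
        ex (fun x => ∏ i ∈ J, ti (T i) x) ≤ K * (K ^ r / (r.factorial : ℝ)) := by
      rw [h2]
      exact h3.trans h5
    have h8 : (0 : ℝ) < (r.factorial : ℝ) := by positivity
    rw [Nat.factorial_succ, Nat.cast_mul, le_div_iff₀ (mul_pos h6 h8)]
    calc (∑ J ∈ A.powersetCard (r + 1), ex (fun x => ∏ i ∈ J, ti (T i) x)) *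
          (((r + 1 : ℕ) : ℝ) * (r.factorial : ℝ))
        = (((r + 1 : ℕ) : ℝ) * ∑ J ∈ A.powersetCard (r + 1),
          ex (fun x => ∏ i ∈ J, ti (T i) x)) * (r.factorial : ℝ) := by ring
      _ ≤ (K * (K ^ r / (r.factorial : ℝ))) * (r.factorial : ℝ) :=
          mul_le_mul_of_nonneg_right h7 h8.le
      _ = K ^ (r + 1) := by
          field_simp
          ring

end Pool.Agent.Work.MP_56168e_lc.AD
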