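import Mathlib
import Pool.Agent.Work.MP_56168e_lc.AD.Defs
import Pool.Agent.Work.MP_56168e_lc.AD.Fact
import Pool.Agent.Work.MP_56168e_lc.AD.DelI
import Pool.Agent.Work.MP_56168e_lc.Bonf
import Pool.Agent.Work.MP_56168e_lc.LeadF
set_option autoImplicit false

/-!
Bonferroni at the end.  PROOF.  As bonf_fool in Work/MP_56168e_lc/BonFool.lean (copy and adapt, simpler):
c x = number of i in A with Sat (T i) x; nz T A x = 1 if c x = 0 else 0; (c x choose r) = ∑_{I in powersetCard r A}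
∏_{i in I} ti (T i) x (as choose_cnt in LeadF).  bonf_nat (Bonf.lean).  Δ_r ≤ s^R ε + η e_r with
e_r = ∑_I ex (∏ ti) ≤ K^r/r! (del_I, fact_mom; the number of I is ≤ s^R), ∑_{r ≤ R} K^r/r! ≤ exp K
(Real.sum_le_exp_of_nonneg or similar).  Total: (R+1) s^R ε + η exp K + 2 e_R.
-/

namespace Pool.Agent.Work.MP_56168e_lc.AD

open Finset Pool.Agent.Work.MP_56168e_lc

variable {n s : ℕ}

open Classical in
private noncomputable def cc (T : Fin s → PA n) (A : Finset (Fin s)) (x : Cube n) : ℕ :=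
  (A.filter (fun i => Sat (T i) x)).card

private lemma nz_eq_cc (T : Fin s → PA n) (A : Finset (Fin s)) (x : Cube n) :
    nz T A x = if cc T A x = 0 then (1 : ℝ) else 0 := by
  classical
  have key : (∃ i ∈ A, Sat (T i) x) ↔ ¬ cc T A x = 0 := by
    unfold cc
    rw [card_eq_zero, ← ne_eq, ← nonempty_iff_ne_empty]
    constructor
    · rintro ⟨i, hi, hs⟩
      exact ⟨i, mem_filter.mpr ⟨hi, hs⟩⟩
    · rintro ⟨i, hi⟩
      rw [mem_filter] at hi
      exact ⟨i, hi.1, hi.2⟩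
  unfold nz
  by_cases h : cc T A x = 0
  · rw [if_pos h, if_neg fun h' => (key.mp h') h]
  · rw [if_neg h, if_pos (key.mpr h)]

private lemma choose_cc (T : Fin s → PA n) (A : Finset (Fin s)) (r : ℕ) (x : Cube n) :
    ((cc T A x).choose r : ℝ) = ∑ I ∈ A.powersetCard r, ∏ i ∈ I, ti (T i) x := by
  classical
  have h1 : ∀ I ∈ A.powersetCard r, ∏ i ∈ I, ti (T i) x
      = if I ⊆ A.filter (fun i => Sat (T i) x) then (1 : ℝ) else 0 := by
    intro I hI
    have hIA := (mem_powersetCard.mp hI).1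
    by_cases h : I ⊆ A.filter (fun i => Sat (T i) x)
    · rw [if_pos h]
      refine prod_eq_one fun i hi => ?_
      unfold ti
      rw [if_pos (mem_filter.mp (h hi)).2]
    · rw [if_neg h]
      obtain ⟨i, hi, hi2⟩ := not_subset.mp h
      refine prod_eq_zero hi ?_
      unfold ti
      rw [if_neg fun h' => hi2 (mem_filter.mpr ⟨hIA hi, h'⟩)]
  rw [sum_congr rfl h1, ← sum_filter, sum_const, nsmul_eq_mul, mul_one]
  unfold cc
  rw [← card_powersetCard]
  norm_cast
  congr 1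
  ext I
  rw [mem_filter, mem_powersetCard, mem_powersetCard]
  constructor
  · rintro ⟨h1, h2⟩
    exact ⟨⟨h1.trans (filter_subset _ _), h2⟩, h1⟩
  · rintro ⟨⟨_, h2⟩, h3⟩
    exact ⟨h3, h2⟩

theorem fin_fool {T : Fin s → PA n} {B A : Finset (Fin s)} {l W w w1 R : ℕ} {K η ε ε1 : ℝ}
    (hs : 1 ≤ s) (hR : 1 ≤ R) (hdes : Des T A l) (hW : ∀ i ∈ A, (dom (T i)).card ≤ W)
    (hw : ∀ i ∈ A, w1 ≤ (dom (T i)).card) (hB : ∀ i ∈ B, (dom (T i)).card ≤ w)
    (hK : 2 ^ l * mass T A + ((R * W : ℕ) : ℝ) ^ (l + 1) * 2 ^ (R * l) / 2 ^ w1 ≤ K)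
    (hWF : WF s w η ε1) (hη : 0 ≤ η) (hε1 : ε1 ≤ 1) (hε : 0 ≤ ε)
    (hεε : 2 * ε * 2 ^ (R * W) ≤ ε1) {φ : Cube n → ℝ} (hφ : Dens ε φ) :
    |pe φ (two T B A) - ex (two T B A)|
      ≤ (R + 1) * ((s : ℝ) ^ R * ε) + η * Real.exp K + 2 * (K ^ R / (R.factorial : ℝ)) := by
  classical
  have hK0 : 0 ≤ K := by
    refine le_trans ?_ hK
    have h1 : 0 ≤ mass T A := sum_nonneg fun i _ => (pw_pos (T i)).le
    positivity
  obtain ⟨d, hd⟩ : ∃ d : ℕ → ℝ, ∀ r, d r = (s : ℝ) ^ R * ε + η * (K ^ r / (r.factorial : ℝ)) :=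
    ⟨_, fun _ => rfl⟩
  obtain ⟨C, hC⟩ : ∃ C : ℕ → Cube n → ℝ, ∀ r x, C r x = ((cc T A x).choose r : ℝ) :=
    ⟨_, fun _ _ => rfl⟩
  have hC0 : ∀ r x, 0 ≤ C r x := fun r x => by rw [hC]; exact Nat.cast_nonneg _
  have hfact := fact_mom hdes hW hw hK
  -- level r
  have hΔ : ∀ r ≤ R, |pe φ (fun x => nz T B x * C r x) - ex (fun x => nz T B x * C r x)| ≤ d r := by
    intro r hr
    have e1 : (fun x => nz T B x * C r x)
        = fun x => ∑ I ∈ A.powersetCard r, nz T B x * ∏ i ∈ I, ti (T i) x := by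
      funext x
      rw [hC, choose_cc, mul_sum]
    rw [e1, pe_sum, ex_sum, ← sum_sub_distrib]
    refine (abs_sum_le_sum_abs _ _).trans ?_
    have h1 : ∀ I ∈ A.powersetCard r,
        |pe φ (fun x => nz T B x * ∏ i ∈ I, ti (T i) x)
          - ex (fun x => nz T B x * ∏ i ∈ I, ti (T i) x)|
          ≤ ε + η * ex (fun x => ∏ i ∈ I, ti (T i) x) := by
      intro I hI
      obtain ⟨hIA, hIc⟩ := mem_powersetCard.mp hI
      exact del_I T B I (fun i hi => hW i (hIA hi)) hB (by rw [hIc]; exact hr) hWF hη hε1 hε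
        hεε hφ
    refine (sum_le_sum h1).trans ?_
    rw [sum_add_distrib, sum_const, nsmul_eq_mul, ← mul_sum, card_powersetCard]
    have h2 : ((A.card.choose r : ℕ) : ℝ) ≤ (s : ℝ) ^ R := by
      have h3 : A.card ≤ s := by
        have := card_le_univ A
        rwa [Fintype.card_fin] at this
      have h4 : A.card.choose r ≤ s ^ R :=
        ((Nat.choose_le_pow _ _).trans (Nat.pow_le_pow_left h3 r)).trans
          (Nat.pow_le_pow_right hs hr)
      exact_mod_cast h4
    have h6 := mul_le_mul_of_nonneg_right h2 hε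
    have h7 := mul_le_mul_of_nonneg_left (hfact r hr) hη
    rw [hd]
    linarith
  -- pointwise Bonferroni
  have hpt : ∀ x, |nz T B x * nz T A x
      - ∑ r ∈ range R, (-1) ^ r * (nz T B x * C r x)| ≤ nz T B x * C R x := by
    intro x
    have h1 := bonf_nat (cc T A x) R hR
    rw [← nz_eq_cc T A x] at h1
    have e1 : nz T B x * nz T A x - ∑ r ∈ range R, (-1) ^ r * (nz T B x * C r x)
        = nz T B x * (nz T A x - ∑ r ∈ range R, (-1) ^ r * ((cc T A x).choose r : ℝ)) := by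
      rw [mul_sub, mul_sum]
      congr 1
      refine sum_congr rfl fun r _ => ?_
      rw [hC]
      ring
    rw [e1, abs_mul, abs_of_nonneg (nz_nonneg T B x), hC]
    exact mul_le_mul_of_nonneg_left h1 (nz_nonneg T B x)
  have hgen : ∀ (ψ : Cube n → ℝ), (∀ x, 0 ≤ ψ x) →
      |pe ψ (fun x => nz T B x * nz T A x)
        - ∑ r ∈ range R, (-1) ^ r * pe ψ (fun x => nz T B x * C r x)|
        ≤ pe ψ (fun x => nz T B x * C R x) := by
    intro ψ hψ
    have e1 : ∑ r ∈ range R, (-1) ^ r * pe ψ (fun x => nz T B x * C r x)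
        = pe ψ (fun x => ∑ r ∈ range R, (-1) ^ r * (nz T B x * C r x)) := by
      rw [pe_sum]
      refine sum_congr rfl fun r _ => ?_
      rw [pe_smul]
    rw [e1, ← pe_sub]
    have hm : ∀ g h : Cube n → ℝ, (∀ x, g x ≤ h x) → pe ψ g ≤ pe ψ h := fun g h hgh =>
      ex_mono fun x => mul_le_mul_of_nonneg_left (hgh x) (hψ x)
    rw [abs_le]
    constructor
    · have h2 := hm (fun x => (-1) * (nz T B x * C R x))
        (fun x => nz T B x * nz T A x - ∑ r ∈ range R, (-1) ^ r * (nz T B x * C r x))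
        fun x => by
          have := (abs_le.mp (hpt x)).1
          linarith
      rw [pe_smul] at h2
      linarith
    · exact hm _ _ fun x => (abs_le.mp (hpt x)).2
  have h1 := hgen φ hφ.nonneg
  have h2 := hgen (fun _ => 1) fun _ => zero_le_one
  simp only [pe_one] at h2
  have h3 : |∑ r ∈ range R, (-1) ^ r * pe φ (fun x => nz T B x * C r x)
      - ∑ r ∈ range R, (-1) ^ r * ex (fun x => nz T B x * C r x)| ≤ ∑ r ∈ range R, d r := by
    rw [← sum_sub_distrib]
    refine (abs_sum_le_sum_abs _ _).trans ?_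
    refine sum_le_sum fun r hr => ?_
    rw [← mul_sub, abs_mul, abs_pow, abs_neg, abs_one, one_pow, one_mul]
    exact hΔ r (mem_range.mp hr).le
  have h4 := (abs_le.mp (hΔ R le_rfl)).2
  have h5 : ex (fun x => nz T B x * C R x) ≤ K ^ R / (R.factorial : ℝ) := by
    have h6 : ex (fun x => nz T B x * C R x) ≤ ex (C R) := ex_mono fun x => by
      have := mul_le_mul_of_nonneg_right (nz_le_one T B x) (hC0 R x)
      linarith
    have h7 : ex (C R) = ∑ I ∈ A.powersetCard R, ex (fun x => ∏ i ∈ I, ti (T i) x) := by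
      rw [← ex_sum]
      refine ex_congr fun x => ?_
      rw [hC, choose_cc]
    rw [h7] at h6
    exact h6.trans (hfact R le_rfl)
  have h8 : ∑ r ∈ range R, d r + d R ≤ (R + 1) * ((s : ℝ) ^ R * ε) + η * Real.exp K := by
    rw [← sum_range_succ]
    have h9 : ∑ r ∈ range (R + 1), d r = (R + 1) * ((s : ℝ) ^ R * ε)
        + η * ∑ r ∈ range (R + 1), K ^ r / (r.factorial : ℝ) := by
      rw [sum_congr rfl (fun r _ => hd r), sum_add_distrib, sum_const, card_range, nsmul_eq_mul,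
        mul_sum]
      push_cast
      ring
    rw [h9]
    have h10 := mul_le_mul_of_nonneg_left (Real.sum_le_exp_of_nonneg hK0 (R + 1)) hη
    linarith
  have h1' := abs_le.mp h1
  have h2' := abs_le.mp h2
  have h3' := abs_le.mp h3
  have e5 : two T B A = fun x => nz T B x * nz T A x := rfl
  rw [e5, abs_le]
  constructor <;> linarith [h1'.1, h1'.2, h2'.1, h2'.2, h3'.1, h3'.2]

end Pool.Agent.Work.MP_56168e_lc.AD
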