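import Mathlib
import Pool.Agent.Work.MP_56168e_lc.AD.Defs
import Pool.Agent.Work.MP_56168e_lc.AD.Cert
import Pool.Agent.Work.MP_56168e_lc.AD.Fin
set_option autoImplicit false

/-!
No heavy nonempty set.  PROOF.  Λ = GG^l ≥ 1 (cF ≥ 64 > 0).  Case cF Λ ≤ mass T A: cert (w1 = wb, dd T A U ≤ Λ
for nonempty dom U by hst) with h7 and h3 (16 ε0 s^2 ≤ 32 ε0 2^l s^2 ≤ δ1/2) gives pe φ (nz T A) ≤ δ1
and, for the constant density 1 (Dens 0, mono to Dens ε0; pe_one), ex (nz T A) ≤ δ1; 0 ≤ two T B A ≤ nz T A, so the difference is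
at most δ1 ≤ δ/16.  Case mass T A < cF Λ: fin_fool with K = KK l M δ1 (hK from h8) and h1, h2, hη, hRf:
the three summands are each ≤ δ/16.
-/

namespace Pool.Agent.Work.MP_56168e_lc.AD

open Finset Pool.Agent.Work.MP_56168e_lc

variable {n s : ℕ}

private theorem iz_dens {n : ℕ} : Dens (n := n) 0 (fun _ => 1) := by
  refine ⟨fun _ => zero_le_one, ex_const 1, fun S hS => ?_⟩
  have h1 : fc (fun _ : Cube n => (1 : ℝ)) S = ex (chi S) := by
    unfold fc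
    exact ex_congr fun x => one_mul _
  rw [h1, ex_chi, if_neg hS.ne_empty, abs_zero]

theorem ind_zero {l W w wb M R : ℕ} {δ δ1 η ε1 ε0 : ℝ} (hP : Pm s l W w wb M R δ δ1 η ε1 ε0)
    {T : Fin s → PA n} {B A : Finset (Fin s)} (hdes : Des T A l)
    (hW : ∀ i ∈ A, (dom (T i)).card ≤ W) (hw : ∀ i ∈ A, wb + l ≤ (dom (T i)).card)
    (hB : ∀ i ∈ B, (dom (T i)).card ≤ w) (hst : St T A 0 (GG l M δ1 ^ l)) {φ : Cube n → ℝ}
    (hφ : Dens ε0 φ) :
    |pe φ (two T B A) - ex (two T B A)| ≤ 3 * δ / 16 := by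
  have hδ1 := hP.hδ1
  have hδ := hP.hδ
  have hcF : 1 ≤ cF l δ1 := by
    unfold cF
    rw [le_div_iff₀ hδ1, one_mul]
    have h1 : (1 : ℝ) ≤ 2 ^ (l + 6) := one_le_pow₀ (by norm_num)
    exact hP.hδ11.trans h1
  have hGG : 1 ≤ GG l M δ1 := by
    unfold GG
    have h1 : (0 : ℝ) ≤ 2 ^ (l * M) := by positivity
    linarith
  have hΛ : 1 ≤ GG l M δ1 ^ l := one_le_pow₀ hGG
  have htwo0 : ∀ x, 0 ≤ two T B A x := by
    intro x
    unfold two
    exact mul_nonneg (nz_nonneg _ _ _) (nz_nonneg _ _ _)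
  have htwo1 : ∀ x, two T B A x ≤ nz T A x := by
    intro x
    unfold two
    have h1 := mul_le_mul_of_nonneg_right (nz_le_one T B x) (nz_nonneg T A x)
    rwa [one_mul] at h1
  rcases le_or_gt (cF l δ1 * GG l M δ1 ^ l) (mass T A) with hm | hm
  · have hwb : ∀ i ∈ A, wb ≤ (dom (T i)).card := fun i hi => by
      have := hw i hi
      omega
    have hdd : ∀ U : PA n, (dom U).Nonempty → dd T A U ≤ GG l M δ1 ^ l :=
      fun U hU => hst U (Finset.card_pos.2 hU)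
    have h3 : 16 * ε0 * (s : ℝ) ^ 2 ≤ δ1 / 2 := by
      refine le_trans ?_ hP.h3
      have h4 : (1 : ℝ) ≤ 2 ^ l := one_le_pow₀ (by norm_num)
      have h5 : 0 ≤ ε0 * (s : ℝ) ^ 2 := mul_nonneg hP.hε0 (sq_nonneg _)
      have h6 : 16 * ε0 * (s : ℝ) ^ 2 = 16 * (ε0 * (s : ℝ) ^ 2) * 1 := by ring
      have h7 : 32 * ε0 * 2 ^ l * (s : ℝ) ^ 2 = 32 * (ε0 * (s : ℝ) ^ 2) * 2 ^ l := by ring
      rw [h6, h7]
      exact mul_le_mul (by linarith) h4 zero_le_one (by positivity)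
    have c1 := cert hdes hW hwb hΛ hdd hδ1 hP.hδ11 hm hP.h7 hP.hε0 h3 hφ
    have c2 := cert hdes hW hwb hΛ hdd hδ1 hP.hδ11 hm hP.h7 hP.hε0 h3
      ((iz_dens (n := n)).mono hP.hε0)
    rw [pe_one] at c2
    have d1 : 0 ≤ pe φ (two T B A) := pe_nonneg hφ htwo0
    have d2 : pe φ (two T B A) ≤ pe φ (nz T A) := pe_mono hφ htwo1
    have d3 : 0 ≤ ex (two T B A) := ex_nonneg htwo0
    have d4 : ex (two T B A) ≤ ex (nz T A) := ex_mono htwo1
    have d5 := hP.hδ12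
    rw [abs_le]
    constructor <;> linarith
  · have hwb : ∀ i ∈ A, wb ≤ (dom (T i)).card := fun i hi => by
      have := hw i hi
      omega
    have hK : 2 ^ l * mass T A + ((R * W : ℕ) : ℝ) ^ (l + 1) * 2 ^ (R * l) / 2 ^ wb ≤
        KK l M δ1 := by
      unfold KK
      have h1 : (0 : ℝ) ≤ 2 ^ l := by positivity
      have h2 := mul_le_mul_of_nonneg_left hm.le h1
      have h3 := hP.h8
      linarith
    have h1 := fin_fool hP.hs hP.hR hdes hW hwb hB hK hP.hWF hP.hη0 hP.hε1 hP.hε0 hP.h2 hφ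
    have h2 := hP.h1
    have h3 := hP.hη
    have h4 := hP.hRf
    linarith

end Pool.Agent.Work.MP_56168e_lc.AD
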