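import Mathlib
import Pool.Agent.Work.MP_56168e_lc.AD.Defs
import Pool.Agent.Work.MP_56168e_lc.AD.IndZero
import Pool.Agent.Work.MP_56168e_lc.AD.IndStep
import Pool.Agent.Work.MP_56168e_lc.AD.DdOne
set_option autoImplicit false

/-!
All rounds.  PROOF.  Induction on r (claim E_r = 3 δ/16 + r δ/(16(l+1)) for Dens (ε0/(2*2^(l*M))^r)): r = 0
is ind_zero; r + 1 is ind_step with ε = ε0/(2*2^(l*M))^(r+1) ≤ ε0, 2 ε 2^(l M) = ε0/(2*2^(l*M))^r, E = E_r ≥ δ/8.
At the end r = l: St T A l 1 by dd_le_one, GG^0 = 1, and 3 δ/16 + l δ/(16(l+1)) ≤ δ/4.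
-/

namespace Pool.Agent.Work.MP_56168e_lc.AD

open Finset Pool.Agent.Work.MP_56168e_lc

variable {n s : ℕ}

theorem ind_all {l W w wb M R : ℕ} {δ δ1 η ε1 ε0 : ℝ} (hP : Pm s l W w wb M R δ δ1 η ε1 ε0)
    {T : Fin s → PA n} {B A : Finset (Fin s)} (hdes : Des T A l)
    (hW : ∀ i ∈ A, (dom (T i)).card ≤ W)
    (hw : ∀ i ∈ A, wb + l + l * (l * M) ≤ (dom (T i)).card)
    (hB : ∀ i ∈ B, (dom (T i)).card ≤ w) {φ : Cube n → ℝ}
    (hφ : Dens (ε0 / (2 * 2 ^ (l * M)) ^ l) φ) :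
    |pe φ (two T B A) - ex (two T B A)| ≤ δ / 4 := by
  have hδ := hP.hδ
  have hl1 : (0 : ℝ) < 16 * ((l : ℝ) + 1) := by positivity
  have hb : (1 : ℝ) ≤ 2 * 2 ^ (l * M) := by
    have : (1 : ℝ) ≤ 2 ^ (l * M) := one_le_pow₀ (by norm_num)
    linarith
  have key : ∀ r : ℕ, r ≤ l → ∀ (n : ℕ) (T : Fin s → PA n) (B A : Finset (Fin s))
      (ψ : Cube n → ℝ), Des T A l →
      (∀ i ∈ A, (dom (T i)).card ≤ W) → (∀ i ∈ A, wb + l + r * (l * M) ≤ (dom (T i)).card) →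
      (∀ i ∈ B, (dom (T i)).card ≤ w) → St T A r (GG l M δ1 ^ (l - r)) →
      Dens (ε0 / (2 * 2 ^ (l * M)) ^ r) ψ →
      |pe ψ (two T B A) - ex (two T B A)| ≤ 3 * δ / 16 + r * (δ / (16 * (l + 1))) := by
    intro r
    induction r with
    | zero =>
      intro _ n T B A ψ h1 h2 h3 h4 h5 h6
      rw [pow_zero, div_one] at h6
      rw [Nat.sub_zero] at h5
      have := ind_zero hP h1 h2 (fun i hi => by simpa using h3 i hi) h4 h5 h6
      simpa using this
    | succ r ih =>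
      intro hr n T B A ψ h1 h2 h3 h4 h5 h6
      have hpow : (0 : ℝ) < (2 * 2 ^ (l * M)) ^ (r + 1) := by positivity
      have hE : 0 ≤ 3 * δ / 16 + r * (δ / (16 * (l + 1))) := by positivity
      have h7 := ind_step hP (r := r + 1) (by omega) hr
        (ε := ε0 / (2 * 2 ^ (l * M)) ^ (r + 1)) (div_nonneg hP.hε0 hpow.le)
        (div_le_self hP.hε0 (one_le_pow₀ hb)) hE (by
          intro n T B A ψ a1 a2 a3 a4 a5 a6
          rw [Nat.add_sub_cancel] at a3 a5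
          refine ih (by omega) n T B A ψ a1 a2 a3 a4 a5 ?_
          have h8 : 2 * (ε0 / (2 * 2 ^ (l * M)) ^ (r + 1)) * 2 ^ (l * M) =
              ε0 / (2 * 2 ^ (l * M)) ^ r := by
            have h9 : (2 * 2 ^ (l * M) : ℝ) ^ r ≠ 0 := by positivity
            have h10 : (2 ^ (l * M) : ℝ) ≠ 0 := by positivity
            rw [pow_succ]
            field_simp
          rwa [h8] at a6) h1 h2 h3 h4 h5 h6
      refine h7.trans (max_le ?_ ?_)
      · have : 0 ≤ (((r + 1 : ℕ) : ℝ)) * (δ / (16 * (l + 1))) := by positivity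
        linarith
      · push_cast
        linarith
  have hst : St T A l (GG l M δ1 ^ (l - l)) := by
    intro U hU
    rw [Nat.sub_self, pow_zero]
    exact dd_le_one hdes hU
  refine (key l le_rfl n T B A φ hdes hW hw hB hst hφ).trans ?_
  have h11 : (l : ℝ) * (δ / (16 * (l + 1))) ≤ δ / 16 := by
    rw [mul_div_assoc', div_le_div_iff₀ hl1 (by norm_num)]
    nlinarith
  linarith

end Pool.Agent.Work.MP_56168e_lc.AD
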