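import Mathlib
import Pool.Agent.Work.MP_56168e_lc.AD.Defs
import Pool.Agent.Work.MP_56168e_lc.AD.IndAll
import Pool.Agent.Work.MP_56168e_lc.AD.CondV
set_option autoImplicit false

/-!
Wide terms and the exceptional variables.  PROOF.  As lowW (LowW.lean, copy nz_diff with Z instead of univ): Z0 = the i in Z with
|dom (T i)| ≤ W; 0 ≤ nz T Z0 - nz T Z ≤ ∑_{i in Z, width > W} ti (T i), whose ex is ≤ s (1/2)^W and whose pe
is ≤ s ((1/2)^W + ε).  Z0 = B ∪ A with B = those with |dom (T i) \ H| ≤ w, nz T Z0 = two T B A (nz_union).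
cond_v with V = H, ε' = ε0/(2*2^(l*M))^l (≤ 1 from h2: ε0 ≤ ε1 ≤ 1), E = δ/4: for dom σ = H the domains of rf σ T are
dom (T i) \ H (dom_rt in RlF), so Des (rf σ T) (al σ T A) l, widths ≤ W, ≥ w + 1 on A, ≤ w on B: ind_all.
-/

namespace Pool.Agent.Work.MP_56168e_lc.AD

open Finset Pool.Agent.Work.MP_56168e_lc

variable {n s : ℕ}

private lemma wd_diff (T : Fin s → PA n) (Z : Finset (Fin s)) (W : ℕ) (x : Cube n) :
    nz T (Z.filter (fun i => (dom (T i)).card ≤ W)) x - nz T Z x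
      ≤ ∑ i ∈ Z.filter (fun i => ¬ (dom (T i)).card ≤ W), ti (T i) x := by
  classical
  have h0 : 0 ≤ ∑ i ∈ Z.filter (fun i => ¬ (dom (T i)).card ≤ W),
      ti (T i) x := sum_nonneg fun i _ => ti_nonneg (T i) x
  by_cases h1 : ∃ i ∈ Z, Sat (T i) x
  · by_cases h2 : ∃ i ∈ Z.filter (fun i => (dom (T i)).card ≤ W),
        Sat (T i) x
    · unfold nz
      rw [if_pos h1, if_pos h2]
      linarith
    · obtain ⟨i, hiZ, hi⟩ := h1
      have h3 : i ∈ Z.filter (fun i => ¬ (dom (T i)).card ≤ W) := by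
        rw [mem_filter]
        refine ⟨hiZ, fun h => h2 ⟨i, ?_, hi⟩⟩
        rw [mem_filter]
        exact ⟨hiZ, h⟩
      have h4 := single_le_sum (f := fun i => ti (T i) x) (fun j _ => ti_nonneg (T j) x) h3
      have h5 : ti (T i) x = 1 := by
        unfold ti
        rw [if_pos hi]
      simp only [h5] at h4
      have h6 := nz_le_one T (Z.filter (fun i => (dom (T i)).card ≤ W)) x
      have h7 := nz_nonneg T Z x
      linarith
  · have h2 : ¬ ∃ i ∈ Z.filter (fun i => (dom (T i)).card ≤ W),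
        Sat (T i) x := by
      rintro ⟨i, hi1, hi⟩
      exact h1 ⟨i, (mem_filter.1 hi1).1, hi⟩
    unfold nz
    rw [if_neg h1, if_neg h2]
    linarith

private lemma wd_two (T : Fin s → PA n) (Z0 : Finset (Fin s)) (p : Fin s → Prop)
    [DecidablePred p] (x : Cube n) :
    nz T Z0 x = two T (Z0.filter p) (Z0.filter fun i => ¬ p i) x := by
  unfold two
  rw [← nz_union, filter_union_filter_not_eq]

theorem wide {l W w wb M R : ℕ} {δ δ1 η ε1 ε0 : ℝ} (hP : Pm s l W w wb M R δ δ1 η ε1 ε0)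
    (hwb : wb + l + l * (l * M) ≤ w + 1) {T : Fin s → PA n} (H : Finset (Fin n))
    (Z : Finset (Fin s))
    (hdes : ∀ i ∈ Z, ∀ j ∈ Z, i ≠ j → w < (dom (T i) \ H).card → w < (dom (T j) \ H).card →
      ((dom (T i) \ H) ∩ (dom (T j) \ H)).card ≤ l) {ε : ℝ} (hε : 0 ≤ ε)
    (hεH : 2 * ε * 2 ^ H.card ≤ ε0 / (2 * 2 ^ (l * M)) ^ l) {φ : Cube n → ℝ} (hφ : Dens ε φ) :
    |pe φ (nz T Z) - ex (nz T Z)| ≤ δ / 4 + 2 ^ H.card * ε + s * ((1 / 2) ^ W + ε) := by
  classical
  set Z0 := Z.filter (fun i => (dom (T i)).card ≤ W) with hZ0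
  set A1 := Z.filter (fun i => ¬ (dom (T i)).card ≤ W) with hA1
  have hδ4 : 0 ≤ δ / 4 := by
    have := hP.hδ
    linarith
  have hε01 : ε0 ≤ 1 := by
    have h1 := hP.h2
    have h2 := hP.hε1
    have h3 : (1 : ℝ) ≤ 2 ^ (R * W) := one_le_pow₀ (by norm_num)
    have h4 := mul_le_mul_of_nonneg_left h3 hP.hε0
    have h5 : 0 ≤ ε0 := hP.hε0
    nlinarith
  have hε'1 : ε0 / (2 * 2 ^ (l * M)) ^ l ≤ 1 := by
    have h1 : (1 : ℝ) ≤ 2 ^ (l * M) := one_le_pow₀ (by norm_num)
    have h2 : (1 : ℝ) ≤ (2 * 2 ^ (l * M)) ^ l := one_le_pow₀ (by linarith)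
    rw [div_le_one (by linarith)]
    linarith
  have hcore : |pe φ (nz T Z0) - ex (nz T Z0)| ≤ δ / 4 + 2 ^ H.card * ε := by
    have h1 : nz T Z0 = two T (Z0.filter fun i => (dom (T i) \ H).card ≤ w)
        (Z0.filter fun i => ¬ (dom (T i) \ H).card ≤ w) := by
      funext x
      exact wd_two T Z0 (fun i => (dom (T i) \ H).card ≤ w) x
    rw [h1]
    refine cond_v T _ _ H hε hεH hε'1 hδ4 (fun σ hσ ψ hψ => ?_) hφ
    refine ind_all hP ?_ ?_ ?_ ?_ hψ
    · intro i hi j hj hij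
      have hi1 := (mem_filter.1 hi).1
      have hj1 := (mem_filter.1 hj).1
      obtain ⟨hi2, hi3⟩ := mem_filter.1 hi1
      obtain ⟨hj2, hj3⟩ := mem_filter.1 hj1
      show (dom (rt σ (T i)) ∩ dom (rt σ (T j))).card ≤ l
      rw [dom_rt, dom_rt, hσ]
      exact hdes i (mem_filter.1 hi2).1 j (mem_filter.1 hj2).1 hij (not_le.1 hi3) (not_le.1 hj3)
    · intro i hi
      have hi1 := (mem_filter.1 hi).1
      obtain ⟨hi2, hi3⟩ := mem_filter.1 hi1
      show (dom (rt σ (T i))).card ≤ W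
      rw [dom_rt]
      exact (card_le_card sdiff_subset).trans (mem_filter.1 hi2).2
    · intro i hi
      have hi1 := (mem_filter.1 hi).1
      obtain ⟨hi2, hi3⟩ := mem_filter.1 hi1
      show _ ≤ (dom (rt σ (T i))).card
      rw [dom_rt, hσ]
      exact hwb.trans (not_le.1 hi3)
    · intro i hi
      have hi1 := (mem_filter.1 hi).1
      obtain ⟨hi2, hi3⟩ := mem_filter.1 hi1
      show (dom (rt σ (T i))).card ≤ w
      rw [dom_rt, hσ]
      exact hi3
  have hlow : ∀ x, 0 ≤ nz T Z0 x - nz T Z x := fun x => by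
    have := nz_anti (T := T) (filter_subset (fun i => (dom (T i)).card ≤ W) Z) x
    linarith
  have hw : ∀ i ∈ A1, pw (T i) ≤ (1 / 2) ^ W := by
    intro i hi
    have := (mem_filter.mp hi).2
    push Not at this
    unfold pw
    exact pow_le_pow_of_le_one (by norm_num) (by norm_num) this.le
  have hc : (A1.card : ℝ) ≤ s := by
    have := card_le_univ A1
    rw [Fintype.card_fin] at this
    exact_mod_cast this
  have hb0 : (0 : ℝ) ≤ (1 / 2) ^ W + ε := by positivity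
  have hpe : pe φ (nz T Z0) - pe φ (nz T Z) ≤ s * ((1 / 2) ^ W + ε) := by
    rw [← pe_sub]
    refine (pe_mono hφ (wd_diff T Z W)).trans ?_
    rw [pe_sum]
    refine (sum_le_sum (g := fun _ => (1 / 2 : ℝ) ^ W + ε) fun i hi => ?_).trans ?_
    · have h2 := abs_le.mp (fool hφ hε (ti (T i)))
      have h3 := mul_le_mul_of_nonneg_left (nrm_ti (T i)) hε
      have h4 := ex_ti (T i)
      have h5 := hw i hi
      have h6 : pe φ (fun x => ti (T i) x) = pe φ (ti (T i)) := rfl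
      linarith [h2.2]
    · rw [sum_const, nsmul_eq_mul]
      exact mul_le_mul_of_nonneg_right hc hb0
  have hex : ex (nz T Z0) - ex (nz T Z) ≤ s * ((1 / 2) ^ W + ε) := by
    rw [← ex_sub]
    refine (ex_mono (wd_diff T Z W)).trans ?_
    rw [ex_sum]
    refine (sum_le_sum (g := fun _ => (1 / 2 : ℝ) ^ W + ε) fun i hi => ?_).trans ?_
    · have h4 := ex_ti (T i)
      have h5 := hw i hi
      have h6 : ex (fun x => ti (T i) x) = ex (ti (T i)) := rfl
      linarith
    · rw [sum_const, nsmul_eq_mul]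
      exact mul_le_mul_of_nonneg_right hc hb0
  have hpe0 : 0 ≤ pe φ (nz T Z0) - pe φ (nz T Z) := by
    rw [← pe_sub]
    exact pe_nonneg hφ hlow
  have hex0 : 0 ≤ ex (nz T Z0) - ex (nz T Z) := by
    rw [← ex_sub]
    exact ex_nonneg hlow
  have h2 := abs_le.mp hcore
  rw [abs_le]
  constructor <;> linarith [h2.1, h2.2]

end Pool.Agent.Work.MP_56168e_lc.AD
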