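import Mathlib
import Pool.Agent.Work.MP_56168e_lc.AD.Defs
import Pool.Agent.Work.MP_56168e_lc.AD.Wide
import Pool.Agent.Work.MP_56168e_lc.AD.WFool
import Pool.Agent.Work.MP_56168e_lc.AD.NumA
import Pool.Agent.Work.MP_56168e_lc.AD.NumB
set_option autoImplicit false

/-!
The theorem.
-/

namespace Pool.Agent.Work.MP_56168e_lc.AD

open Finset Pool.Agent.Work.MP_56168e_lc

variable {n s : ℕ}

theorem main (l : ℕ) {δ A : ℝ} (hδ : 0 < δ) (hδ1 : δ ≤ 1) (hA : 0 ≤ A) :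
    ∃ C : ℝ, 0 < C ∧ ∃ s0 : ℕ, ∀ (n s : ℕ) (T : Fin s → PA n) (Z : Finset (Fin s))
      (H : Finset (Fin n)) (φ : Cube n → ℝ), s0 ≤ s → (H.card : ℝ) ≤ A * Real.log s →
      (∀ i ∈ Z, ∀ j ∈ Z, i ≠ j →
        Real.log s / Real.log (Real.log s) ^ 3 < (dom (T i) \ H).card →
        Real.log s / Real.log (Real.log s) ^ 3 < (dom (T j) \ H).card →
        ((dom (T i) \ H) ∩ (dom (T j) \ H)).card ≤ l) →
      Dens ((s : ℝ) ^ (-C)) φ → |pe φ (nz T Z) - ex (nz T Z)| ≤ δ / 2 := by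
  obtain ⟨M, R, δ1, η, hM1, hR1, hδ1p, hδ11, hδ12, hM, hRf, hη0, hη1, hη⟩ := num_a l hδ hδ1
  obtain ⟨C1, hC1, hwf⟩ := wfool hη0 hη1
  obtain ⟨C, hC, s0, hs03, hb⟩ := num_b l M R hδ hδ1 hδ1p hA hC1
  refine ⟨C, hC, s0, ?_⟩
  intro n s T Z H φ hs hH hdes hφ
  obtain ⟨W, w, wb, ε0, ε1, hw1, hwle, hwlt, hwb, hε0, hε10, hε11, hε1, h1, h2, h3, h4, h5, h6,
    h7, h8, hW, hlast⟩ := hb s hs
  have hs1 : 1 ≤ s := by omega
  have hP : Pm s l W w wb M R δ δ1 η ε1 ε0 :=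
    ⟨hs1, hR1, hδ, hδ1p, hδ11, hδ12, hM, hRf, hη0.le, hη, hε11, hwf s w ε1 hw1 hε10 hε1, hε0,
      h1, h2, h3, h4, h5, h6, h7, h8⟩
  have hsp : (0 : ℝ) < s := by exact_mod_cast hs1
  have hεp : (0 : ℝ) ≤ (s : ℝ) ^ (-C) := (Real.rpow_pos_of_pos hsp _).le
  obtain ⟨h9, h10, h11⟩ := hlast ((s : ℝ) ^ (-C)) H.card hεp le_rfl hH
  have hlt : ∀ k : ℕ, w < k → Real.log s / Real.log (Real.log s) ^ 3 < (k : ℝ) := by
    intro k hk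
    have : ((w + 1 : ℕ) : ℝ) ≤ k := by exact_mod_cast hk
    push_cast at this
    linarith
  have h12 := wide hP hwb (T := T) H Z
    (fun i hi j hj hij hwi hwj => hdes i hi j hj hij (hlt _ hwi) (hlt _ hwj)) hεp h9 hφ
  have h13 : (s : ℝ) * ((1 / 2) ^ W + (s : ℝ) ^ (-C)) ≤ δ / 16 + δ / 32 := by
    rw [mul_add]
    linarith
  linarith

end Pool.Agent.Work.MP_56168e_lc.AD
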